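import Mathlib
import Pool.Agent.FAM.Defs

set_option autoImplicit false

/-!
# Natural density of sets of primes of a number field: definitions
-/

namespace Pool.Agent.NDE

open NumberField IsDedekindDomain

/-- The norm of a prime. -/
noncomputable def nm {K : Type*} [Field K] [NumberField K] (v : HeightOneSpectrum (𝓞 K)) : ℝ :=
  (Ideal.absNorm v.asIdeal : ℝ)

theorem finite_up (K : Type*) [Field K] [NumberField K] (x : ℝ) :
    {v : HeightOneSpectrum (𝓞 K) | nm v ≤ x}.Finite := by
  have h1 := Ideal.finite_setOfPred_absNorm_le (S := 𝓞 K) ⌊x⌋₊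
  refine Set.Finite.of_finite_image (f := fun v : HeightOneSpectrum (𝓞 K) => v.asIdeal)
    (h1.subset ?_) ?_
  · rintro _ ⟨v, hv, rfl⟩
    exact Nat.le_floor (show (Ideal.absNorm v.asIdeal : ℝ) ≤ x from hv)
  · intro v _ w _ h
    exact HeightOneSpectrum.ext h

/-- The primes of norm at most `x`. -/
noncomputable def up (K : Type*) [Field K] [NumberField K] (x : ℝ) :
    Finset (HeightOneSpectrum (𝓞 K)) :=
  (finite_up K x).toFinset

theorem mem_up {K : Type*} [Field K] [NumberField K] {x : ℝ} {v : HeightOneSpectrum (𝓞 K)} :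
    v ∈ up K x ↔ nm v ≤ x := by
  unfold up
  rw [Set.Finite.mem_toFinset]
  exact Iff.rfl

theorem two_le_nm {K : Type*} [Field K] [NumberField K] (v : HeightOneSpectrum (𝓞 K)) :
    2 ≤ nm v := by
  have h := HeightOneSpectrum.one_lt_absNorm v
  unfold nm
  exact_mod_cast h

open Classical in
/-- Positive lower natural density. -/
def NatDens {K : Type*} [Field K] [NumberField K] (S : Set (HeightOneSpectrum (𝓞 K))) : Prop :=
  ∃ c : ℝ, 0 < c ∧ ∃ X₀ : ℝ, ∀ x : ℝ, X₀ ≤ x →
    c * ((up K x).card : ℝ) ≤ (((up K x).filter fun v => v ∈ S).card : ℝ)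

/-- The algebraic integer with coordinates `s`. -/
noncomputable def el {K : Type*} [Field K] {n : ℕ} (ω : Fin n → 𝓞 K) (s : Fin n → ℤ) : 𝓞 K :=
  ∑ j, s j • ω j

open Classical in
/-- The number of the elements of the ideal `I` with coordinates of absolute value at most `X`. -/
noncomputable def ct {K : Type*} [Field K] {n : ℕ} (ω : Fin n → 𝓞 K) (X : ℕ)
    (I : Ideal (𝓞 K)) : ℕ :=
  ((FAM.Cube n X).filter fun s => el ω s ∈ I).card

end Pool.Agent.NDE
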