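import Mathlib
import Pool.Agent.NDE.Defs

set_option autoImplicit false

/-!
# Upper bounds for sums over the primes of a number field
-/

namespace Pool.Agent.NDE

open NumberField IsDedekindDomain

namespace ChvA

variable {K : Type*} [Field K] [NumberField K]

theorem exists_prime_mem (v : HeightOneSpectrum (𝓞 K)) (m : ℕ) (hm : m ≠ 0)
    (h : ((m : ℕ) : 𝓞 K) ∈ v.asIdeal) : ∃ p : ℕ, p.Prime ∧ p ∣ m ∧ ((p : ℕ) : 𝓞 K) ∈ v.asIdeal := by
  induction m using Nat.strong_induction_on with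
  | _ m ih =>
    have hm1 : m ≠ 1 := by
      rintro rfl
      rw [Nat.cast_one] at h
      exact v.isPrime.ne_top ((Ideal.eq_top_iff_one _).2 h)
    obtain ⟨q, hq, l, rfl⟩ := Nat.exists_prime_and_dvd hm1
    rw [Nat.cast_mul] at h
    rcases v.isPrime.mem_or_mem h with h1 | h1
    · exact ⟨q, hq, dvd_mul_right _ _, h1⟩
    · have hl : l ≠ 0 := right_ne_zero_of_mul hm
      obtain ⟨p, hp, hpl, hpv⟩ := ih l (by
        have := hq.two_le
        have hl1 : 0 < l := Nat.pos_of_ne_zero hl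
        nlinarith) hl h1
      exact ⟨p, hp, hpl.mul_left _, hpv⟩

theorem norm_ne (v : HeightOneSpectrum (𝓞 K)) : Ideal.absNorm v.asIdeal ≠ 0 := fun h =>
  v.ne_bot (Ideal.absNorm_eq_zero_iff.1 h)

theorem exists_below (v : HeightOneSpectrum (𝓞 K)) :
    ∃ p : ℕ, p.Prime ∧ p ≤ Ideal.absNorm v.asIdeal ∧ ((p : ℕ) : 𝓞 K) ∈ v.asIdeal := by
  obtain ⟨p, hp, hpv, h⟩ := exists_prime_mem v _ (norm_ne v) (Ideal.absNorm_mem v.asIdeal)
  exact ⟨p, hp, Nat.le_of_dvd (Nat.pos_of_ne_zero (norm_ne v)) hpv, h⟩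

/-- the rational prime below `v` -/
noncomputable def pv (v : HeightOneSpectrum (𝓞 K)) : ℕ := (exists_below v).choose

theorem pv_prime (v : HeightOneSpectrum (𝓞 K)) : (pv v).Prime := (exists_below v).choose_spec.1

theorem pv_le (v : HeightOneSpectrum (𝓞 K)) : pv v ≤ Ideal.absNorm v.asIdeal :=
  (exists_below v).choose_spec.2.1

theorem pv_mem (v : HeightOneSpectrum (𝓞 K)) : ((pv v : ℕ) : 𝓞 K) ∈ v.asIdeal :=
  (exists_below v).choose_spec.2.2

/-- the product of the norms of distinct primes above `p` divides `p ^ n` -/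
theorem prod_dvd (p : ℕ) (S : Finset (HeightOneSpectrum (𝓞 K)))
    (hS : ∀ v ∈ S, ((p : ℕ) : 𝓞 K) ∈ v.asIdeal) :
    ∏ v ∈ S, Ideal.absNorm v.asIdeal ∣ p ^ Module.finrank ℤ (𝓞 K) := by
  classical
  have hinj : Function.Injective fun v : HeightOneSpectrum (𝓞 K) => v.asIdeal :=
    fun v w h => HeightOneSpectrum.ext h
  have h1 : ∏ I ∈ S.map ⟨_, hinj⟩, I ∣ Ideal.span {((p : ℕ) : 𝓞 K)} := by
    refine Finset.prod_primes_dvd _ ?_ ?_
    · intro I hI
      obtain ⟨v, _, rfl⟩ := Finset.mem_map.1 hI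
      exact v.prime
    · intro I hI
      obtain ⟨v, hv, rfl⟩ := Finset.mem_map.1 hI
      exact Ideal.dvd_iff_le.2 ((Ideal.span_singleton_le_iff_mem _).2 (hS v hv))
  rw [Finset.prod_map] at h1
  have h2 := map_dvd (Ideal.absNorm (S := 𝓞 K)) h1
  rw [map_prod, Ideal.absNorm_span_natCast] at h2
  exact h2

theorem sum_fib (p : ℕ) (hp : p.Prime) (S : Finset (HeightOneSpectrum (𝓞 K)))
    (hS : ∀ v ∈ S, ((p : ℕ) : 𝓞 K) ∈ v.asIdeal) :
    ∑ v ∈ S, Real.log (nm v) ≤ Module.finrank ℤ (𝓞 K) * Real.log p := by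
  have h1 := Nat.le_of_dvd (pow_pos hp.pos _) (prod_dvd p S hS)
  have h2 : (∏ v ∈ S, nm v) ≤ (p : ℝ) ^ Module.finrank ℤ (𝓞 K) := by
    unfold nm
    exact_mod_cast h1
  have h3 : ∀ v ∈ S, nm v ≠ 0 := fun v _ => by
    have := two_le_nm v
    linarith
  rw [← Real.log_prod h3, ← Real.log_pow]
  refine Real.log_le_log (Finset.prod_pos fun v _ => ?_) h2
  have := two_le_nm v
  linarith

theorem card_fib (p : ℕ) (hp : p.Prime) (S : Finset (HeightOneSpectrum (𝓞 K)))
    (hS : ∀ v ∈ S, ((p : ℕ) : 𝓞 K) ∈ v.asIdeal) (hS' : ∀ v ∈ S, p ≤ Ideal.absNorm v.asIdeal) :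
    S.card ≤ Module.finrank ℤ (𝓞 K) := by
  have h1 := Nat.le_of_dvd (pow_pos hp.pos _) (prod_dvd p S hS)
  have h2 : p ^ S.card ≤ ∏ v ∈ S, Ideal.absNorm v.asIdeal := Finset.pow_card_le_prod S _ p hS'
  exact (Nat.pow_le_pow_iff_right hp.one_lt).1 (h2.trans h1)

theorem pv_mem_primes {x : ℝ} {v : HeightOneSpectrum (𝓞 K)} (hv : v ∈ up K x) :
    pv v ∈ Nat.primesLE ⌊x⌋₊ := by
  rw [Nat.mem_primesLE]
  refine ⟨?_, pv_prime v⟩
  refine Nat.le_floor ?_
  have h1 : ((pv v : ℕ) : ℝ) ≤ nm v := by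
    unfold nm
    exact_mod_cast pv_le v
  exact h1.trans (mem_up.1 hv)

theorem up_empty {x : ℝ} (hx : x < 2) : up K x = ∅ := by
  rw [Finset.eq_empty_iff_forall_notMem]
  intro v hv
  have h1 := mem_up.1 hv
  have h2 := two_le_nm v
  linarith

theorem up_mono {x y : ℝ} (h : x ≤ y) : up K x ⊆ up K y := fun _ hv =>
  mem_up.2 ((mem_up.1 hv).trans h)

theorem log_nonneg (v : HeightOneSpectrum (𝓞 K)) : 0 ≤ Real.log (nm v) :=
  Real.log_nonneg (by have := two_le_nm v; linarith)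

end ChvA

open ChvA

theorem theta_up (K : Type*) [Field K] [NumberField K] : ∃ C : ℝ, 0 < C ∧ ∀ x : ℝ, 1 ≤ x →
    ∑ v ∈ up K x, Real.log (nm v) ≤ C * x := by
  classical
  have hn : 0 < Module.finrank ℤ (𝓞 K) := Module.finrank_pos
  have hn' : (0 : ℝ) < Module.finrank ℤ (𝓞 K) := by exact_mod_cast hn
  refine ⟨Module.finrank ℤ (𝓞 K) * Real.log 4, mul_pos hn' (Real.log_pos (by norm_num)),
    fun x hx => ?_⟩
  rw [← Finset.sum_fiberwise_of_maps_to (s := up K x) (t := Nat.primesLE ⌊x⌋₊) (g := pv)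
    fun v hv => pv_mem_primes hv]
  calc ∑ p ∈ Nat.primesLE ⌊x⌋₊, ∑ v ∈ (up K x).filter (fun v => pv v = p), Real.log (nm v)
      ≤ ∑ p ∈ Nat.primesLE ⌊x⌋₊, (Module.finrank ℤ (𝓞 K) : ℝ) * Real.log p := by
        refine Finset.sum_le_sum fun p hp => ?_
        refine sum_fib p (Nat.mem_primesLE.1 hp).2 _ fun v hv => ?_
        rw [← (Finset.mem_filter.1 hv).2]
        exact pv_mem v
    _ = Module.finrank ℤ (𝓞 K) * Chebyshev.theta x := by
        rw [← Finset.mul_sum, Chebyshev.theta_eq_sum_primesLE]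
    _ ≤ Module.finrank ℤ (𝓞 K) * (Real.log 4 * x) :=
        mul_le_mul_of_nonneg_left (Chebyshev.theta_le_log4_mul_x (by linarith)) hn'.le
    _ = _ := by ring

theorem pi_up (K : Type*) [Field K] [NumberField K] : ∃ C : ℝ, 0 < C ∧ ∀ x : ℝ, 2 ≤ x →
    ((up K x).card : ℝ) ≤ C * (x / Real.log x) := by
  classical
  have hn : 0 < Module.finrank ℤ (𝓞 K) := Module.finrank_pos
  have hn' : (0 : ℝ) < Module.finrank ℤ (𝓞 K) := by exact_mod_cast hn
  have hl4 : 0 < Real.log 4 := Real.log_pos (by norm_num)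
  refine ⟨Module.finrank ℤ (𝓞 K) * (2 * Real.log 4 + 2), by positivity, fun x hx => ?_⟩
  have h1 : (up K x).card ≤ Module.finrank ℤ (𝓞 K) * (Nat.primesLE ⌊x⌋₊).card := by
    rw [Finset.card_eq_sum_card_fiberwise (s := up K x) (t := Nat.primesLE ⌊x⌋₊) (f := pv)
      (fun v hv => pv_mem_primes hv), mul_comm, ← smul_eq_mul, ← Finset.sum_const]
    refine Finset.sum_le_sum fun p hp => ?_
    refine card_fib p (Nat.mem_primesLE.1 hp).2 _ (fun v hv => ?_) fun v hv => ?_
    · rw [← (Finset.mem_filter.1 hv).2]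
      exact pv_mem v
    · rw [← (Finset.mem_filter.1 hv).2]
      exact pv_le v
  have h2 := Chebyshev.pi_le_log4_mul_div (x := x) (by linarith)
  rw [← Nat.primesLE_card_eq_primeCounting] at h2
  have hlx : 0 < Real.log x := Real.log_pos (by linarith)
  have h3 : Real.log √x = Real.log x / 2 := Real.log_sqrt (by linarith)
  have hsq : 0 < √x := Real.sqrt_pos.2 (by linarith)
  have h4 : Real.log x ≤ 2 * √x := by
    have := Real.log_le_sub_one_of_pos hsq
    rw [h3] at this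
    linarith
  have h5 : √x ≤ 2 * (x / Real.log x) := by
    rw [← mul_div_assoc, le_div_iff₀ hlx]
    calc √x * Real.log x ≤ √x * (2 * √x) := mul_le_mul_of_nonneg_left h4 hsq.le
      _ = 2 * (√x * √x) := by ring
      _ = 2 * x := by rw [Real.mul_self_sqrt (by linarith)]
  have h6 : Real.log 4 * x / Real.log √x = 2 * Real.log 4 * (x / Real.log x) := by
    rw [h3]
    field_simp
  rw [h6] at h2
  calc ((up K x).card : ℝ) ≤ Module.finrank ℤ (𝓞 K) * (Nat.primesLE ⌊x⌋₊).card := by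
        exact_mod_cast h1
    _ ≤ Module.finrank ℤ (𝓞 K) * ((2 * Real.log 4 + 2) * (x / Real.log x)) := by
        refine mul_le_mul_of_nonneg_left ?_ hn'.le
        linarith
    _ = _ := by ring

theorem pow_up (K : Type*) [Field K] [NumberField K] (n : ℕ) (hn : 1 ≤ n) :
    ∃ C : ℝ, 0 < C ∧ ∀ x : ℝ, 1 ≤ x →
      ∑ v ∈ up K x, Real.log (nm v) / nm v * (nm v) ^ ((n : ℝ)⁻¹) ≤ C * x ^ ((n : ℝ)⁻¹) := by
  classical
  obtain ⟨C, hC, h⟩ := theta_up K
  obtain ⟨α, hα⟩ : ∃ α : ℝ, α = (n : ℝ)⁻¹ := ⟨_, rfl⟩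
  have hn0 : (0 : ℝ) < n := by exact_mod_cast hn
  have hα0 : 0 < α := hα ▸ inv_pos.2 hn0
  have hα1 : α ≤ 1 := hα ▸ inv_le_one_of_one_le₀ (by exact_mod_cast hn)
  rw [← hα]
  obtain ⟨ρ, hρ⟩ : ∃ ρ : ℝ, ρ = (2 : ℝ) ^ (-α) := ⟨_, rfl⟩
  have hρ0 : 0 < ρ := hρ ▸ Real.rpow_pos_of_pos (by norm_num) _
  have hρ1 : ρ < 1 := hρ ▸ Real.rpow_lt_one_of_one_lt_of_neg (by norm_num) (by linarith)
  obtain ⟨A, hA⟩ : ∃ A : ℝ, A = 2 * C / (1 - ρ) := ⟨_, rfl⟩
  have hA0 : 0 < A := hA ▸ div_pos (by positivity) (by linarith)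
  have hAρ : A * (1 - ρ) = 2 * C := by
    rw [hA]
    exact div_mul_cancel₀ _ (by linarith)
  refine ⟨A, hA0, fun x hx => ?_⟩
  obtain ⟨m, hm⟩ := pow_unbounded_of_one_lt x (show (1 : ℝ) < 2 by norm_num)
  induction m generalizing x with
  | zero =>
    rw [pow_zero] at hm
    linarith
  | succ m ih =>
    by_cases hx2 : x < 2
    · rw [up_empty hx2, Finset.sum_empty]
      positivity
    push Not at hx2
    have hxh : 1 ≤ x / 2 := by linarith
    have h1 := ih (x / 2) hxh (by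
      rw [pow_succ] at hm
      linarith)
    rw [← Finset.sum_filter_add_sum_filter_not (up K x) (fun v => nm v ≤ x / 2)]
    have h2 : (up K x).filter (fun v => nm v ≤ x / 2) = up K (x / 2) := by
      ext v
      rw [Finset.mem_filter, mem_up, mem_up]
      constructor
      · exact fun h => h.2
      · exact fun h => ⟨by linarith, h⟩
    rw [h2]
    have h3 : ∑ v ∈ (up K x).filter (fun v => ¬ nm v ≤ x / 2),
        Real.log (nm v) / nm v * (nm v) ^ α ≤ (x / 2) ^ (α - 1) * (C * x) := by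
      calc ∑ v ∈ (up K x).filter (fun v => ¬ nm v ≤ x / 2),
            Real.log (nm v) / nm v * (nm v) ^ α
          ≤ ∑ v ∈ (up K x).filter (fun v => ¬ nm v ≤ x / 2),
            (x / 2) ^ (α - 1) * Real.log (nm v) := by
            refine Finset.sum_le_sum fun v hv => ?_
            have h4 : x / 2 < nm v := not_le.1 (Finset.mem_filter.1 hv).2
            have h5 : 0 < nm v := by linarith
            have h6 : Real.log (nm v) / nm v * (nm v) ^ α =
                (nm v) ^ (α - 1) * Real.log (nm v) := by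
              rw [Real.rpow_sub_one h5.ne']
              field_simp
            rw [h6]
            exact mul_le_mul_of_nonneg_right
              (Real.rpow_le_rpow_of_nonpos (by linarith) h4.le (by linarith)) (log_nonneg v)
        _ = (x / 2) ^ (α - 1) * ∑ v ∈ (up K x).filter (fun v => ¬ nm v ≤ x / 2),
            Real.log (nm v) := by rw [Finset.mul_sum]
        _ ≤ (x / 2) ^ (α - 1) * ∑ v ∈ up K x, Real.log (nm v) := by
            refine mul_le_mul_of_nonneg_left ?_ (by positivity)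
            exact Finset.sum_le_sum_of_subset_of_nonneg (Finset.filter_subset _ _)
              fun v _ _ => log_nonneg v
        _ ≤ _ := mul_le_mul_of_nonneg_left (h x hx) (by positivity)
    have hx0 : 0 < x := by linarith
    have h4 : (x / 2) ^ α = ρ * x ^ α := by
      rw [Real.div_rpow hx0.le (by norm_num), hρ, Real.rpow_neg (by norm_num)]
      field_simp
    have h5 : (x / 2) ^ (α - 1) * (C * x) = 2 * C * (ρ * x ^ α) := by
      rw [Real.rpow_sub_one (by positivity), h4]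
      field_simp
    rw [h4] at h1
    rw [h5] at h3
    have hxα : 0 < x ^ α := Real.rpow_pos_of_pos hx0 _
    have h6 : A * (ρ * x ^ α) + 2 * C * (ρ * x ^ α) ≤ A * x ^ α := by
      rw [← hAρ]
      have h7 : A * x ^ α - (A * (ρ * x ^ α) + A * (1 - ρ) * (ρ * x ^ α)) =
          A * x ^ α * (1 - ρ) * (1 - ρ) := by ring
      have h8 : 0 ≤ A * x ^ α * (1 - ρ) * (1 - ρ) :=
        mul_nonneg (mul_nonneg (mul_nonneg hA0.le hxα.le) (by linarith)) (by linarith)
      linarith
    linarith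

theorem sq_up (K : Type*) [Field K] [NumberField K] : ∃ C : ℝ, 0 < C ∧ ∀ x : ℝ,
    ∑ v ∈ up K x, Real.log (nm v) / (nm v * (nm v - 1)) ≤ C := by
  classical
  obtain ⟨C, hC, h⟩ := theta_up K
  have hterm : ∀ v : HeightOneSpectrum (𝓞 K), 0 ≤ Real.log (nm v) / (nm v * (nm v - 1)) := by
    intro v
    have h1 := two_le_nm v
    exact div_nonneg (log_nonneg v) (mul_nonneg (by linarith) (by linarith))
  have key : ∀ m : ℕ, ∑ v ∈ up K (2 ^ m), Real.log (nm v) / (nm v * (nm v - 1)) ≤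
      8 * C - 8 * C / 2 ^ m := by
    intro m
    induction m with
    | zero =>
      rw [pow_zero, up_empty (by norm_num), Finset.sum_empty]
      simp
    | succ m ih =>
      rw [← Finset.sum_filter_add_sum_filter_not (up K (2 ^ (m + 1))) (fun v => nm v ≤ 2 ^ m)]
      have h2 : (up K (2 ^ (m + 1))).filter (fun v => nm v ≤ 2 ^ m) = up K (2 ^ m) := by
        ext v
        rw [Finset.mem_filter, mem_up, mem_up]
        constructor
        · exact fun h => h.2
        · intro h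
          refine ⟨h.trans ?_, h⟩
          exact pow_le_pow_right₀ (by norm_num) (Nat.le_succ m)
      rw [h2]
      have hm0 : (0 : ℝ) < 2 ^ m := by positivity
      have h3 : ∑ v ∈ (up K (2 ^ (m + 1))).filter (fun v => ¬ nm v ≤ 2 ^ m),
          Real.log (nm v) / (nm v * (nm v - 1)) ≤ 2 / (2 ^ m * 2 ^ m) * (C * 2 ^ (m + 1)) := by
        calc ∑ v ∈ (up K (2 ^ (m + 1))).filter (fun v => ¬ nm v ≤ 2 ^ m),
              Real.log (nm v) / (nm v * (nm v - 1))
            ≤ ∑ v ∈ (up K (2 ^ (m + 1))).filter (fun v => ¬ nm v ≤ 2 ^ m),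
              2 / (2 ^ m * 2 ^ m) * Real.log (nm v) := by
              refine Finset.sum_le_sum fun v hv => ?_
              have h4 : 2 ^ m < nm v := not_le.1 (Finset.mem_filter.1 hv).2
              have h5 := two_le_nm v
              have h6 : 2 ^ m * 2 ^ m / 2 ≤ nm v * (nm v - 1) := by nlinarith
              have h7 : (0 : ℝ) < 2 ^ m * 2 ^ m / 2 := by positivity
              calc Real.log (nm v) / (nm v * (nm v - 1))
                  ≤ Real.log (nm v) / (2 ^ m * 2 ^ m / 2) :=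
                    div_le_div_of_nonneg_left (log_nonneg v) h7 h6
                _ = 2 / (2 ^ m * 2 ^ m) * Real.log (nm v) := by field_simp
          _ = 2 / (2 ^ m * 2 ^ m) * ∑ v ∈ (up K (2 ^ (m + 1))).filter
              (fun v => ¬ nm v ≤ 2 ^ m), Real.log (nm v) := by rw [Finset.mul_sum]
          _ ≤ 2 / (2 ^ m * 2 ^ m) * ∑ v ∈ up K (2 ^ (m + 1)), Real.log (nm v) := by
              refine mul_le_mul_of_nonneg_left ?_ (by positivity)
              exact Finset.sum_le_sum_of_subset_of_nonneg (Finset.filter_subset _ _)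
                fun v _ _ => log_nonneg v
          _ ≤ _ := mul_le_mul_of_nonneg_left (h _ (one_le_pow₀ (by norm_num))) (by positivity)
      have h4 : 2 / (2 ^ m * 2 ^ m) * (C * 2 ^ (m + 1)) = 4 * C / 2 ^ m := by
        rw [pow_succ]
        field_simp
        ring
      have h5 : 8 * C / 2 ^ (m + 1) = 4 * C / 2 ^ m := by
        rw [pow_succ]
        field_simp
        ring
      have h6 : 8 * C / 2 ^ m = 4 * C / 2 ^ m + 4 * C / 2 ^ m := by
        field_simp
        ring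
      rw [h4] at h3
      rw [h5]
      linarith
  refine ⟨8 * C, by positivity, fun x => ?_⟩
  obtain ⟨m, hm⟩ := pow_unbounded_of_one_lt x (show (1 : ℝ) < 2 by norm_num)
  calc ∑ v ∈ up K x, Real.log (nm v) / (nm v * (nm v - 1))
      ≤ ∑ v ∈ up K (2 ^ m), Real.log (nm v) / (nm v * (nm v - 1)) :=
        Finset.sum_le_sum_of_subset_of_nonneg (up_mono hm.le) fun v _ _ => hterm v
    _ ≤ 8 * C - 8 * C / 2 ^ m := key m
    _ ≤ 8 * C := by
        have : 0 ≤ 8 * C / 2 ^ m := by positivity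
        linarith

end Pool.Agent.NDE
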