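import Mathlib
import Pool.Agent.NDE.Defs

set_option autoImplicit false

/-!
# The factorization of a principal ideal
-/

namespace Pool.Agent.NDE

open NumberField IsDedekindDomain UniqueFactorizationMonoid

namespace FacA

variable {K : Type*} [Field K] [NumberField K]

theorem log_prod (s : Multiset (Ideal (𝓞 K))) (hs : ∀ P ∈ s, P ≠ ⊥) :
    s.prod ≠ ⊥ ∧ Real.log (Ideal.absNorm s.prod : ℝ) =
      (s.map fun P => Real.log (Ideal.absNorm P : ℝ)).sum := by
  induction s using Multiset.induction_on with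
  | empty =>
    rw [Multiset.prod_zero, Multiset.map_zero, Multiset.sum_zero]
    refine ⟨?_, ?_⟩
    · exact one_ne_zero
    · rw [map_one, Nat.cast_one, Real.log_one]
  | cons P s ih =>
    obtain ⟨h1, h2⟩ := ih fun Q hQ => hs Q (Multiset.mem_cons_of_mem hQ)
    have h3 := hs P (Multiset.mem_cons_self P s)
    rw [Multiset.prod_cons, Multiset.map_cons, Multiset.sum_cons]
    refine ⟨mul_ne_zero h3 h1, ?_⟩
    have h4 : (Ideal.absNorm P : ℝ) ≠ 0 := by
      rw [Nat.cast_ne_zero]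
      exact fun h => h3 (Ideal.absNorm_eq_zero_iff.1 h)
    have h5 : (Ideal.absNorm s.prod : ℝ) ≠ 0 := by
      rw [Nat.cast_ne_zero]
      exact fun h => h1 (Ideal.absNorm_eq_zero_iff.1 h)
    rw [map_mul, Nat.cast_mul, Real.log_mul h4 h5, h2]

theorem prod_eq {I : Ideal (𝓞 K)} (hI : I ≠ ⊥) : (normalizedFactors I).prod = I :=
  associated_iff_eq.1 (prod_normalizedFactors hI)

theorem nm_le {a : 𝓞 K} (ha : a ≠ 0) (v : HeightOneSpectrum (𝓞 K)) (k : ℕ)
    (h : a ∈ v.asIdeal ^ k) : nm v ^ k ≤ (Ideal.absNorm (Ideal.span {a}) : ℝ) := by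
  have h1 : v.asIdeal ^ k ∣ Ideal.span {a} := by
    rw [Ideal.dvd_span_singleton]
    exact h
  have h2 := Ideal.absNorm_dvd_absNorm_of_le (Ideal.dvd_iff_le.1 h1)
  have h3 : Ideal.absNorm (Ideal.span {a}) ≠ 0 := fun h0 => by
    rw [Ideal.absNorm_eq_zero_iff, Ideal.span_singleton_eq_bot] at h0
    exact ha h0
  have h4 := Nat.le_of_dvd (Nat.pos_of_ne_zero h3) h2
  rw [map_pow] at h4
  unfold nm
  exact_mod_cast h4

open Classical in
theorem log_eq {a : 𝓞 K} (ha : a ≠ 0) {y : ℝ}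
    (hy : (Ideal.absNorm (Ideal.span {a}) : ℝ) ≤ y) :
    Real.log (Ideal.absNorm (Ideal.span {a}) : ℝ) =
      ∑ v ∈ (up K y).filter (fun v => a ∈ v.asIdeal),
        ((normalizedFactors (Ideal.span {a})).count v.asIdeal : ℝ) * Real.log (nm v) := by
  have hI : Ideal.span {a} ≠ ⊥ := fun h => ha (Ideal.span_singleton_eq_bot.1 h)
  have h0 : ∀ P ∈ normalizedFactors (Ideal.span {a}), P ≠ ⊥ := fun P hP =>
    (prime_of_normalized_factor P hP).ne_zero
  have h1 := (log_prod _ h0).2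
  rw [prod_eq hI, Finset.sum_multiset_map_count] at h1
  rw [h1]
  symm
  refine Finset.sum_bij (fun v _ => v.asIdeal) ?_ ?_ ?_ ?_
  · intro v hv
    rw [Finset.mem_filter] at hv
    rw [Multiset.mem_toFinset, Ideal.mem_normalizedFactors_iff hI]
    exact ⟨v.isPrime, (Ideal.span_singleton_le_iff_mem _).2 hv.2⟩
  · intro v _ w _ h
    exact HeightOneSpectrum.ext h
  · intro P hP
    have hP0 := h0 P (Multiset.mem_toFinset.1 hP)
    rw [Multiset.mem_toFinset, Ideal.mem_normalizedFactors_iff hI] at hP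
    have h2 : a ∈ P := (Ideal.span_singleton_le_iff_mem _).1 hP.2
    refine ⟨⟨P, hP.1, hP0⟩, ?_, rfl⟩
    rw [Finset.mem_filter, mem_up]
    refine ⟨?_, h2⟩
    have h3 := nm_le ha (⟨P, hP.1, hP0⟩ : HeightOneSpectrum (𝓞 K)) 1 (by rw [pow_one]; exact h2)
    rw [pow_one] at h3
    exact h3.trans hy
  · intro v _
    rw [nsmul_eq_mul]
    rfl

theorem mem_pow {a : 𝓞 K} (ha : a ≠ 0) (v : HeightOneSpectrum (𝓞 K)) (k : ℕ)
    [DecidableEq (Ideal (𝓞 K))]
    (hk : k ≤ (normalizedFactors (Ideal.span {a})).count v.asIdeal) : a ∈ v.asIdeal ^ k := by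
  have hI : Ideal.span {a} ≠ ⊥ := fun h => ha (Ideal.span_singleton_eq_bot.1 h)
  rw [Multiset.le_count_iff_replicate_le] at hk
  have h1 := Multiset.prod_dvd_prod_of_le hk
  rw [Multiset.prod_replicate, prod_eq hI, Ideal.dvd_span_singleton] at h1
  exact h1

theorem log_nm_nonneg (v : HeightOneSpectrum (𝓞 K)) : 0 ≤ Real.log (nm v) :=
  Real.log_nonneg (by linarith [two_le_nm v])

end FacA

open FacA

open Classical in
theorem log_norm_ge {K : Type*} [Field K] [NumberField K] (a : 𝓞 K) (ha : a ≠ 0) (x : ℝ) :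
    ∑ v ∈ (up K x).filter (fun v => a ∈ v.asIdeal), Real.log (nm v) ≤
      Real.log (Ideal.absNorm (Ideal.span {a}) : ℝ) := by
  have hI : Ideal.span {a} ≠ ⊥ := fun h => ha (Ideal.span_singleton_eq_bot.1 h)
  rw [log_eq ha (le_max_right x _)]
  refine (Finset.sum_le_sum_of_subset_of_nonneg (t := (up K (max x _)).filter
    (fun v => a ∈ v.asIdeal)) ?_ fun v _ _ => log_nm_nonneg v).trans
    (Finset.sum_le_sum fun v hv => ?_)
  · intro v hv
    rw [Finset.mem_filter, mem_up] at hv ⊢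
    exact ⟨hv.1.trans (le_max_left _ _), hv.2⟩
  · have h1 : 1 ≤ (normalizedFactors (Ideal.span {a})).count v.asIdeal := by
      rw [Multiset.one_le_count_iff_mem, Ideal.mem_normalizedFactors_iff hI]
      exact ⟨v.isPrime, (Ideal.span_singleton_le_iff_mem _).2 (Finset.mem_filter.1 hv).2⟩
    have h2 : (1 : ℝ) ≤ ((normalizedFactors (Ideal.span {a})).count v.asIdeal : ℝ) := by
      exact_mod_cast h1
    exact le_mul_of_one_le_left (log_nm_nonneg v) h2

open Classical in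
theorem log_norm_le {K : Type*} [Field K] [NumberField K] (a : 𝓞 K) (ha : a ≠ 0) (y : ℝ)
    (hy : (Ideal.absNorm (Ideal.span {a}) : ℝ) ≤ y) (T : ℕ) (hT : y < 2 ^ T) :
    Real.log (Ideal.absNorm (Ideal.span {a}) : ℝ) ≤
      ∑ v ∈ up K y, ∑ k ∈ (Finset.Icc 1 T).filter (fun k => nm v ^ k ≤ y),
        if a ∈ v.asIdeal ^ k then Real.log (nm v) else 0 := by
  rw [log_eq ha hy]
  have h0 : ∀ v : HeightOneSpectrum (𝓞 K), ∀ k : ℕ,
      (0 : ℝ) ≤ if a ∈ v.asIdeal ^ k then Real.log (nm v) else 0 := by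
    intro v k
    split_ifs
    · exact log_nm_nonneg v
    · exact le_rfl
  refine (Finset.sum_le_sum (g := fun v => ∑ k ∈ (Finset.Icc 1 T).filter (fun k => nm v ^ k ≤ y),
    if a ∈ v.asIdeal ^ k then Real.log (nm v) else 0) fun v _ => ?_).trans
    (Finset.sum_le_sum_of_subset_of_nonneg (Finset.filter_subset _ _) fun v _ _ =>
      Finset.sum_nonneg fun k _ => h0 v k)
  set m := (normalizedFactors (Ideal.span {a})).count v.asIdeal with hm
  have h1 : ∀ k ≤ m, a ∈ v.asIdeal ^ k := fun k hk => mem_pow ha v k hk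
  have h2 : ∀ k ≤ m, nm v ^ k ≤ y := fun k hk => (nm_le ha v k (h1 k hk)).trans hy
  have h3 : ∀ k ≤ m, k ≤ T := by
    intro k hk
    have h4 : (2 : ℝ) ^ k ≤ nm v ^ k := pow_le_pow_left₀ (by norm_num) (two_le_nm v) k
    have h5 : (2 : ℝ) ^ k < 2 ^ T := (h4.trans (h2 k hk)).trans_lt hT
    exact ((pow_lt_pow_iff_right₀ (by norm_num : (1 : ℝ) < 2)).1 h5).le
  have h6 : Finset.Icc 1 m ⊆ (Finset.Icc 1 T).filter (fun k => nm v ^ k ≤ y) := by
    intro k hk
    rw [Finset.mem_Icc] at hk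
    rw [Finset.mem_filter, Finset.mem_Icc]
    exact ⟨⟨hk.1, h3 k hk.2⟩, h2 k hk.2⟩
  calc (m : ℝ) * Real.log (nm v) = ∑ _k ∈ Finset.Icc 1 m, Real.log (nm v) := by
        rw [Finset.sum_const, Nat.card_Icc, nsmul_eq_mul, Nat.add_sub_cancel]
    _ = ∑ k ∈ Finset.Icc 1 m, if a ∈ v.asIdeal ^ k then Real.log (nm v) else 0 := by
        refine Finset.sum_congr rfl fun k hk => ?_
        rw [if_pos (h1 k (Finset.mem_Icc.1 hk).2)]
    _ ≤ _ := Finset.sum_le_sum_of_subset_of_nonneg h6 fun k _ _ => h0 v k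

end Pool.Agent.NDE
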