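import Mathlib
import Pool.Agent.NDE.Defs

set_option autoImplicit false

/-!
# Elements of an ideal in a box
-/

namespace Pool.Agent.NDE

open NumberField IsDedekindDomain
open Pool.Agent.FAM (Cube)

section Lat

variable {K : Type*} [Field K] [NumberField K] {n : ℕ} (ω : Module.Basis (Fin n) ℤ (𝓞 K))

omit [NumberField K] in
theorem lat_el (s : Fin n → ℤ) : el ω s = ω.equivFun.symm s := by
  rw [Module.Basis.equivFun_symm_apply]
  rfl

omit [NumberField K] in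
theorem lat_coord (s : Fin n → ℤ) : ω.equivFun (el ω s) = s := by
  rw [lat_el, LinearEquiv.apply_symm_apply]

omit [NumberField K] in
theorem lat_self (b : 𝓞 K) : el ω (ω.equivFun b) = b := by
  rw [lat_el, LinearEquiv.symm_apply_apply]

omit [NumberField K] in
theorem lat_add (s t : Fin n → ℤ) : el ω (s + t) = el ω s + el ω t := by
  rw [lat_el, lat_el, lat_el, map_add]

omit [NumberField K] in
theorem lat_sub (s t : Fin n → ℤ) : el ω (s - t) = el ω s - el ω t := by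
  rw [lat_el, lat_el, lat_el, map_sub]

include ω in
theorem lat_ne : n ≠ 0 := by
  rintro rfl
  have : Subsingleton (𝓞 K) := ω.equivFun.toEquiv.subsingleton
  exact one_ne_zero (Subsingleton.elim (1 : 𝓞 K) 0)

omit [NumberField K] in
/-- the coordinates of a product -/
theorem lat_mul : ∃ C : ℕ, 1 ≤ C ∧ ∀ (s t : Fin n → ℤ) (A B : ℕ), (∀ i, |s i| ≤ A) →
    (∀ i, |t i| ≤ B) → ∀ i, |ω.equivFun (el ω s * el ω t) i| ≤ C * A * B := by
  refine ⟨1 + ∑ i, ∑ j, ∑ l, (ω.equivFun (ω j * ω l) i).natAbs, Nat.le_add_right _ _, ?_⟩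
  intro s t A B hs ht i
  have h1 : ω.equivFun (el ω s * el ω t) i =
      ∑ j, ∑ l, s j * t l * ω.equivFun (ω j * ω l) i := by
    unfold el
    rw [Finset.sum_mul_sum, map_sum, Finset.sum_apply]
    refine Finset.sum_congr rfl fun j _ => ?_
    rw [map_sum, Finset.sum_apply]
    refine Finset.sum_congr rfl fun l _ => ?_
    rw [smul_mul_smul_comm, map_smul, Pi.smul_apply, smul_eq_mul]
  have h2 : |ω.equivFun (el ω s * el ω t) i| ≤
      ∑ j, ∑ l, (A : ℤ) * B * ((ω.equivFun (ω j * ω l) i).natAbs : ℤ) := by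
    rw [h1]
    refine (Finset.abs_sum_le_sum_abs _ _).trans (Finset.sum_le_sum fun j _ => ?_)
    refine (Finset.abs_sum_le_sum_abs _ _).trans (Finset.sum_le_sum fun l _ => ?_)
    rw [abs_mul, abs_mul, Int.natCast_natAbs]
    refine mul_le_mul_of_nonneg_right ?_ (abs_nonneg _)
    exact mul_le_mul (hs j) (ht l) (abs_nonneg _) (Int.natCast_nonneg A)
  have h3 : ∑ j, ∑ l, (A : ℤ) * B * ((ω.equivFun (ω j * ω l) i).natAbs : ℤ) =
      (A : ℤ) * B * ((∑ j, ∑ l, (ω.equivFun (ω j * ω l) i).natAbs : ℕ) : ℤ) := by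
    push_cast
    rw [Finset.mul_sum]
    refine Finset.sum_congr rfl fun j _ => ?_
    rw [Finset.mul_sum]
  have h4 : (∑ j, ∑ l, (ω.equivFun (ω j * ω l) i).natAbs : ℕ) ≤
      1 + ∑ i, ∑ j, ∑ l, (ω.equivFun (ω j * ω l) i).natAbs := by
    have := Finset.single_le_sum (f := fun i => ∑ j, ∑ l, (ω.equivFun (ω j * ω l) i).natAbs)
      (fun _ _ => Nat.zero_le _) (Finset.mem_univ i)
    omega
  have h5 : ((∑ j, ∑ l, (ω.equivFun (ω j * ω l) i).natAbs : ℕ) : ℤ) ≤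
      ((1 + ∑ i, ∑ j, ∑ l, (ω.equivFun (ω j * ω l) i).natAbs : ℕ) : ℤ) := by
    exact_mod_cast h4
  refine h2.trans ?_
  rw [h3]
  have h6 : (0 : ℤ) ≤ (A : ℤ) * B := by positivity
  calc (A : ℤ) * B * ((∑ j, ∑ l, (ω.equivFun (ω j * ω l) i).natAbs : ℕ) : ℤ) ≤
      (A : ℤ) * B * ((1 + ∑ i, ∑ j, ∑ l, (ω.equivFun (ω j * ω l) i).natAbs : ℕ) : ℤ) :=
        mul_le_mul_of_nonneg_left h5 h6
    _ = _ := by ring

theorem lat_card (I : Ideal (𝓞 K)) [Fintype (𝓞 K ⧸ I)] :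
    Fintype.card (𝓞 K ⧸ I) = Ideal.absNorm I := by
  rw [← Nat.card_eq_fintype_card, Ideal.absNorm_apply, Submodule.cardQuot_apply]

/-- a small element of an ideal (pigeonhole) -/
theorem lat_small {I : Ideal (𝓞 K)} (hI : I ≠ ⊥) {m : ℕ} (hm : Ideal.absNorm I < (m + 1) ^ n) :
    ∃ a ∈ I, a ≠ 0 ∧ ∀ i, |ω.equivFun a i| ≤ m := by
  classical
  have : Finite (𝓞 K ⧸ I) := Ideal.finiteQuotientOfFreeOfNeBot I hI
  have := Fintype.ofFinite (𝓞 K ⧸ I)
  have hc : Fintype.card (𝓞 K ⧸ I) < Fintype.card (Fin n → Fin (m + 1)) := by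
    rw [Fintype.card_fun, Fintype.card_fin, Fintype.card_fin, lat_card]
    exact hm
  obtain ⟨x, y, hxy, h⟩ := Fintype.exists_ne_map_eq_of_card_lt
    (fun s : Fin n → Fin (m + 1) => Ideal.Quotient.mk I (el ω (fun i => ((s i : ℕ) : ℤ)))) hc
  refine ⟨el ω (fun i => ((x i : ℕ) : ℤ)) - el ω (fun i => ((y i : ℕ) : ℤ)),
    Ideal.Quotient.eq.1 h, ?_, ?_⟩
  · intro h0
    have h2 := congrArg ω.equivFun (sub_eq_zero.1 h0)
    rw [lat_coord, lat_coord] at h2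
    refine hxy (funext fun i => Fin.ext ?_)
    exact_mod_cast congrFun h2 i
  · intro i
    rw [map_sub, lat_coord, lat_coord, Pi.sub_apply, abs_le]
    have h1 := (x i).2
    have h2 := (y i).2
    constructor <;> omega

/-- small representatives of the residue classes -/
theorem lat_rep : ∃ C : ℕ, 1 ≤ C ∧ ∀ (I : Ideal (𝓞 K)), I ≠ ⊥ → ∀ m : ℕ,
    Ideal.absNorm I < (m + 1) ^ n → ∀ b : 𝓞 K, ∃ r : Fin n → ℤ,
      b - el ω r ∈ I ∧ ∀ i, |r i| ≤ ((C * m : ℕ) : ℤ) := by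
  obtain ⟨C, hC, hmul⟩ := lat_mul ω
  refine ⟨C, hC, fun I hI m hm b => ?_⟩
  obtain ⟨a, haI, ha, has⟩ := lat_small ω hI hm
  obtain ⟨M, hM⟩ : ∃ M : ℕ, M = Ideal.absNorm (Ideal.span {a}) := ⟨_, rfl⟩
  have hM0 : 0 < M := by
    rw [hM, Nat.pos_iff_ne_zero, Ne, Ideal.absNorm_eq_zero_iff, Ideal.span_singleton_eq_bot]
    exact ha
  have hMa : a ∣ (M : 𝓞 K) := by
    rw [hM]
    exact Ideal.mem_span_singleton.1 (Ideal.absNorm_mem _)
  obtain ⟨a', ha'⟩ := hMa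
  obtain ⟨μ, hμ⟩ : ∃ μ : Fin n → ℤ, μ = ω.equivFun (b * a') := ⟨_, rfl⟩
  have hμ2 : b * a' = el ω μ := by rw [hμ, lat_self]
  obtain ⟨q, hq⟩ : ∃ q : 𝓞 K, q = el ω (fun j => μ j / M) := ⟨_, rfl⟩
  obtain ⟨ρ, hρ⟩ : ∃ ρ : Fin n → ℤ, ρ = fun j => μ j % M := ⟨_, rfl⟩
  have h1 : b * a' = M * q + el ω ρ := by
    rw [hμ2, hq, hρ]
    have e : (M : 𝓞 K) * el ω (fun j => μ j / M) = el ω (fun j => M * (μ j / M)) := by
      unfold el
      rw [Finset.mul_sum]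
      refine Finset.sum_congr rfl fun j _ => ?_
      rw [zsmul_eq_mul, zsmul_eq_mul]
      push_cast
      ring
    rw [e, ← lat_add]
    congr 1
    funext j
    exact (Int.mul_ediv_add_emod (μ j) M).symm
  have h2 : (M : 𝓞 K) * (b - a * q) = a * el ω ρ := by
    have e : (M : 𝓞 K) * b = a * (b * a') := by rw [ha']; ring
    rw [mul_sub, e, h1]
    ring
  refine ⟨ω.equivFun (b - a * q), ?_, fun i => ?_⟩
  · rw [lat_self, sub_sub_cancel]
    exact Ideal.mul_mem_right _ _ haI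
  · have h3 : (M : ℤ) * ω.equivFun (b - a * q) i = ω.equivFun (a * el ω ρ) i := by
      have e : (M : 𝓞 K) * (b - a * q) = (M : ℤ) • (b - a * q) := by
        rw [zsmul_eq_mul, Int.cast_natCast]
      rw [← h2, e, map_smul, Pi.smul_apply, smul_eq_mul]
    have h4 := hmul (ω.equivFun a) ρ m M has (fun j => by
      rw [hρ, abs_of_nonneg (Int.emod_nonneg _ (by exact_mod_cast hM0.ne'))]
      exact (Int.emod_lt_of_pos _ (by exact_mod_cast hM0)).le) i
    rw [lat_self, ← h3, abs_mul, Nat.abs_cast] at h4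
    have h5 : (0 : ℤ) < M := by exact_mod_cast hM0
    refine le_of_mul_le_mul_left ?_ h5
    push_cast
    calc (M : ℤ) * |ω.equivFun (b - a * q) i| ≤ C * m * M := h4
      _ = M * (C * m) := by ring

theorem lat_upper {I : Ideal (𝓞 K)} (hI : I ≠ ⊥) {E : ℕ}
    (hE : ∀ b : 𝓞 K, ∃ r : Fin n → ℤ, b - el ω r ∈ I ∧ ∀ i, |r i| ≤ E) (X : ℕ) :
    Ideal.absNorm I * ct ω X I ≤ (2 * (X + E) + 1) ^ n := by
  classical
  have : Finite (𝓞 K ⧸ I) := Ideal.finiteQuotientOfFreeOfNeBot I hI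
  have := Fintype.ofFinite (𝓞 K ⧸ I)
  choose r hr1 hr2 using fun q : 𝓞 K ⧸ I => hE (Quotient.out q)
  have hr : ∀ q : 𝓞 K ⧸ I, Ideal.Quotient.mk I (el ω (r q)) = q := by
    intro q
    have h1 := Ideal.Quotient.eq.2 (hr1 q)
    rw [← h1]
    exact Quotient.out_eq' q
  have h1 : ct ω X I = ((Cube n X).filter fun s => el ω s ∈ I).card := by
    unfold ct
    congr
  rw [← lat_card, ← FAM.card_Cube n (X + E), h1, ← Finset.card_univ, ← Finset.card_product]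
  refine Finset.card_le_card_of_injOn (fun p : (𝓞 K ⧸ I) × (Fin n → ℤ) => p.2 + r p.1) ?_ ?_
  · rintro ⟨q, s⟩ hp
    have h2 := (Finset.mem_filter.1 (Finset.mem_product.1 (Finset.mem_coe.1 hp)).2).1
    rw [Finset.mem_coe, FAM.mem_Cube]
    intro i
    have h3 := (FAM.mem_Cube.1 h2) i
    have h4 := hr2 q i
    simp only [Pi.add_apply]
    push_cast
    exact (abs_add_le _ _).trans (add_le_add h3 h4)
  · rintro ⟨q, s⟩ hp ⟨q', s'⟩ hp' h
    have h2 := (Finset.mem_filter.1 (Finset.mem_product.1 (Finset.mem_coe.1 hp)).2).2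
    have h2' := (Finset.mem_filter.1 (Finset.mem_product.1 (Finset.mem_coe.1 hp')).2).2
    simp only at h h2 h2'
    have h3 : Ideal.Quotient.mk I (el ω (s + r q)) = q := by
      rw [lat_add, map_add, hr, Ideal.Quotient.eq_zero_iff_mem.2 h2, zero_add]
    have h3' : Ideal.Quotient.mk I (el ω (s' + r q')) = q' := by
      rw [lat_add, map_add, hr, Ideal.Quotient.eq_zero_iff_mem.2 h2', zero_add]
    rw [h, h3'] at h3
    subst h3
    have h4 : s = s' := add_right_cancel h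
    rw [h4]

theorem lat_lower {I : Ideal (𝓞 K)} (hI : I ≠ ⊥) {E : ℕ}
    (hE : ∀ b : 𝓞 K, ∃ r : Fin n → ℤ, b - el ω r ∈ I ∧ ∀ i, |r i| ≤ E) {X : ℕ} (hX : E ≤ X) :
    (2 * (X - E) + 1) ^ n ≤ Ideal.absNorm I * ct ω X I := by
  classical
  have : Finite (𝓞 K ⧸ I) := Ideal.finiteQuotientOfFreeOfNeBot I hI
  have := Fintype.ofFinite (𝓞 K ⧸ I)
  choose r hr1 hr2 using fun q : 𝓞 K ⧸ I => hE (Quotient.out q)
  have hr : ∀ q : 𝓞 K ⧸ I, Ideal.Quotient.mk I (el ω (r q)) = q := by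
    intro q
    have h1 := Ideal.Quotient.eq.2 (hr1 q)
    rw [← h1]
    exact Quotient.out_eq' q
  have h1 : ct ω X I = ((Cube n X).filter fun s => el ω s ∈ I).card := by
    unfold ct
    congr
  rw [← lat_card, ← FAM.card_Cube n (X - E), h1, ← Finset.card_univ, ← Finset.card_product]
  refine Finset.card_le_card_of_injOn (fun s : Fin n → ℤ =>
    (Ideal.Quotient.mk I (el ω s), s - r (Ideal.Quotient.mk I (el ω s)))) ?_ ?_
  · intro s hs
    rw [Finset.mem_coe, FAM.mem_Cube] at hs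
    rw [Finset.mem_coe, Finset.mem_product, Finset.mem_filter, FAM.mem_Cube]
    refine ⟨Finset.mem_univ _, fun i => ?_, ?_⟩
    · have h3 := hs i
      have h4 := hr2 (Ideal.Quotient.mk I (el ω s)) i
      simp only [Pi.sub_apply]
      rw [Nat.cast_sub hX] at h3
      have h5 := abs_sub (s i) (r (Ideal.Quotient.mk I (el ω s)) i)
      linarith
    · rw [← Ideal.Quotient.eq_zero_iff_mem]
      simp only
      rw [lat_sub, map_sub, hr, sub_self]
  · intro s _ s' _ h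
    simp only [Prod.mk.injEq] at h
    obtain ⟨h2, h3⟩ := h
    rw [h2] at h3
    exact sub_left_injective h3

end Lat

theorem box {K : Type*} [Field K] [NumberField K] {n : ℕ} (ω : Module.Basis (Fin n) ℤ (𝓞 K)) :
    ∃ C : ℝ, 0 < C ∧ ∀ (I : Ideal (𝓞 K)) (X : ℕ), I ≠ ⊥ →
      (Ideal.absNorm I : ℝ) * ct ω X I ≤
        (2 * X + 1 + C * (Ideal.absNorm I : ℝ) ^ ((n : ℝ)⁻¹)) ^ n ∧
      (C * (Ideal.absNorm I : ℝ) ^ ((n : ℝ)⁻¹) ≤ 2 * X + 1 →
        (2 * X + 1 - C * (Ideal.absNorm I : ℝ) ^ ((n : ℝ)⁻¹)) ^ n ≤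
          (Ideal.absNorm I : ℝ) * ct ω X I) := by
  have hn := lat_ne ω
  obtain ⟨C, hC, hrep⟩ := lat_rep ω
  refine ⟨2 * C, by positivity, fun I X hI => ?_⟩
  obtain ⟨t, ht⟩ : ∃ t : ℝ, t = (Ideal.absNorm I : ℝ) ^ ((n : ℝ)⁻¹) := ⟨_, rfl⟩
  rw [← ht]
  have ht0 : 0 ≤ t := by rw [ht]; positivity
  have htn : t ^ n = (Ideal.absNorm I : ℝ) := by
    rw [ht]
    exact Real.rpow_inv_natCast_pow (by positivity) hn
  have hm : Ideal.absNorm I < (⌊t⌋₊ + 1) ^ n := by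
    have h1 : (Ideal.absNorm I : ℝ) < ((⌊t⌋₊ + 1 : ℕ) : ℝ) ^ n := by
      rw [← htn]
      exact pow_lt_pow_left₀ (by push_cast; exact Nat.lt_floor_add_one t) ht0 hn
    exact_mod_cast h1
  have hE := hrep I hI ⌊t⌋₊ hm
  have hmt : ((⌊t⌋₊ : ℕ) : ℝ) ≤ t := Nat.floor_le ht0
  have hEt : ((C * ⌊t⌋₊ : ℕ) : ℝ) ≤ C * t := by
    push_cast
    exact mul_le_mul_of_nonneg_left hmt (by positivity)
  constructor
  · have h1 := lat_upper ω hI hE X
    have h2 : (Ideal.absNorm I : ℝ) * ct ω X I ≤ (2 * (X + ((C * ⌊t⌋₊ : ℕ) : ℝ)) + 1) ^ n := by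
      exact_mod_cast h1
    refine h2.trans (pow_le_pow_left₀ (by positivity) ?_ n)
    linarith
  · intro h0
    have hX : C * ⌊t⌋₊ ≤ X := by
      have h1 : 2 * ((C * ⌊t⌋₊ : ℕ) : ℝ) ≤ 2 * X + 1 := by linarith
      have h2 : 2 * (C * ⌊t⌋₊) ≤ 2 * X + 1 := by exact_mod_cast h1
      omega
    have h1 := lat_lower ω hI hE hX
    have h2 : (2 * ((X : ℝ) - ((C * ⌊t⌋₊ : ℕ) : ℝ)) + 1) ^ n ≤
        (Ideal.absNorm I : ℝ) * ct ω X I := by
      rw [← Nat.cast_sub hX]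
      exact_mod_cast h1
    refine le_trans (pow_le_pow_left₀ ?_ ?_ n) h2
    · linarith
    · linarith

end Pool.Agent.NDE
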