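import Mathlib
import Pool.Agent.NDE.Defs

set_option autoImplicit false

/-!
# NDE/MerA: Mertens' theorem for a number field from the counting inputs
-/

namespace Pool.Agent.NDE

open NumberField IsDedekindDomain
open Pool.Agent.FAM (Cube)

variable {K : Type*} [Field K] [NumberField K] {n : ℕ}

theorem mer_log_nonneg (v : HeightOneSpectrum (𝓞 K)) : 0 ≤ Real.log (nm v) :=
  Real.log_nonneg (by linarith [two_le_nm v])

theorem mer_nm_pos (v : HeightOneSpectrum (𝓞 K)) : 0 < nm v := by linarith [two_le_nm v]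

omit [NumberField K] in
theorem mer_el_zero (ω : Module.Basis (Fin n) ℤ (𝓞 K)) : el ω (0 : Fin n → ℤ) = 0 := by
  unfold el
  simp

omit [NumberField K] in
theorem mer_el_ne (ω : Module.Basis (Fin n) ℤ (𝓞 K)) {s : Fin n → ℤ} (hs : s ≠ 0) :
    el ω s ≠ 0 := by
  intro h
  apply hs
  have h1 := Fintype.linearIndependent_iff.1 ω.linearIndependent s h
  exact funext h1

open Classical in
omit [NumberField K] in
/-- The number of the nonzero elements of an ideal in the box. -/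
theorem mer_ct (ω : Module.Basis (Fin n) ℤ (𝓞 K)) (X : ℕ) (I : Ideal (𝓞 K)) :
    ∑ s ∈ (Cube n X).filter (fun s => s ≠ 0), (if el ω s ∈ I then (1 : ℝ) else 0) =
      (ct ω X I : ℝ) - 1 := by
  have h0 : (0 : Fin n → ℤ) ∈ Cube n X := by
    rw [FAM.mem_Cube]
    intro i
    simp
  have h1 : ∑ s ∈ Cube n X, (if el ω s ∈ I then (1 : ℝ) else 0) = (ct ω X I : ℝ) := by
    rw [Finset.sum_ite, Finset.sum_const_zero, add_zero, Finset.sum_const, nsmul_eq_mul, mul_one]
    rfl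
  have h2 : (Cube n X).filter (fun s => s ≠ 0) = (Cube n X).erase 0 := by
    ext s
    simp only [Finset.mem_filter, Finset.mem_erase]
    tauto
  have h3 := Finset.add_sum_erase (Cube n X)
    (fun s => if el ω s ∈ I then (1 : ℝ) else 0) h0
  rw [h2, ← h1, ← h3]
  have h4 : (if el ω (0 : Fin n → ℤ) ∈ I then (1 : ℝ) else 0) = 1 := by
    rw [mer_el_zero, if_pos I.zero_mem]
  simp only [h4]
  ring

/-- Bernoulli: `(M - u)^n ≥ M^n - n u M^(n-1)`. -/
theorem mer_bern (n : ℕ) (hn : 0 < n) (M u : ℝ) (hM : 0 < M) (huM : u ≤ M) :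
    M ^ n - n * u * M ^ (n - 1) ≤ (M - u) ^ n := by
  have h1 := one_add_mul_le_pow (a := -(u / M)) (by
    have : u / M ≤ 1 := (div_le_one hM).2 huM
    linarith) n
  have h2 : (M - u) ^ n = M ^ n * (1 + -(u / M)) ^ n := by
    rw [← mul_pow]
    congr 1
    field_simp
    ring
  have h3 : M ^ n = M ^ (n - 1) * M := by
    rw [← pow_succ]
    congr 1
    omega
  rw [h2]
  refine le_trans (le_of_eq ?_) (mul_le_mul_of_nonneg_left h1 (pow_pos hM n).le)
  rw [h3]
  field_simp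
  ring

/-- `(M + u)^n ≤ M^n + n u (M + u)^(n-1)`. -/
theorem mer_bern2 (n : ℕ) (M u : ℝ) (hM : 0 ≤ M) (hu : 0 ≤ u) :
    (M + u) ^ n ≤ M ^ n + n * u * (M + u) ^ (n - 1) := by
  induction n with
  | zero => simp
  | succ m ih =>
    rcases Nat.eq_zero_or_pos m with h0 | h0
    · subst h0
      simp
    · have h1 : (M + u) ^ m = (M + u) ^ (m - 1) * (M + u) := by
        rw [← pow_succ]
        congr 1
        omega
      have h2 : (M + u) ^ (m + 1) = (M + u) ^ m * M + (M + u) ^ m * u := by ring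
      have h3 : (M + u) ^ m * M ≤ (M ^ m + m * u * (M + u) ^ (m - 1)) * M :=
        mul_le_mul_of_nonneg_right ih hM
      have h4 : (m : ℝ) * u * (M + u) ^ (m - 1) * M ≤ m * u * (M + u) ^ m := by
        rw [h1]
        have h5 : 0 ≤ (m : ℝ) * u * (M + u) ^ (m - 1) := by positivity
        nlinarith [mul_nonneg h5 hu]
      rw [Nat.add_sub_cancel, h2]
      push_cast
      have h6 : M ^ (m + 1) = M ^ m * M := pow_succ _ _
      rw [h6]
      nlinarith

/-- The tail of the geometric series. -/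
theorem mer_geom (N : ℝ) (hN : 1 < N) (T : ℕ) :
    ∑ k ∈ Finset.Icc 2 T, (N ^ k)⁻¹ ≤ 1 / (N * (N - 1)) := by
  have hN0 : 0 < N := by linarith
  have hN1 : 0 < N - 1 := by linarith
  have key : ∀ T : ℕ, ∑ k ∈ Finset.Icc 2 (T + 1), (N ^ k)⁻¹ =
      1 / (N * (N - 1)) - (N ^ (T + 1))⁻¹ / (N - 1) := by
    intro T
    induction T with
    | zero =>
      rw [Finset.Icc_eq_empty (by norm_num), Finset.sum_empty]
      field_simp
      ring
    | succ T ih =>
      rw [Finset.sum_Icc_succ_top (by omega), ih]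
      have h1 : N ^ (T + 1 + 1) = N ^ (T + 1) * N := pow_succ _ _
      have h2 : N ^ (T + 1) ≠ 0 := pow_ne_zero _ hN0.ne'
      rw [h1]
      field_simp
      ring
  rcases T with _ | T
  · rw [Finset.Icc_eq_empty (by norm_num), Finset.sum_empty]
    positivity
  · rw [key T]
    have : 0 ≤ (N ^ (T + 1))⁻¹ / (N - 1) := by positivity
    linarith

open Classical in
/-- The upper bound in Mertens' theorem. -/
theorem mer_up (hn : 0 < n) (ω : Module.Basis (Fin n) ℤ (𝓞 K))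
    (hθ : ∃ C : ℝ, 0 < C ∧ ∀ x : ℝ, 1 ≤ x → ∑ v ∈ up K x, Real.log (nm v) ≤ C * x)
    (hp : ∃ C : ℝ, 0 < C ∧ ∀ x : ℝ, 1 ≤ x →
      ∑ v ∈ up K x, Real.log (nm v) / nm v * (nm v) ^ ((n : ℝ)⁻¹) ≤ C * x ^ ((n : ℝ)⁻¹))
    (hbox : ∃ C : ℝ, 0 < C ∧ ∀ (I : Ideal (𝓞 K)) (X : ℕ), I ≠ ⊥ →
      (Ideal.absNorm I : ℝ) * ct ω X I ≤
        (2 * X + 1 + C * (Ideal.absNorm I : ℝ) ^ ((n : ℝ)⁻¹)) ^ n ∧
      (C * (Ideal.absNorm I : ℝ) ^ ((n : ℝ)⁻¹) ≤ 2 * X + 1 →
        (2 * X + 1 - C * (Ideal.absNorm I : ℝ) ^ ((n : ℝ)⁻¹)) ^ n ≤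
          (Ideal.absNorm I : ℝ) * ct ω X I))
    (hN : ∃ C : ℝ, 1 ≤ C ∧ ∀ X : ℕ, 1 ≤ X → ∀ s ∈ Cube n X,
      (Ideal.absNorm (Ideal.span {el ω s}) : ℝ) ≤ C * (X : ℝ) ^ n)
    (hge : ∀ (a : 𝓞 K) (_ : a ≠ 0) (x : ℝ),
      ∑ v ∈ (up K x).filter (fun v => a ∈ v.asIdeal), Real.log (nm v) ≤
        Real.log (Ideal.absNorm (Ideal.span {a}) : ℝ)) :
    ∃ C : ℝ, ∀ x : ℝ, 1 ≤ x →
      ∑ v ∈ up K x, Real.log (nm v) / nm v ≤ Real.log x + C := by
  obtain ⟨C3, hC3, hθ⟩ := hθ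
  obtain ⟨C2, hC2, hp⟩ := hp
  obtain ⟨C, hC, hbox⟩ := hbox
  obtain ⟨C1, hC1, hN⟩ := hN
  have hn0 : n ≠ 0 := hn.ne'
  -- the core inequality
  have core : ∀ (x : ℝ) (X : ℕ), 1 ≤ x → 1 ≤ X → C * x ^ ((n : ℝ)⁻¹) ≤ 2 * X + 1 →
      x ^ ((n : ℝ)⁻¹) ≤ 2 * X + 1 →
      ∑ v ∈ up K x, Real.log (nm v) / nm v ≤
        Real.log (C1 * (X : ℝ) ^ n) + (n * C * C2 + C3) := by
    intro x X hx hX hXC hXx
    have hx0 : 0 < x := by linarith
    set M : ℝ := 2 * X + 1 with hM
    have hMpos : 0 < M := by positivity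
    have hxn : (x ^ ((n : ℝ)⁻¹)) ^ n = x := Real.rpow_inv_natCast_pow hx0.le hn0
    have hxM : x ≤ M ^ n := by
      rw [← hxn]
      exact pow_le_pow_left₀ (Real.rpow_nonneg hx0.le _) hXx n
    -- the sum over the box
    have h1 : ∑ s ∈ (Cube n X).filter (fun s => s ≠ 0),
        ∑ v ∈ (up K x).filter (fun v => el ω s ∈ v.asIdeal), Real.log (nm v) ≤
        M ^ n * Real.log (C1 * (X : ℝ) ^ n) := by
      have hlog : 0 ≤ Real.log (C1 * (X : ℝ) ^ n) := by
        apply Real.log_nonneg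
        have : (1 : ℝ) ≤ (X : ℝ) ^ n := one_le_pow₀ (by exact_mod_cast hX)
        nlinarith
      have h2 : ∀ s ∈ (Cube n X).filter (fun s => s ≠ 0),
          ∑ v ∈ (up K x).filter (fun v => el ω s ∈ v.asIdeal), Real.log (nm v) ≤
            Real.log (C1 * (X : ℝ) ^ n) := by
        intro s hs
        rw [Finset.mem_filter] at hs
        have hne := mer_el_ne ω hs.2
        refine (hge (el ω s) hne x).trans ?_
        apply Real.log_le_log
        · have h3 : Ideal.span {el ω s} ≠ ⊥ := by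
            rw [Ne, Ideal.span_singleton_eq_bot]
            exact hne
          have h4 : Ideal.absNorm (Ideal.span {el ω s}) ≠ 0 := by
            rw [Ne, Ideal.absNorm_eq_zero_iff]
            exact h3
          exact_mod_cast Nat.pos_of_ne_zero h4
        · exact hN X hX s hs.1
      refine (Finset.sum_le_card_nsmul _ _ _ h2).trans ?_
      rw [nsmul_eq_mul]
      refine mul_le_mul_of_nonneg_right ?_ hlog
      have h5 : ((Cube n X).filter (fun s => s ≠ 0)).card ≤ (Cube n X).card :=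
        Finset.card_filter_le _ _
      rw [FAM.card_Cube] at h5
      rw [hM]
      exact_mod_cast h5
    have h2 : ∑ s ∈ (Cube n X).filter (fun s => s ≠ 0),
        ∑ v ∈ (up K x).filter (fun v => el ω s ∈ v.asIdeal), Real.log (nm v) =
        ∑ v ∈ up K x, Real.log (nm v) * ((ct ω X v.asIdeal : ℝ) - 1) := by
      simp only [Finset.sum_filter (s := up K x)]
      rw [Finset.sum_comm]
      refine Finset.sum_congr rfl fun v _ => ?_
      rw [← mer_ct ω X v.asIdeal, Finset.mul_sum]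
      refine Finset.sum_congr rfl fun s _ => ?_
      rw [mul_ite, mul_one, mul_zero]
    have h3 : ∀ v ∈ up K x, M ^ n * (Real.log (nm v) / nm v) -
        n * C * M ^ (n - 1) * (Real.log (nm v) / nm v * (nm v) ^ ((n : ℝ)⁻¹)) -
          Real.log (nm v) ≤ Real.log (nm v) * ((ct ω X v.asIdeal : ℝ) - 1) := by
      intro v hv
      have hvx : nm v ≤ x := mem_up.1 hv
      have hv0 := mer_nm_pos v
      have hu : C * (nm v) ^ ((n : ℝ)⁻¹) ≤ M := by
        refine le_trans (mul_le_mul_of_nonneg_left ?_ hC.le) hXC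
        exact Real.rpow_le_rpow hv0.le hvx (by positivity)
      have hb := (hbox v.asIdeal X v.ne_bot).2 hu
      have hb2 := mer_bern n hn M _ hMpos hu
      have hb3 : M ^ n - n * (C * (nm v) ^ ((n : ℝ)⁻¹)) * M ^ (n - 1) ≤
          nm v * ct ω X v.asIdeal := hb2.trans hb
      have hb4 : (M ^ n - n * (C * (nm v) ^ ((n : ℝ)⁻¹)) * M ^ (n - 1)) / nm v ≤
          ct ω X v.asIdeal := by
        rw [div_le_iff₀ hv0, mul_comm (ct ω X v.asIdeal : ℝ)]
        exact hb3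
      have hb5 := mul_le_mul_of_nonneg_left hb4 (mer_log_nonneg v)
      have hb6 : M ^ n * (Real.log (nm v) / nm v) -
          n * C * M ^ (n - 1) * (Real.log (nm v) / nm v * (nm v) ^ ((n : ℝ)⁻¹)) =
          Real.log (nm v) *
            ((M ^ n - n * (C * (nm v) ^ ((n : ℝ)⁻¹)) * M ^ (n - 1)) / nm v) := by
        field_simp
      rw [hb6, mul_sub, mul_one]
      linarith
    have h4 := Finset.sum_le_sum h3
    rw [Finset.sum_sub_distrib, Finset.sum_sub_distrib, ← Finset.mul_sum, ← Finset.mul_sum,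
      ← h2] at h4
    have h5 := hp x hx
    have h6 := hθ x hx
    have hMn : 0 < M ^ n := pow_pos hMpos n
    have h7 : (n : ℝ) * C * M ^ (n - 1) *
        ∑ v ∈ up K x, Real.log (nm v) / nm v * (nm v) ^ ((n : ℝ)⁻¹) ≤ M ^ n * (n * C * C2) := by
      have h8 : ∑ v ∈ up K x, Real.log (nm v) / nm v * (nm v) ^ ((n : ℝ)⁻¹) ≤ C2 * M :=
        h5.trans (mul_le_mul_of_nonneg_left hXx hC2.le)
      have h9 : M ^ n = M ^ (n - 1) * M := by
        rw [← pow_succ]
        congr 1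
        omega
      calc (n : ℝ) * C * M ^ (n - 1) *
          ∑ v ∈ up K x, Real.log (nm v) / nm v * (nm v) ^ ((n : ℝ)⁻¹)
          ≤ (n : ℝ) * C * M ^ (n - 1) * (C2 * M) :=
            mul_le_mul_of_nonneg_left h8 (by positivity)
        _ = M ^ n * (n * C * C2) := by rw [h9]; ring
    have h10 : ∑ v ∈ up K x, Real.log (nm v) ≤ M ^ n * C3 := by
      refine h6.trans ?_
      rw [mul_comm]
      exact mul_le_mul_of_nonneg_right hxM hC3.le
    have h11 : M ^ n * ∑ v ∈ up K x, Real.log (nm v) / nm v ≤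
        M ^ n * (Real.log (C1 * (X : ℝ) ^ n) + (n * C * C2 + C3)) := by
      have h12 : M ^ n * (Real.log (C1 * (X : ℝ) ^ n) + (n * C * C2 + C3)) =
        M ^ n * Real.log (C1 * (X : ℝ) ^ n) + M ^ n * (n * C * C2) + M ^ n * C3 := by ring
      rw [h12]
      linarith
    exact le_of_mul_le_mul_left h11 hMn
  -- the choice of the box
  refine ⟨Real.log (C1 * (2 * (1 + C)) ^ n) + (n * C * C2 + C3), fun x hx => ?_⟩
  have hx0 : 0 < x := by linarith
  have ht1 : 1 ≤ x ^ ((n : ℝ)⁻¹) := Real.one_le_rpow hx (by positivity)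
  set t : ℝ := x ^ ((n : ℝ)⁻¹) with ht
  have htn : t ^ n = x := Real.rpow_inv_natCast_pow hx0.le hn0
  have hX1 : (1 + C) * t ≤ (⌈(1 + C) * t⌉₊ : ℝ) := Nat.le_ceil _
  have hX2 : (⌈(1 + C) * t⌉₊ : ℝ) < (1 + C) * t + 1 := Nat.ceil_lt_add_one (by positivity)
  set X : ℕ := ⌈(1 + C) * t⌉₊ with hX
  have hXge1 : (1 : ℝ) ≤ X := by nlinarith
  have hX' : 1 ≤ X := by exact_mod_cast hXge1
  have hcore := core x X hx hX' (by nlinarith) (by nlinarith)
  have hX3 : (X : ℝ) ≤ 2 * (1 + C) * t := by nlinarith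
  have hX4 : C1 * (X : ℝ) ^ n ≤ C1 * (2 * (1 + C)) ^ n * x := by
    have h1 : (X : ℝ) ^ n ≤ (2 * (1 + C) * t) ^ n := pow_le_pow_left₀ (by positivity) hX3 n
    rw [mul_pow, htn] at h1
    calc C1 * (X : ℝ) ^ n ≤ C1 * ((2 * (1 + C)) ^ n * x) :=
          mul_le_mul_of_nonneg_left h1 (by linarith)
      _ = C1 * (2 * (1 + C)) ^ n * x := by ring
  have hX5 : Real.log (C1 * (X : ℝ) ^ n) ≤ Real.log (C1 * (2 * (1 + C)) ^ n) + Real.log x := by
    rw [← Real.log_mul (by positivity) hx0.ne']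
    exact Real.log_le_log (by positivity) hX4
  linarith

end Pool.Agent.NDE
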