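import Mathlib
import Pool.Agent.NDE.MerA

set_option autoImplicit false

/-!
# NDE/MerB: Mertens' theorem for a number field from the counting inputs, lower bound
-/

namespace Pool.Agent.NDE

open NumberField IsDedekindDomain
open Pool.Agent.FAM (Cube)

variable {K : Type*} [Field K] [NumberField K] {n : ℕ}

open Classical in
/-- The lower bound in Mertens' theorem. -/
theorem mer_low (hn : 0 < n) (ω : Module.Basis (Fin n) ℤ (𝓞 K))
    (hp : ∃ C : ℝ, 0 < C ∧ ∀ x : ℝ, 1 ≤ x →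
      ∑ v ∈ up K x, Real.log (nm v) / nm v * (nm v) ^ ((n : ℝ)⁻¹) ≤ C * x ^ ((n : ℝ)⁻¹))
    (hsq : ∃ C : ℝ, 0 < C ∧ ∀ x : ℝ,
      ∑ v ∈ up K x, Real.log (nm v) / (nm v * (nm v - 1)) ≤ C)
    (hbox : ∃ C : ℝ, 0 < C ∧ ∀ (I : Ideal (𝓞 K)) (X : ℕ), I ≠ ⊥ →
      (Ideal.absNorm I : ℝ) * ct ω X I ≤
        (2 * X + 1 + C * (Ideal.absNorm I : ℝ) ^ ((n : ℝ)⁻¹)) ^ n ∧
      (C * (Ideal.absNorm I : ℝ) ^ ((n : ℝ)⁻¹) ≤ 2 * X + 1 →
        (2 * X + 1 - C * (Ideal.absNorm I : ℝ) ^ ((n : ℝ)⁻¹)) ^ n ≤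
          (Ideal.absNorm I : ℝ) * ct ω X I))
    (hN : ∃ C : ℝ, 1 ≤ C ∧ ∀ X : ℕ, 1 ≤ X → ∀ s ∈ Cube n X,
      (Ideal.absNorm (Ideal.span {el ω s}) : ℝ) ≤ C * (X : ℝ) ^ n)
    (hS : ∃ C : ℝ, ∀ X : ℕ, 1 ≤ X →
      (n * Real.log X - C) * (2 * (X : ℝ) + 1) ^ n ≤
        ∑ s ∈ (Cube n X).filter (fun s => s ≠ 0),
          Real.log (Ideal.absNorm (Ideal.span {el ω s}) : ℝ))
    (hle : ∀ (a : 𝓞 K) (_ : a ≠ 0) (y : ℝ)
      (_ : (Ideal.absNorm (Ideal.span {a}) : ℝ) ≤ y) (T : ℕ) (_ : y < 2 ^ T),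
      Real.log (Ideal.absNorm (Ideal.span {a}) : ℝ) ≤
        ∑ v ∈ up K y, ∑ k ∈ (Finset.Icc 1 T).filter (fun k => nm v ^ k ≤ y),
          if a ∈ v.asIdeal ^ k then Real.log (nm v) else 0) :
    ∃ C : ℝ, ∀ x : ℝ, 1 ≤ x →
      Real.log x ≤ ∑ v ∈ up K x, Real.log (nm v) / nm v + C := by
  obtain ⟨C2, hC2, hp⟩ := hp
  obtain ⟨C7, hC7, hsq⟩ := hsq
  obtain ⟨C, hC, hbox⟩ := hbox
  obtain ⟨C1, hC1, hN⟩ := hN
  obtain ⟨C4, hS⟩ := hS
  have hn0 : n ≠ 0 := hn.ne'
  have hC10 : 0 < C1 := by linarith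
  set c1 : ℝ := C1 ^ ((n : ℝ)⁻¹) with hc1
  have hc1pos : 0 < c1 := Real.rpow_pos_of_pos hC10 _
  have hc1n : c1 ^ n = C1 := Real.rpow_inv_natCast_pow hC10.le hn0
  set C5 : ℝ := C * c1 with hC5
  have hC5pos : 0 < C5 := by positivity
  set C6 : ℝ := n * C * (1 + C5) ^ (n - 1) with hC6
  have hC6nn : 0 ≤ C6 := by positivity
  -- the core inequality
  have core : ∀ X : ℕ, 1 ≤ X →
      n * Real.log X - C4 ≤ ∑ v ∈ up K (C1 * (X : ℝ) ^ n), Real.log (nm v) / nm v +
        (C6 * C2 * c1 + (1 + C5) ^ n * C7) := by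
    intro X hX
    have hX1 : (1 : ℝ) ≤ X := by exact_mod_cast hX
    have hXpos : (0 : ℝ) < X := by linarith
    set y : ℝ := C1 * (X : ℝ) ^ n with hy
    have hy1 : 1 ≤ y := by
      have : (1 : ℝ) ≤ (X : ℝ) ^ n := one_le_pow₀ hX1
      nlinarith
    have hy0 : 0 < y := by linarith
    have hyn : y ^ ((n : ℝ)⁻¹) = c1 * X := by
      rw [hy, Real.mul_rpow hC10.le (by positivity), hc1]
      congr 1
      exact Real.pow_rpow_inv_natCast hXpos.le hn0
    set M : ℝ := 2 * X + 1 with hM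
    have hMpos : 0 < M := by positivity
    have hXM : (X : ℝ) ≤ M := by linarith
    obtain ⟨T, hT⟩ : ∃ T : ℕ, y < 2 ^ T := pow_unbounded_of_one_lt y (by norm_num)
    have h1 : ∑ s ∈ (Cube n X).filter (fun s => s ≠ 0),
        Real.log (Ideal.absNorm (Ideal.span {el ω s}) : ℝ) ≤
        ∑ s ∈ (Cube n X).filter (fun s => s ≠ 0),
          ∑ v ∈ up K y, ∑ k ∈ (Finset.Icc 1 T).filter (fun k => nm v ^ k ≤ y),
            if el ω s ∈ v.asIdeal ^ k then Real.log (nm v) else 0 := by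
      refine Finset.sum_le_sum fun s hs => ?_
      rw [Finset.mem_filter] at hs
      exact hle _ (mer_el_ne ω hs.2) y (hN X hX s hs.1) T hT
    have h2 : ∑ s ∈ (Cube n X).filter (fun s => s ≠ 0),
          ∑ v ∈ up K y, ∑ k ∈ (Finset.Icc 1 T).filter (fun k => nm v ^ k ≤ y),
            (if el ω s ∈ v.asIdeal ^ k then Real.log (nm v) else 0) =
        ∑ v ∈ up K y, ∑ k ∈ (Finset.Icc 1 T).filter (fun k => nm v ^ k ≤ y),
          Real.log (nm v) * ((ct ω X (v.asIdeal ^ k) : ℝ) - 1) := by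
      rw [Finset.sum_comm]
      refine Finset.sum_congr rfl fun v _ => ?_
      rw [Finset.sum_comm]
      refine Finset.sum_congr rfl fun k _ => ?_
      rw [← mer_ct ω X (v.asIdeal ^ k), Finset.mul_sum]
      refine Finset.sum_congr rfl fun s _ => ?_
      rw [mul_ite, mul_one, mul_zero]
    -- one prime
    have h3 : ∀ v ∈ up K y, ∑ k ∈ (Finset.Icc 1 T).filter (fun k => nm v ^ k ≤ y),
          Real.log (nm v) * ((ct ω X (v.asIdeal ^ k) : ℝ) - 1) ≤
        M ^ n * (Real.log (nm v) / nm v) +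
          C6 * M ^ (n - 1) * (Real.log (nm v) / nm v * (nm v) ^ ((n : ℝ)⁻¹)) +
          M ^ n * (1 + C5) ^ n * (Real.log (nm v) / (nm v * (nm v - 1))) := by
      intro v hv
      have hv0 := mer_nm_pos v
      have hv2 := two_le_nm v
      have hlog := mer_log_nonneg v
      have hu : ∀ k : ℕ, nm v ^ k ≤ y → C * (nm v ^ k) ^ ((n : ℝ)⁻¹) ≤ C5 * M := by
        intro k hk
        have h4 : (nm v ^ k) ^ ((n : ℝ)⁻¹) ≤ y ^ ((n : ℝ)⁻¹) :=
          Real.rpow_le_rpow (by positivity) hk (by positivity)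
        rw [hyn] at h4
        calc C * (nm v ^ k) ^ ((n : ℝ)⁻¹) ≤ C * (c1 * X) := mul_le_mul_of_nonneg_left h4 hC.le
          _ = C5 * X := by rw [hC5]; ring
          _ ≤ C5 * M := mul_le_mul_of_nonneg_left hXM hC5pos.le
      have hb : ∀ k : ℕ, nm v ^ k * ct ω X (v.asIdeal ^ k) ≤
          (M + C * (nm v ^ k) ^ ((n : ℝ)⁻¹)) ^ n := by
        intro k
        have h5 := (hbox (v.asIdeal ^ k) X (pow_ne_zero k v.ne_bot)).1
        have h6 : (Ideal.absNorm (v.asIdeal ^ k) : ℝ) = nm v ^ k := by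
          rw [map_pow, Nat.cast_pow]
          rfl
        rw [h6] at h5
        exact h5
      -- the general term
      have hgen : ∀ k : ℕ, nm v ^ k ≤ y →
          Real.log (nm v) * ((ct ω X (v.asIdeal ^ k) : ℝ) - 1) ≤
            M ^ n * (1 + C5) ^ n * Real.log (nm v) * (nm v ^ k)⁻¹ := by
        intro k hk
        have hk0 : 0 < nm v ^ k := pow_pos hv0 k
        have h7 : (M + C * (nm v ^ k) ^ ((n : ℝ)⁻¹)) ^ n ≤ M ^ n * (1 + C5) ^ n := by
          rw [← mul_pow]
          refine pow_le_pow_left₀ (by positivity) ?_ n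
          have := hu k hk
          nlinarith
        have h8 : (ct ω X (v.asIdeal ^ k) : ℝ) ≤ M ^ n * (1 + C5) ^ n * (nm v ^ k)⁻¹ := by
          rw [← div_eq_mul_inv, le_div_iff₀ hk0, mul_comm]
          exact (hb k).trans h7
        have h9 : (ct ω X (v.asIdeal ^ k) : ℝ) - 1 ≤ M ^ n * (1 + C5) ^ n * (nm v ^ k)⁻¹ := by
          linarith
        calc Real.log (nm v) * ((ct ω X (v.asIdeal ^ k) : ℝ) - 1)
            ≤ Real.log (nm v) * (M ^ n * (1 + C5) ^ n * (nm v ^ k)⁻¹) :=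
              mul_le_mul_of_nonneg_left h9 hlog
          _ = _ := by ring
      -- the term k = 1
      have hone : Real.log (nm v) * ((ct ω X (v.asIdeal ^ 1) : ℝ) - 1) ≤
          M ^ n * (Real.log (nm v) / nm v) +
          C6 * M ^ (n - 1) * (Real.log (nm v) / nm v * (nm v) ^ ((n : ℝ)⁻¹)) := by
        have hvy : nm v ≤ y := mem_up.1 hv
        have h10 := hb 1
        have h11 := hu 1 (by rw [pow_one]; exact hvy)
        rw [pow_one (nm v)] at h10 h11
        set u : ℝ := C * (nm v) ^ ((n : ℝ)⁻¹) with hu'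
        have hu0 : 0 ≤ u := by positivity
        have h12 := mer_bern2 n M u hMpos.le hu0
        have h13 : (M + u) ^ (n - 1) ≤ M ^ (n - 1) * (1 + C5) ^ (n - 1) := by
          rw [← mul_pow]
          refine pow_le_pow_left₀ (by positivity) ?_ _
          nlinarith
        have h14 : (n : ℝ) * u * (M + u) ^ (n - 1) ≤
            n * u * (M ^ (n - 1) * (1 + C5) ^ (n - 1)) :=
          mul_le_mul_of_nonneg_left h13 (by positivity)
        have h15 : (ct ω X (v.asIdeal ^ 1) : ℝ) ≤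
            (M ^ n + n * u * (M ^ (n - 1) * (1 + C5) ^ (n - 1))) / nm v := by
          rw [le_div_iff₀ hv0, mul_comm]
          linarith
        have h16 : (ct ω X (v.asIdeal ^ 1) : ℝ) - 1 ≤
            (M ^ n + n * u * (M ^ (n - 1) * (1 + C5) ^ (n - 1))) / nm v := by linarith
        calc Real.log (nm v) * ((ct ω X (v.asIdeal ^ 1) : ℝ) - 1)
            ≤ Real.log (nm v) *
              ((M ^ n + n * u * (M ^ (n - 1) * (1 + C5) ^ (n - 1))) / nm v) :=
              mul_le_mul_of_nonneg_left h16 hlog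
          _ = _ := by
              rw [hu', hC6]
              field_simp
      -- together
      have h17 : (Finset.Icc 1 T).filter (fun k => nm v ^ k ≤ y) ⊆
          insert 1 ((Finset.Icc 2 T).filter (fun k => nm v ^ k ≤ y)) := by
        intro k hk
        rw [Finset.mem_filter, Finset.mem_Icc] at hk
        rw [Finset.mem_insert, Finset.mem_filter, Finset.mem_Icc]
        rcases Nat.eq_or_lt_of_le hk.1.1 with h | h
        · left
          exact h.symm
        · right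
          exact ⟨⟨h, hk.1.2⟩, hk.2⟩
      have hnn : ∀ k : ℕ, 0 ≤ Real.log (nm v) * ((ct ω X (v.asIdeal ^ k) : ℝ) - 1) := by
        intro k
        refine mul_nonneg hlog ?_
        rw [← mer_ct]
        exact Finset.sum_nonneg fun s _ => by split_ifs <;> norm_num
      refine (Finset.sum_le_sum_of_subset_of_nonneg h17 (fun k _ _ => hnn k)).trans ?_
      rw [Finset.sum_insert (by
        intro h
        rw [Finset.mem_filter, Finset.mem_Icc] at h
        omega)]
      refine add_le_add hone ?_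
      have h18 : ∑ k ∈ (Finset.Icc 2 T).filter (fun k => nm v ^ k ≤ y),
          Real.log (nm v) * ((ct ω X (v.asIdeal ^ k) : ℝ) - 1) ≤
          ∑ k ∈ (Finset.Icc 2 T).filter (fun k => nm v ^ k ≤ y),
            M ^ n * (1 + C5) ^ n * Real.log (nm v) * (nm v ^ k)⁻¹ :=
        Finset.sum_le_sum fun k hk => hgen k (Finset.mem_filter.1 hk).2
      have h19 : ∑ k ∈ (Finset.Icc 2 T).filter (fun k => nm v ^ k ≤ y),
            M ^ n * (1 + C5) ^ n * Real.log (nm v) * (nm v ^ k)⁻¹ ≤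
          ∑ k ∈ Finset.Icc 2 T, M ^ n * (1 + C5) ^ n * Real.log (nm v) * (nm v ^ k)⁻¹ :=
        Finset.sum_le_sum_of_subset_of_nonneg (Finset.filter_subset _ _)
          (fun k _ _ => by positivity)
      refine h18.trans (h19.trans ?_)
      rw [← Finset.mul_sum]
      have h20 := mer_geom (nm v) (by linarith) T
      calc M ^ n * (1 + C5) ^ n * Real.log (nm v) * ∑ k ∈ Finset.Icc 2 T, (nm v ^ k)⁻¹
          ≤ M ^ n * (1 + C5) ^ n * Real.log (nm v) * (1 / (nm v * (nm v - 1))) :=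
            mul_le_mul_of_nonneg_left h20 (by positivity)
        _ = _ := by ring
    have h4 := Finset.sum_le_sum h3
    rw [Finset.sum_add_distrib, Finset.sum_add_distrib, ← Finset.mul_sum, ← Finset.mul_sum,
      ← Finset.mul_sum] at h4
    have h5 := hp y hy1
    have h6 := hsq y
    have h7 := hS X hX
    have hMn : 0 < M ^ n := pow_pos hMpos n
    have h8 : C6 * M ^ (n - 1) *
        ∑ v ∈ up K y, Real.log (nm v) / nm v * (nm v) ^ ((n : ℝ)⁻¹) ≤
        M ^ n * (C6 * C2 * c1) := by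
      have h9 : ∑ v ∈ up K y, Real.log (nm v) / nm v * (nm v) ^ ((n : ℝ)⁻¹) ≤
          C2 * (c1 * M) := by
        refine h5.trans (mul_le_mul_of_nonneg_left ?_ hC2.le)
        rw [hyn]
        exact mul_le_mul_of_nonneg_left hXM hc1pos.le
      have h10 : M ^ n = M ^ (n - 1) * M := by
        rw [← pow_succ]
        congr 1
        omega
      calc C6 * M ^ (n - 1) *
          ∑ v ∈ up K y, Real.log (nm v) / nm v * (nm v) ^ ((n : ℝ)⁻¹)
          ≤ C6 * M ^ (n - 1) * (C2 * (c1 * M)) :=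
            mul_le_mul_of_nonneg_left h9 (by positivity)
        _ = M ^ n * (C6 * C2 * c1) := by rw [h10]; ring
    have h11 : M ^ n * (1 + C5) ^ n *
        ∑ v ∈ up K y, Real.log (nm v) / (nm v * (nm v - 1)) ≤
        M ^ n * ((1 + C5) ^ n * C7) := by
      rw [mul_assoc]
      exact mul_le_mul_of_nonneg_left (mul_le_mul_of_nonneg_left h6 (by positivity)) hMn.le
    have h12 : M ^ n * (n * Real.log X - C4) ≤
        M ^ n * (∑ v ∈ up K y, Real.log (nm v) / nm v +
          (C6 * C2 * c1 + (1 + C5) ^ n * C7)) := by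
      have h13 : M ^ n * (∑ v ∈ up K y, Real.log (nm v) / nm v +
          (C6 * C2 * c1 + (1 + C5) ^ n * C7)) =
          M ^ n * ∑ v ∈ up K y, Real.log (nm v) / nm v + M ^ n * (C6 * C2 * c1) +
          M ^ n * ((1 + C5) ^ n * C7) := by ring
      rw [h13]
      have h14 : M ^ n * (n * Real.log X - C4) ≤
          ∑ s ∈ (Cube n X).filter (fun s => s ≠ 0),
          Real.log (Ideal.absNorm (Ideal.span {el ω s}) : ℝ) := by
        rw [mul_comm]
        exact h7
      rw [h2] at h1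
      linarith
    exact le_of_mul_le_mul_left h12 hMn
  -- the choice of the box
  refine ⟨Real.log C1 + n * Real.log 2 + |C4| + (C6 * C2 * c1 + (1 + C5) ^ n * C7),
    fun x hx => ?_⟩
  have hx0 : 0 < x := by linarith
  have hG : ∀ z : ℝ, 0 ≤ ∑ v ∈ up K z, Real.log (nm v) / nm v := fun z =>
    Finset.sum_nonneg fun v _ => div_nonneg (mer_log_nonneg v) (mer_nm_pos v).le
  have hlogC1 : 0 ≤ Real.log C1 := Real.log_nonneg hC1
  have hlog2 : 0 ≤ (n : ℝ) * Real.log 2 := mul_nonneg (Nat.cast_nonneg n) (Real.log_nonneg (by norm_num))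
  have hC47 : 0 ≤ C6 * C2 * c1 + (1 + C5) ^ n * C7 := by positivity
  rcases lt_or_ge x C1 with hxC | hxC
  · have h1 := Real.log_le_log hx0 hxC.le
    have h2 := hG x
    have h3 := abs_nonneg C4
    linarith
  · set t : ℝ := (x / C1) ^ ((n : ℝ)⁻¹) with ht
    have hxC1 : 1 ≤ x / C1 := (one_le_div hC10).2 hxC
    have htn : t ^ n = x / C1 := Real.rpow_inv_natCast_pow (by positivity) hn0
    have ht1 : 1 ≤ t := Real.one_le_rpow hxC1 (by positivity)
    have hX' : 1 ≤ ⌊t⌋₊ := Nat.one_le_floor_iff t |>.2 ht1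
    have hXt : (⌊t⌋₊ : ℝ) ≤ t := Nat.floor_le (by linarith)
    have hXt' : t < ⌊t⌋₊ + 1 := Nat.lt_floor_add_one t
    set X : ℕ := ⌊t⌋₊ with hX
    have hX1 : (1 : ℝ) ≤ X := by exact_mod_cast hX'
    have hcore := core X hX'
    have hyx : C1 * (X : ℝ) ^ n ≤ x := by
      have h1 : (X : ℝ) ^ n ≤ t ^ n := pow_le_pow_left₀ (by positivity) hXt n
      rw [htn, le_div_iff₀ hC10] at h1
      linarith
    have hmono : ∑ v ∈ up K (C1 * (X : ℝ) ^ n), Real.log (nm v) / nm v ≤
        ∑ v ∈ up K x, Real.log (nm v) / nm v := by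
      refine Finset.sum_le_sum_of_subset_of_nonneg ?_
        (fun v _ _ => div_nonneg (mer_log_nonneg v) (mer_nm_pos v).le)
      intro v hv
      rw [mem_up] at hv ⊢
      exact hv.trans hyx
    have hlogX : Real.log x - Real.log C1 - n * Real.log 2 ≤ n * Real.log X := by
      have h1 : t ≤ 2 * X := by linarith
      have h2 := Real.log_le_log (by linarith) h1
      rw [Real.log_mul (by norm_num) (by positivity)] at h2
      have h3 : (n : ℝ) * Real.log t = Real.log x - Real.log C1 := by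
        rw [← Real.log_pow, htn, Real.log_div hx0.ne' hC10.ne']
      have h4 : (n : ℝ) * Real.log t ≤ n * (Real.log 2 + Real.log X) :=
        mul_le_mul_of_nonneg_left h2 (Nat.cast_nonneg n)
      linarith
    have h5 := le_abs_self C4
    linarith

end Pool.Agent.NDE
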