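import Mathlib
import Pool.Agent.NDE.Defs

set_option autoImplicit false

/-!
# The sum of the logarithms of the norms of the elements of a box
-/

namespace Pool.Agent.NDE

open NumberField
open Pool.Agent.FAM (Cube)

namespace NrmA

/-! ### the slab -/

theorem int_count (S : Finset ℤ) (u ρ : ℝ) (hρ : 0 ≤ ρ) (h : ∀ a ∈ S, |(a : ℝ) - u| ≤ ρ) :
    (S.card : ℝ) ≤ 2 * ρ + 1 := by
  have hsub : S ⊆ Finset.Icc ⌈u - ρ⌉ ⌊u + ρ⌋ := by
    intro a ha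
    have h1 := abs_le.1 (h a ha)
    rw [Finset.mem_Icc, Int.ceil_le, Int.le_floor]
    constructor <;> linarith [h1.1, h1.2]
  have h1 := Finset.card_le_card hsub
  rw [Int.card_Icc] at h1
  rcases le_or_gt 0 (⌊u + ρ⌋ + 1 - ⌈u - ρ⌉) with h2 | h2
  · have h3 : ((⌊u + ρ⌋ + 1 - ⌈u - ρ⌉).toNat : ℤ) = ⌊u + ρ⌋ + 1 - ⌈u - ρ⌉ := Int.toNat_of_nonneg h2
    have h4 : (S.card : ℤ) ≤ ⌊u + ρ⌋ + 1 - ⌈u - ρ⌉ := by
      rw [← h3]
      exact_mod_cast h1
    have h5 : (S.card : ℝ) ≤ (⌊u + ρ⌋ : ℝ) + 1 - (⌈u - ρ⌉ : ℝ) := by exact_mod_cast h4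
    have h6 := Int.floor_le (u + ρ)
    have h7 := Int.le_ceil (u - ρ)
    linarith
  · have h3 : (⌊u + ρ⌋ + 1 - ⌈u - ρ⌉).toNat = 0 := Int.toNat_of_nonpos h2.le
    rw [h3] at h1
    have h4 : S.card = 0 := Nat.le_zero.1 h1
    rw [h4, Nat.cast_zero]
    positivity

/-- the number of the points of a slab -/
theorem slab {m : ℕ} (z : Fin (m + 1) → ℂ) (hz : z 0 ≠ 0) (X : ℕ) (R : ℝ) (hR : 0 ≤ R) :
    (((Cube (m + 1) X).filter fun s => ‖∑ i, (s i : ℂ) * z i‖ ≤ R).card : ℝ) ≤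
      (2 * (X : ℝ) + 1) ^ m * (2 * (R / ‖z 0‖) + 1) := by
  classical
  set S := (Cube (m + 1) X).filter fun s => ‖∑ i, (s i : ℂ) * z i‖ ≤ R with hS
  have hz' : 0 < ‖z 0‖ := norm_pos_iff.2 hz
  have hmaps : ∀ s ∈ S, Fin.tail s ∈ Cube m X := by
    intro s hs
    have h1 := (Finset.mem_filter.1 hs).1
    unfold Cube at h1 ⊢
    rw [Fintype.mem_piFinset] at h1 ⊢
    exact fun i => h1 i.succ
  have h1 := Finset.card_eq_sum_card_fiberwise hmaps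
  have h2 : ∀ t ∈ Cube m X, ((S.filter fun s => Fin.tail s = t).card : ℝ) ≤
      2 * (R / ‖z 0‖) + 1 := by
    intro t _
    have hinj : Set.InjOn (fun s : Fin (m + 1) → ℤ => s 0)
        ((S.filter fun s => Fin.tail s = t : Finset (Fin (m + 1) → ℤ)) : Set _) := by
      intro s hs s' hs' hss
      have h3 := (Finset.mem_filter.1 (Finset.mem_coe.1 hs)).2
      have h4 := (Finset.mem_filter.1 (Finset.mem_coe.1 hs')).2
      rw [← Fin.cons_self_tail s, ← Fin.cons_self_tail s', h3, h4]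
      exact congrArg (fun a => (Fin.cons a t : Fin (m + 1) → ℤ)) hss
    rw [← Finset.card_image_of_injOn hinj]
    set c : ℂ := ∑ i : Fin m, (t i : ℂ) * z i.succ with hc
    refine int_count _ (-(c / z 0).re) _ (by positivity) ?_
    intro a ha
    obtain ⟨s, hs, rfl⟩ := Finset.mem_image.1 ha
    obtain ⟨hs1, hs2⟩ := Finset.mem_filter.1 hs
    have h5 := (Finset.mem_filter.1 hs1).2
    rw [Fin.sum_univ_succ] at h5
    have h6 : ∑ i : Fin m, (s i.succ : ℂ) * z i.succ = c := by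
      rw [hc, ← hs2]
      rfl
    rw [h6] at h5
    have h7 : (s 0 : ℂ) * z 0 + c = z 0 * ((s 0 : ℂ) + c / z 0) := by
      field_simp
    rw [h7, norm_mul] at h5
    have h8 : ‖(s 0 : ℂ) + c / z 0‖ ≤ R / ‖z 0‖ := by
      rw [le_div_iff₀ hz', mul_comm]
      exact h5
    refine le_trans ?_ h8
    have h9 := Complex.abs_re_le_norm ((s 0 : ℂ) + c / z 0)
    rw [Complex.add_re, Complex.intCast_re] at h9
    rw [sub_neg_eq_add]
    exact h9
  calc (S.card : ℝ) = ∑ t ∈ Cube m X, ((S.filter fun s => Fin.tail s = t).card : ℝ) := by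
        rw [h1]
        push_cast
        rfl
    _ ≤ ∑ _t ∈ Cube m X, (2 * (R / ‖z 0‖) + 1) := Finset.sum_le_sum h2
    _ = (2 * (X : ℝ) + 1) ^ m * (2 * (R / ‖z 0‖) + 1) := by
        rw [Finset.sum_const, nsmul_eq_mul, FAM.card_Cube]
        push_cast
        rfl

/-! ### the layers of the logarithm -/

theorem log_le (y : ℝ) (hy : 1 ≤ y) (M : ℕ) (hM : y < 2 ^ M) :
    Real.log y ≤ ∑ k ∈ Finset.range M, if (2 : ℝ) ^ k ≤ y then (1 : ℝ) else 0 := by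
  classical
  have hex : ∃ j : ℕ, y < 2 ^ j := ⟨M, hM⟩
  set j := Nat.find hex with hj
  have h1 : y < 2 ^ j := Nat.find_spec hex
  have h2 : j ≤ M := Nat.find_min' hex hM
  have h3 : Real.log y ≤ j := by
    have h4 : Real.log y ≤ Real.log ((2 : ℝ) ^ j) := Real.log_le_log (by linarith) h1.le
    rw [Real.log_pow] at h4
    have h5 : Real.log 2 ≤ 1 := by
      have := Real.log_two_lt_d9
      linarith
    have h6 : (j : ℝ) * Real.log 2 ≤ j * 1 := mul_le_mul_of_nonneg_left h5 (Nat.cast_nonneg _)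
    linarith
  refine h3.trans ?_
  have h4 : (j : ℝ) = ∑ _k ∈ Finset.range j, (1 : ℝ) := by simp
  rw [h4]
  refine (Finset.sum_le_sum (f := fun _ => (1 : ℝ))
    (g := fun k => if (2 : ℝ) ^ k ≤ y then (1 : ℝ) else 0) fun k hk => ?_).trans
    (Finset.sum_le_sum_of_subset_of_nonneg (Finset.range_subset_range.2 h2) fun k _ _ => ?_)
  · rw [if_pos]
    exact not_lt.1 (Nat.find_min hex (Finset.mem_range.1 hk))
  · split_ifs
    · exact zero_le_one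
    · exact le_rfl

theorem geom_le (M : ℕ) : ∑ k ∈ Finset.range M, ((1 : ℝ) / 2) ^ k ≤ 2 := by
  rw [geom_sum_eq (by norm_num)]
  have : (0 : ℝ) ≤ (1 / 2) ^ M := by positivity
  rw [div_le_iff_of_neg (by norm_num)]
  linarith

/-- the sum over a cube of the logarithm of the inverse of a linear form -/
theorem sum_form {m : ℕ} (z : Fin (m + 1) → ℂ) (hz : z 0 ≠ 0) (X : ℕ) (P : ℝ) (hP : 0 ≤ P)
    (M : ℕ) (T : Finset (Fin (m + 1) → ℤ)) (hT : T ⊆ Cube (m + 1) X)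
    (h1 : ∀ s ∈ T, 0 < ‖∑ i, (s i : ℂ) * z i‖ ∧ ‖∑ i, (s i : ℂ) * z i‖ ≤ P ∧
      P < 2 ^ M * ‖∑ i, (s i : ℂ) * z i‖) :
    ∑ s ∈ T, Real.log (P / ‖∑ i, (s i : ℂ) * z i‖) ≤
      (2 * (X : ℝ) + 1) ^ m * (4 * (P / ‖z 0‖) + M) := by
  classical
  have h2 : ∀ s ∈ T, Real.log (P / ‖∑ i, (s i : ℂ) * z i‖) ≤
      ∑ k ∈ Finset.range M, if ‖∑ i, (s i : ℂ) * z i‖ ≤ P * (1 / 2) ^ k then (1 : ℝ) else 0 := by
    intro s hs
    obtain ⟨h3, h4, h5⟩ := h1 s hs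
    refine (log_le _ ((one_le_div h3).2 h4) M ((div_lt_iff₀ h3).2 h5)).trans (le_of_eq ?_)
    refine Finset.sum_congr rfl fun k _ => ?_
    have h6 : (2 : ℝ) ^ k ≤ P / ‖∑ i, (s i : ℂ) * z i‖ ↔
        ‖∑ i, (s i : ℂ) * z i‖ ≤ P * (1 / 2) ^ k := by
      rw [le_div_iff₀ h3, one_div, inv_pow, ← div_eq_mul_inv, le_div_iff₀ (by positivity), mul_comm]
    simp only [h6]
  refine (Finset.sum_le_sum h2).trans ?_
  rw [Finset.sum_comm]
  have h3 : ∀ k ∈ Finset.range M,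
      (∑ s ∈ T, if ‖∑ i, (s i : ℂ) * z i‖ ≤ P * (1 / 2) ^ k then (1 : ℝ) else 0) ≤
      (2 * (X : ℝ) + 1) ^ m * (2 * (P * (1 / 2) ^ k / ‖z 0‖) + 1) := by
    intro k _
    rw [← Finset.sum_filter, Finset.sum_const, nsmul_eq_mul, mul_one]
    refine le_trans (Nat.cast_le.2 (Finset.card_le_card ?_))
      (slab z hz X (P * (1 / 2) ^ k) (by positivity))
    intro s hs
    rw [Finset.mem_filter] at hs ⊢
    exact ⟨hT hs.1, hs.2⟩
  refine (Finset.sum_le_sum h3).trans ?_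
  rw [← Finset.mul_sum]
  refine mul_le_mul_of_nonneg_left ?_ (by positivity)
  rw [Finset.sum_add_distrib, Finset.sum_const, Finset.card_range, nsmul_eq_mul, mul_one]
  have h4 : ∑ k ∈ Finset.range M, 2 * (P * (1 / 2) ^ k / ‖z 0‖) =
      2 * (P / ‖z 0‖) * ∑ k ∈ Finset.range M, ((1 : ℝ) / 2) ^ k := by
    rw [Finset.mul_sum]
    refine Finset.sum_congr rfl fun k _ => ?_
    ring
  rw [h4]
  have h5 := geom_le M
  have h6 : 0 ≤ P / ‖z 0‖ := by positivity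
  nlinarith

end NrmA

open NrmA

section Nrm

variable {K : Type*} [Field K] [NumberField K] {n : ℕ}

/-- the norm is the product over the embeddings -/
theorem nrm_prod (a : 𝓞 K) : (Ideal.absNorm (Ideal.span {a}) : ℝ) =
    ∏ σ : K →ₐ[ℚ] ℂ, ‖σ (a : K)‖ := by
  rw [Ideal.absNorm_span_singleton]
  have h1 := Algebra.norm_eq_prod_embeddings ℚ ℂ (a : K)
  have h2 : Algebra.norm ℚ (a : K) = ((Algebra.norm ℤ a : ℤ) : ℚ) := (Algebra.coe_norm_int a).symm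
  rw [h2] at h1
  rw [← norm_prod, ← h1, Nat.cast_natAbs]
  simp

theorem card_emb (ω : Module.Basis (Fin n) ℤ (𝓞 K)) : Fintype.card (K →ₐ[ℚ] ℂ) = n := by
  rw [AlgHom.card, ← RingOfIntegers.rank, Module.finrank_eq_card_basis ω, Fintype.card_fin]

theorem el_map (ω : Module.Basis (Fin n) ℤ (𝓞 K)) (σ : K →ₐ[ℚ] ℂ) (s : Fin n → ℤ) :
    σ ((el ω s : 𝓞 K) : K) = ∑ i, (s i : ℂ) * σ ((ω i : 𝓞 K) : K) := by
  have h : ((el ω s : 𝓞 K) : K) = ∑ i, (s i : K) * ((ω i : 𝓞 K) : K) := by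
    unfold el
    change algebraMap (𝓞 K) K (∑ j, s j • ω j) = _
    rw [map_sum]
    refine Finset.sum_congr rfl fun i _ => ?_
    rw [zsmul_eq_mul, map_mul, map_intCast]
  rw [h, map_sum]
  refine Finset.sum_congr rfl fun i _ => ?_
  rw [map_mul, map_intCast]

omit [NumberField K] in
theorem el_ne (ω : Module.Basis (Fin n) ℤ (𝓞 K)) {s : Fin n → ℤ} (hs : s ≠ 0) : el ω s ≠ 0 := by
  intro h
  apply hs
  funext i
  exact Fintype.linearIndependent_iff.1 ω.linearIndependent s h i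

/-- the constant -/
noncomputable def Bc (ω : Module.Basis (Fin n) ℤ (𝓞 K)) : ℝ :=
  1 + ∑ σ : K →ₐ[ℚ] ℂ, ∑ i, ‖σ ((ω i : 𝓞 K) : K)‖

theorem one_le_Bc (ω : Module.Basis (Fin n) ℤ (𝓞 K)) : 1 ≤ Bc ω := by
  unfold Bc
  have : 0 ≤ ∑ σ : K →ₐ[ℚ] ℂ, ∑ i, ‖σ ((ω i : 𝓞 K) : K)‖ :=
    Finset.sum_nonneg fun σ _ => Finset.sum_nonneg fun i _ => norm_nonneg _
  linarith

theorem el_le (ω : Module.Basis (Fin n) ℤ (𝓞 K)) (σ : K →ₐ[ℚ] ℂ) {X : ℕ} {s : Fin n → ℤ}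
    (hs : s ∈ Cube n X) : ‖σ ((el ω s : 𝓞 K) : K)‖ ≤ Bc ω * X := by
  rw [el_map]
  refine (norm_sum_le _ _).trans ?_
  have h1 : ∀ i, ‖(s i : ℂ) * σ ((ω i : 𝓞 K) : K)‖ ≤ X * ‖σ ((ω i : 𝓞 K) : K)‖ := by
    intro i
    rw [norm_mul, Complex.norm_intCast]
    refine mul_le_mul_of_nonneg_right ?_ (norm_nonneg _)
    unfold Cube at hs
    have h2 := Finset.mem_Icc.1 (Fintype.mem_piFinset.1 hs i)
    rw [abs_le]
    constructor
    · exact_mod_cast h2.1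
    · exact_mod_cast h2.2
  refine (Finset.sum_le_sum fun i _ => h1 i).trans ?_
  rw [← Finset.mul_sum, mul_comm]
  refine mul_le_mul_of_nonneg_right ?_ (Nat.cast_nonneg _)
  unfold Bc
  have h3 : ∑ i, ‖σ ((ω i : 𝓞 K) : K)‖ ≤ ∑ σ : K →ₐ[ℚ] ℂ, ∑ i, ‖σ ((ω i : 𝓞 K) : K)‖ :=
    Finset.single_le_sum (f := fun σ : K →ₐ[ℚ] ℂ => ∑ i, ‖σ ((ω i : 𝓞 K) : K)‖)
      (fun σ _ => Finset.sum_nonneg fun i _ => norm_nonneg _) (Finset.mem_univ σ)
  linarith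

theorem norm_up (ω : Module.Basis (Fin n) ℤ (𝓞 K)) : ∃ C : ℝ, 1 ≤ C ∧ ∀ X : ℕ, 1 ≤ X →
    ∀ s ∈ Cube n X, (Ideal.absNorm (Ideal.span {el ω s}) : ℝ) ≤ C * (X : ℝ) ^ n := by
  refine ⟨Bc ω ^ n, one_le_pow₀ (one_le_Bc ω), fun X _ s hs => ?_⟩
  rw [nrm_prod, ← mul_pow]
  calc ∏ σ : K →ₐ[ℚ] ℂ, ‖σ ((el ω s : 𝓞 K) : K)‖ ≤ ∏ _σ : K →ₐ[ℚ] ℂ, (Bc ω * X) :=
        Finset.prod_le_prod (fun σ _ => norm_nonneg _) fun σ _ => el_le ω σ hs
    _ = (Bc ω * X) ^ n := by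
        rw [Finset.prod_const, Finset.card_univ, card_emb ω]

theorem sum_low (ω : Module.Basis (Fin n) ℤ (𝓞 K)) : ∃ C : ℝ, ∀ X : ℕ, 1 ≤ X →
    (n * Real.log X - C) * (2 * (X : ℝ) + 1) ^ n ≤
      ∑ s ∈ (Cube n X).filter (fun s => s ≠ 0),
        Real.log (Ideal.absNorm (Ideal.span {el ω s}) : ℝ) := by
  classical
  obtain ⟨m, rfl⟩ : ∃ m, n = m + 1 := by
    have h1 : 0 < Fintype.card (K →ₐ[ℚ] ℂ) := by
      rw [AlgHom.card]
      exact Module.finrank_pos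
    rw [card_emb ω] at h1
    exact ⟨n - 1, by omega⟩
  set B := Bc ω with hB
  have hB1 : 1 ≤ B := one_le_Bc ω
  set z : (K →ₐ[ℚ] ℂ) → ℝ := fun σ => ‖σ ((ω 0 : 𝓞 K) : K)‖ with hz
  have hz0 : ∀ σ, 0 < z σ := by
    intro σ
    rw [hz]
    refine norm_pos_iff.2 ?_
    rw [map_ne_zero, RingOfIntegers.coe_ne_zero_iff]
    exact ω.ne_zero 0
  set C4 : ℝ := ∑ σ : K →ₐ[ℚ] ℂ, (4 * (B / z σ) + (m + 1) * (B + 1)) with hC4
  refine ⟨C4 + (m + 1) * B, fun X hX => ?_⟩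
  have hX1 : (1 : ℝ) ≤ X := by exact_mod_cast hX
  set P : ℝ := B * X with hP
  have hP1 : 1 ≤ P := one_le_mul_of_one_le_of_one_le hB1 hX1
  have hP0 : 0 < P := by linarith
  set M : ℕ := (m + 1) * (⌊P⌋₊ + 1) with hM
  set T := (Cube (m + 1) X).filter fun s => s ≠ 0 with hT
  set Y : ℝ := 2 * (X : ℝ) + 1 with hY
  have hY1 : 1 ≤ Y := by rw [hY]; linarith
  have hXY : (X : ℝ) ≤ Y := by rw [hY]; linarith
  have hPM : P ^ (m + 1) < 2 ^ M := by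
    have h1 : P < 2 ^ (⌊P⌋₊ + 1) := by
      have h2 := Nat.lt_floor_add_one P
      have h3 : ((⌊P⌋₊ + 1 : ℕ) : ℝ) < 2 ^ (⌊P⌋₊ + 1) := by
        exact_mod_cast Nat.lt_two_pow_self
      push_cast at h3
      linarith
    rw [hM, mul_comm, pow_mul]
    exact pow_lt_pow_left₀ h1 hP0.le (by omega)
  -- the embeddings are not small
  have hpos : ∀ s ∈ T, ∀ σ : K →ₐ[ℚ] ℂ, 0 < ‖σ ((el ω s : 𝓞 K) : K)‖ := by
    intro s hs σ
    rw [norm_pos_iff, map_ne_zero, RingOfIntegers.coe_ne_zero_iff]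
    exact el_ne ω (Finset.mem_filter.1 hs).2
  have hbig : ∀ s ∈ T, ∀ σ : K →ₐ[ℚ] ℂ, P < 2 ^ M * ‖σ ((el ω s : 𝓞 K) : K)‖ := by
    intro s hs σ
    have h1 : (1 : ℝ) ≤ ∏ σ : K →ₐ[ℚ] ℂ, ‖σ ((el ω s : 𝓞 K) : K)‖ := by
      rw [← nrm_prod]
      have h2 : 0 < Ideal.absNorm (Ideal.span {el ω s}) := by
        rw [Nat.pos_iff_ne_zero, Ne, Ideal.absNorm_eq_zero_iff, Ideal.span_singleton_eq_bot]
        exact el_ne ω (Finset.mem_filter.1 hs).2
      exact_mod_cast h2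
    rw [← Finset.mul_prod_erase _ _ (Finset.mem_univ σ)] at h1
    have h2 : ∏ τ ∈ Finset.univ.erase σ, ‖τ ((el ω s : 𝓞 K) : K)‖ ≤ P ^ m := by
      refine (Finset.prod_le_prod (fun τ _ => norm_nonneg _) fun τ _ =>
        el_le ω τ (Finset.mem_filter.1 hs).1).trans (le_of_eq ?_)
      rw [Finset.prod_const, Finset.card_erase_of_mem (Finset.mem_univ σ), Finset.card_univ,
        card_emb ω, Nat.add_sub_cancel]
    have h3 : 1 ≤ ‖σ ((el ω s : 𝓞 K) : K)‖ * P ^ m :=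
      h1.trans (mul_le_mul_of_nonneg_left h2 (norm_nonneg _))
    calc P = P * 1 := (mul_one P).symm
      _ ≤ P * (‖σ ((el ω s : 𝓞 K) : K)‖ * P ^ m) := mul_le_mul_of_nonneg_left h3 hP0.le
      _ = P ^ (m + 1) * ‖σ ((el ω s : 𝓞 K) : K)‖ := by ring
      _ < 2 ^ M * ‖σ ((el ω s : 𝓞 K) : K)‖ := mul_lt_mul_of_pos_right hPM (hpos s hs σ)
  have hform : ∀ σ : K →ₐ[ℚ] ℂ, ∑ s ∈ T, Real.log (P / ‖σ ((el ω s : 𝓞 K) : K)‖) ≤
      Y ^ m * (4 * (P / z σ) + M) := by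
    intro σ
    have h1 := sum_form (fun i => σ ((ω i : 𝓞 K) : K)) (norm_pos_iff.1 (hz0 σ)) X P hP0.le M T
      (Finset.filter_subset _ _) (fun s hs => by
        rw [← el_map]
        exact ⟨hpos s hs σ, el_le ω σ (Finset.mem_filter.1 hs).1, hbig s hs σ⟩)
    simp only [← el_map] at h1
    exact h1
  have hMle : (M : ℝ) ≤ (m + 1) * (B + 1) * Y := by
    have h1 : ((⌊P⌋₊ : ℕ) : ℝ) ≤ P := Nat.floor_le hP0.le
    rw [hM]
    push_cast
    have h2 : (⌊P⌋₊ : ℝ) + 1 ≤ (B + 1) * Y := by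
      have h3 : B * X ≤ B * Y := mul_le_mul_of_nonneg_left hXY (by linarith)
      rw [hP] at h1
      linarith
    have h3 : (0 : ℝ) ≤ (m : ℝ) + 1 := by positivity
    have h4 := mul_le_mul_of_nonneg_left h2 h3
    linarith
  have hT4 : ∑ σ : K →ₐ[ℚ] ℂ, ∑ s ∈ T, Real.log (P / ‖σ ((el ω s : 𝓞 K) : K)‖) ≤
      C4 * Y ^ (m + 1) := by
    rw [hC4, Finset.sum_mul]
    refine Finset.sum_le_sum fun σ _ => (hform σ).trans ?_
    rw [pow_succ, ← mul_assoc, mul_comm, mul_comm (4 * (B / z σ) + _) (Y ^ m), mul_assoc]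
    rw [mul_comm]
    refine mul_le_mul_of_nonneg_left ?_ (by positivity)
    have h1 : P / z σ ≤ B / z σ * Y := by
      rw [hP, div_mul_eq_mul_div]
      exact div_le_div_of_nonneg_right (mul_le_mul_of_nonneg_left hXY (by linarith)) (hz0 σ).le
    linarith
  -- the logarithm of the norm
  have hlog : ∀ s ∈ T, Real.log (Ideal.absNorm (Ideal.span {el ω s}) : ℝ) =
      (m + 1) * Real.log P - ∑ σ : K →ₐ[ℚ] ℂ, Real.log (P / ‖σ ((el ω s : 𝓞 K) : K)‖) := by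
    intro s hs
    rw [nrm_prod, Real.log_prod (fun σ _ => (hpos s hs σ).ne')]
    have h1 : ∀ σ : K →ₐ[ℚ] ℂ, Real.log (P / ‖σ ((el ω s : 𝓞 K) : K)‖) =
        Real.log P - Real.log ‖σ ((el ω s : 𝓞 K) : K)‖ := fun σ =>
      Real.log_div hP0.ne' (hpos s hs σ).ne'
    simp only [h1]
    rw [Finset.sum_sub_distrib, Finset.sum_const, Finset.card_univ, card_emb ω, nsmul_eq_mul]
    push_cast
    ring
  rw [Finset.sum_congr rfl hlog, Finset.sum_sub_distrib, Finset.sum_comm, Finset.sum_const,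
    nsmul_eq_mul]
  have hcard : (T.card : ℝ) = Y ^ (m + 1) - 1 := by
    have h0 : (0 : Fin (m + 1) → ℤ) ∈ Cube (m + 1) X := by
      unfold Cube
      rw [Fintype.mem_piFinset]
      intro i
      rw [Finset.mem_Icc]
      constructor
      · simp
      · simp
    have h1 : T = (Cube (m + 1) X).erase 0 := by
      rw [hT]
      ext s
      rw [Finset.mem_filter, Finset.mem_erase, and_comm]
    rw [h1, Finset.card_erase_of_mem h0, FAM.card_Cube, Nat.cast_sub]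
    · push_cast
      rfl
    · exact Nat.one_le_pow _ _ (by omega)
  rw [hcard]
  have hlX : Real.log X ≤ Real.log P := Real.log_le_log (by linarith) (by
    rw [hP]
    exact le_mul_of_one_le_left (by linarith) hB1)
  have hlP : Real.log P ≤ B * Y := by
    have h1 := Real.log_le_sub_one_of_pos hP0
    have h2 : P ≤ B * Y := mul_le_mul_of_nonneg_left hXY (by linarith)
    linarith
  have hYY : Y ≤ Y ^ (m + 1) := le_self_pow₀ hY1 (by omega)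
  have hYpos : 0 < Y ^ (m + 1) := by positivity
  have e1 : ((m : ℝ) + 1) * Real.log X * Y ^ (m + 1) ≤ ((m : ℝ) + 1) * Real.log P * Y ^ (m + 1) :=
    mul_le_mul_of_nonneg_right (mul_le_mul_of_nonneg_left hlX (by positivity)) hYpos.le
  have e2 : ((m : ℝ) + 1) * Real.log P ≤ ((m : ℝ) + 1) * B * Y ^ (m + 1) := by
    have h1 : Real.log P ≤ B * Y ^ (m + 1) :=
      hlP.trans (mul_le_mul_of_nonneg_left hYY (by linarith))
    have h2 := mul_le_mul_of_nonneg_left h1 (show (0 : ℝ) ≤ (m : ℝ) + 1 by positivity)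
    linarith
  push_cast
  nlinarith [e1, e2, hT4]

end Nrm

end Pool.Agent.NDE
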