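import Mathlib
import Pool.Agent.NDE.MerB
import Pool.Agent.NDE.Chv
import Pool.Agent.NDE.Lat
import Pool.Agent.NDE.Nrm
import Pool.Agent.NDE.Fac

set_option autoImplicit false

/-!
# NDE/Mer: Mertens' theorem for a number field
-/

namespace Pool.Agent.NDE

open NumberField IsDedekindDomain

theorem mertens (K : Type*) [Field K] [NumberField K] : ∃ C : ℝ, ∀ x : ℝ, 1 ≤ x →
    |∑ v ∈ up K x, Real.log (nm v) / nm v - Real.log x| ≤ C := by
  have hn : 0 < Module.finrank ℤ (𝓞 K) := Module.finrank_pos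
  have ω : Module.Basis (Fin (Module.finrank ℤ (𝓞 K))) ℤ (𝓞 K) := Module.finBasis ℤ (𝓞 K)
  obtain ⟨A, hA⟩ := mer_up hn ω (theta_up K) (pow_up K _ hn) (box ω) (norm_up ω) log_norm_ge
  obtain ⟨B, hB⟩ := mer_low hn ω (pow_up K _ hn) (sq_up K) (box ω) (norm_up ω) (sum_low ω)
    log_norm_le
  refine ⟨max A B, fun x hx => ?_⟩
  rw [abs_le]
  have h1 := hA x hx
  have h2 := hB x hx
  constructor
  · linarith [le_max_right A B]
  · linarith [le_max_left A B]

end Pool.Agent.NDE
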