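import Mathlib
import Pool.Agent.NDE.Mer

set_option autoImplicit false

/-!
# A lower bound of Chebyshev type, and monotonicity of positive lower natural density
-/

namespace Pool.Agent.NDE

open NumberField IsDedekindDomain

theorem pi_low (K : Type*) [Field K] [NumberField K] : ∃ c : ℝ, 0 < c ∧ ∃ X₀ : ℝ, ∀ x : ℝ,
    X₀ ≤ x → c * (x / Real.log x) ≤ ((up K x).card : ℝ) := by
  classical
  obtain ⟨C, hC⟩ := mertens K
  have hC0 : 0 ≤ C := le_trans (abs_nonneg _) (hC 1 le_rfl)
  set A : ℝ := Real.exp (2 * C + 1) with hA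
  have hA0 : 0 < A := Real.exp_pos _
  have hA1 : 1 < A := by
    rw [hA]
    exact Real.one_lt_exp_iff.mpr (by linarith)
  refine ⟨A⁻¹, inv_pos.mpr hA0, A + 3, fun x hx => ?_⟩
  have hx3 : 3 ≤ x := by linarith
  have hx0 : 0 < x := by linarith
  have hxA : A ≤ x := by linarith
  have hlog : 0 < Real.log x := Real.log_pos (by linarith)
  have hy1 : 1 ≤ x / A := by
    rw [le_div_iff₀ hA0]
    linarith
  have hyx : x / A ≤ x := div_le_self hx0.le hA1.le
  have hsub : up K (x / A) ⊆ up K x := fun v hv => mem_up.mpr ((mem_up.mp hv).trans hyx)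
  have h1 := abs_le.mp (hC x (by linarith))
  have h2 := abs_le.mp (hC (x / A) hy1)
  have h3 : Real.log (x / A) = Real.log x - (2 * C + 1) := by
    rw [Real.log_div hx0.ne' hA0.ne', hA, Real.log_exp]
  have h4 := Finset.sum_sdiff (f := fun v : HeightOneSpectrum (𝓞 K) => Real.log (nm v) / nm v) hsub
  have h5 : 1 ≤ ∑ v ∈ up K x \ up K (x / A), Real.log (nm v) / nm v := by
    rw [h3] at h2
    have e1 := h1.1
    have e2 := h2.2
    linarith
  have h6 : ∑ v ∈ up K x \ up K (x / A), Real.log (nm v) / nm v ≤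
      ∑ v ∈ up K x \ up K (x / A), Real.log x / (x / A) := by
    refine Finset.sum_le_sum fun v hv => ?_
    rw [Finset.mem_sdiff, mem_up, mem_up, not_le] at hv
    have hv0 : 0 < x / A := by linarith
    exact div_le_div₀ hlog.le (Real.log_le_log (by linarith [two_le_nm v]) hv.1) hv0 hv.2.le
  rw [Finset.sum_const, nsmul_eq_mul] at h6
  have h7 : (((up K x \ up K (x / A)).card : ℕ) : ℝ) ≤ ((up K x).card : ℝ) := by
    exact_mod_cast Finset.card_le_card Finset.sdiff_subset
  have h8 : (1 : ℝ) ≤ ((up K x).card : ℝ) * (Real.log x / (x / A)) :=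
    (h5.trans h6).trans (mul_le_mul_of_nonneg_right h7 (by positivity))
  have h9 : Real.log x / (x / A) = A * Real.log x / x := by
    field_simp
  rw [h9, ← mul_div_assoc, le_div_iff₀ hx0, one_mul] at h8
  rw [inv_mul_le_iff₀ hA0, div_le_iff₀ hlog]
  calc x ≤ ((up K x).card : ℝ) * (A * Real.log x) := h8
    _ = A * ((up K x).card : ℝ) * Real.log x := by ring

theorem card_large (K : Type*) [Field K] [NumberField K] (m : ℝ) : ∃ X₀ : ℝ, ∀ x : ℝ,
    X₀ ≤ x → m ≤ ((up K x).card : ℝ) := by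
  obtain ⟨c, hc, X₀, h⟩ := pi_low K
  refine ⟨max (max X₀ 2) ((2 * |m| / c) ^ 2), fun x hx => ?_⟩
  have hx1 : X₀ ≤ x := ((le_max_left _ _).trans (le_max_left _ _)).trans hx
  have hx2 : 2 ≤ x := ((le_max_right _ _).trans (le_max_left _ _)).trans hx
  have hx3 : (2 * |m| / c) ^ 2 ≤ x := (le_max_right _ _).trans hx
  have hx0 : 0 < x := by linarith
  have hs : 0 < Real.sqrt x := Real.sqrt_pos.mpr hx0
  have hlog : 0 < Real.log x := Real.log_pos (by linarith)
  have h1 : Real.log x ≤ 2 * Real.sqrt x := by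
    have e1 : Real.log x = 2 * Real.log (Real.sqrt x) := by
      rw [Real.log_sqrt hx0.le]
      ring
    have e2 : Real.log (Real.sqrt x) ≤ Real.sqrt x - 1 := Real.log_le_sub_one_of_pos hs
    linarith
  have h2 : 2 * |m| / c ≤ Real.sqrt x := Real.le_sqrt_of_sq_le hx3
  have h3 : Real.sqrt x / 2 ≤ x / Real.log x := by
    rw [div_le_div_iff₀ (by norm_num) hlog]
    have e3 : Real.sqrt x * Real.sqrt x = x := Real.mul_self_sqrt hx0.le
    nlinarith
  have h4 : |m| ≤ c * (Real.sqrt x / 2) := by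
    rw [div_le_iff₀ hc] at h2
    linarith
  calc m ≤ |m| := le_abs_self m
    _ ≤ c * (Real.sqrt x / 2) := h4
    _ ≤ c * (x / Real.log x) := mul_le_mul_of_nonneg_left h3 hc.le
    _ ≤ ((up K x).card : ℝ) := h x hx1

theorem NatDens.mono {K : Type*} [Field K] [NumberField K]
    {S T B : Set (HeightOneSpectrum (𝓞 K))} (h : NatDens S) (hB : B.Finite) (hST : S ⊆ T ∪ B) :
    NatDens T := by
  classical
  obtain ⟨c, hc, X₀, hx⟩ := h
  obtain ⟨X₁, hX₁⟩ := card_large K (2 * (hB.toFinset.card : ℝ) / c)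
  refine ⟨c / 2, by positivity, max X₀ X₁, fun x hxx => ?_⟩
  have h1 := hx x ((le_max_left _ _).trans hxx)
  have h2 := hX₁ x ((le_max_right _ _).trans hxx)
  rw [div_le_iff₀ hc] at h2
  have h3 : ((up K x).filter fun v => v ∈ S) ⊆
      ((up K x).filter fun v => v ∈ T) ∪ hB.toFinset := by
    intro v hv
    rw [Finset.mem_filter] at hv
    rw [Finset.mem_union, Finset.mem_filter, Set.Finite.mem_toFinset]
    rcases hST hv.2 with h | h
    · exact Or.inl ⟨hv.1, h⟩
    · exact Or.inr h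
  have h4 : ((((up K x).filter fun v => v ∈ S).card : ℕ) : ℝ) ≤
      (((up K x).filter fun v => v ∈ T).card : ℝ) + (hB.toFinset.card : ℝ) := by
    exact_mod_cast (Finset.card_le_card h3).trans (Finset.card_union_le _ _)
  linarith

end Pool.Agent.NDE
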