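import Mathlib
import Pool.Agent.NDE.MerA
import Pool.Agent.AAP.Defs

set_option autoImplicit false

/-!
# NDE/TurA: the sieve of Turan for vectors of algebraic integers in a box
-/

namespace Pool.Agent.NDE

open NumberField IsDedekindDomain
open Pool.Agent.FAM (Cube)
open Pool.Agent.AAP (vc)

section tur

variable {K : Type} [Field K] [NumberField K] {r : ℕ}

theorem tur_finite (v : HeightOneSpectrum (𝓞 K)) : Finite (𝓞 K ⧸ v.asIdeal) := by
  have h : Ideal.absNorm v.asIdeal ≠ 0 := by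
    rw [Ne, Ideal.absNorm_eq_zero_iff]
    exact v.ne_bot
  exact (Ideal.absNorm_ne_zero_iff v.asIdeal).1 h

/-- The vectors modulo `v w` in the two given sets. -/
def turSet (v w : HeightOneSpectrum (𝓞 K)) (A : Set (Fin r → 𝓞 K ⧸ v.asIdeal))
    (B : Set (Fin r → 𝓞 K ⧸ w.asIdeal)) : Set (Fin r → 𝓞 K ⧸ v.asIdeal * w.asIdeal) :=
  {t | (fun i => Ideal.Quotient.factor (S := v.asIdeal * w.asIdeal) (T := v.asIdeal)
      Ideal.mul_le_left (t i)) ∈ A ∧
    (fun i => Ideal.Quotient.factor (S := v.asIdeal * w.asIdeal) (T := w.asIdeal)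
      Ideal.mul_le_right (t i)) ∈ B}

theorem tur_card {v w : HeightOneSpectrum (𝓞 K)} (hvw : v ≠ w)
    (A : Set (Fin r → 𝓞 K ⧸ v.asIdeal)) (B : Set (Fin r → 𝓞 K ⧸ w.asIdeal)) :
    (turSet v w A B).ncard ≤ A.ncard * B.ncard := by
  have := tur_finite v
  have := tur_finite w
  rw [← Set.ncard_prod]
  have hco : IsCoprime v.asIdeal w.asIdeal := by
    rw [Ideal.isCoprime_iff_sup_eq]
    exact Ideal.IsMaximal.coprime_of_ne v.isMaximal w.isMaximal
      (fun h => hvw (HeightOneSpectrum.ext h))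
  refine Set.ncard_le_ncard_of_injOn
    (fun t => ((fun i => Ideal.Quotient.factor (S := v.asIdeal * w.asIdeal) (T := v.asIdeal)
      Ideal.mul_le_left (t i)), (fun i => Ideal.Quotient.factor (S := v.asIdeal * w.asIdeal)
      (T := w.asIdeal) Ideal.mul_le_right (t i)))) ?_ ?_ (Set.toFinite _)
  · intro t ht
    exact ht
  · intro t _ t' _ h
    have h1 := congrArg Prod.fst h
    have h2 := congrArg Prod.snd h
    funext i
    have h3 := congrFun h1 i
    have h4 := congrFun h2 i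
    obtain ⟨x, hx⟩ := Ideal.Quotient.mk_surjective (t i)
    obtain ⟨y, hy⟩ := Ideal.Quotient.mk_surjective (t' i)
    simp only [← hx, ← hy, Ideal.Quotient.factor_mk] at h3 h4
    rw [← hx, ← hy]
    rw [Ideal.Quotient.eq] at h3 h4 ⊢
    rw [Ideal.mul_eq_inf_of_isCoprime hco]
    exact ⟨h3, h4⟩

theorem tur_le_one (v : HeightOneSpectrum (𝓞 K)) (A : Set (Fin r → 𝓞 K ⧸ v.asIdeal)) :
    (A.ncard : ℝ) / nm v ^ r ≤ 1 := by
  have := tur_finite v
  rw [div_le_one (pow_pos (mer_nm_pos v) r)]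
  have h1 : A.ncard ≤ Nat.card (Fin r → 𝓞 K ⧸ v.asIdeal) := Set.ncard_le_card A
  rw [Nat.card_fun, Nat.card_eq_fintype_card (α := Fin r), Fintype.card_fin] at h1
  have h2 : ((Nat.card (𝓞 K ⧸ v.asIdeal) : ℕ) : ℝ) = nm v := rfl
  rw [← h2]
  exact_mod_cast h1

end tur

open Classical in
theorem tur_of {K : Type} [Field K] [NumberField K] {r n R : ℕ}
    (ω : Module.Basis (Fin n) ℤ (𝓞 K)) (e : Fin R ≃ Fin r × Fin n) (δ : ℝ) (hδ : 0 < δ)
    (hvec : ∃ C : ℝ, 1 ≤ C ∧ ∀ (I : Ideal (𝓞 K)) (X : ℕ), I ≠ ⊥ →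
      C * (Ideal.absNorm I : ℝ) ^ ((n : ℝ)⁻¹) ≤ X → ∀ A : Set (Fin r → 𝓞 K ⧸ I),
      |(((Cube R X).filter fun s => (fun i => Ideal.Quotient.mk I (vc ω e s i)) ∈ A).card : ℝ) -
        (A.ncard : ℝ) / (Ideal.absNorm I : ℝ) ^ r * (2 * (X : ℝ) + 1) ^ R| ≤
      C * (Ideal.absNorm I : ℝ) ^ ((n : ℝ)⁻¹) / X *
        ((A.ncard : ℝ) / (Ideal.absNorm I : ℝ) ^ r * (2 * (X : ℝ) + 1) ^ R)) :
    ∃ C : ℝ, 0 < C ∧ ∀ (X : ℕ) (Q : ℝ) (V : Finset (HeightOneSpectrum (𝓞 K)))
      (A : ∀ v : HeightOneSpectrum (𝓞 K), Set (Fin r → 𝓞 K ⧸ v.asIdeal)), V.Nonempty →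
      (∀ v ∈ V, nm v ≤ Q) → (∀ v ∈ V, δ * nm v ^ r ≤ ((A v).ncard : ℝ)) →
      C * (Q ^ ((n : ℝ)⁻¹)) ^ 2 * V.card ≤ X →
      (((Cube R X).filter fun s =>
        ∀ v ∈ V, (fun i => Ideal.Quotient.mk v.asIdeal (vc ω e s i)) ∉ A v).card : ℝ) ≤
        C / V.card * (2 * (X : ℝ) + 1) ^ R := by
  obtain ⟨C0, hC0, hvec⟩ := hvec
  have h5δ : 0 < 5 / δ := by positivity
  refine ⟨C0 + 5 / δ, by linarith, fun X Q V A hV hQ hA hX => ?_⟩
  obtain ⟨v0, hv0⟩ := hV
  have hcard1 : 1 ≤ V.card := Finset.card_pos.2 ⟨v0, hv0⟩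
  have hcard1' : (1 : ℝ) ≤ V.card := by exact_mod_cast hcard1
  have hQ1 : 1 ≤ Q := by linarith [hQ v0 hv0, two_le_nm v0]
  have hq1 : 1 ≤ Q ^ ((n : ℝ)⁻¹) := Real.one_le_rpow hQ1 (by positivity)
  set q : ℝ := Q ^ ((n : ℝ)⁻¹) with hq
  have hq2 : q ≤ q ^ 2 := by nlinarith
  have hq2' : 0 < q ^ 2 := by positivity
  have hX0 : (0 : ℝ) < X := by
    refine lt_of_lt_of_le ?_ hX
    positivity
  set W : ℝ := (2 * (X : ℝ) + 1) ^ R with hW
  have hWpos : 0 < W := by positivity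
  set ε : ℝ := C0 * q ^ 2 / X with hε
  have hε0 : 0 ≤ ε := by positivity
  have hXV : C0 * q ^ 2 * V.card ≤ X := by
    refine le_trans ?_ hX
    have h1 : 0 ≤ 5 / δ * (q ^ 2 * V.card) := by positivity
    nlinarith
  have hεV : ε * V.card ≤ 1 := by
    rw [hε, div_mul_eq_mul_div, div_le_one hX0]
    exact hXV
  have hε1 : ε ≤ 1 := by nlinarith
  have hXq : C0 * q ^ 2 ≤ X := by
    refine le_trans ?_ hXV
    have h1 : 0 ≤ C0 * q ^ 2 := by positivity
    nlinarith
  set a : HeightOneSpectrum (𝓞 K) → ℝ := fun v => ((A v).ncard : ℝ) / nm v ^ r with ha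
  have ha0 : ∀ v, 0 ≤ a v := fun v => div_nonneg (Nat.cast_nonneg _) (pow_pos (mer_nm_pos v) r).le
  have ha1 : ∀ v, a v ≤ 1 := fun v => tur_le_one v (A v)
  have haδ : ∀ v ∈ V, δ ≤ a v := fun v hv => by
    rw [ha]
    show δ ≤ ((A v).ncard : ℝ) / nm v ^ r
    rw [le_div_iff₀ (pow_pos (mer_nm_pos v) r)]
    exact hA v hv
  set μ : ℝ := ∑ v ∈ V, a v with hμ
  have hμδ : δ * V.card ≤ μ := by
    have h1 := Finset.card_nsmul_le_sum V a δ haδ
    rw [nsmul_eq_mul] at h1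
    linarith
  have hμV : μ ≤ V.card := by
    have h1 := Finset.sum_le_card_nsmul V a 1 (fun v _ => ha1 v)
    rw [nsmul_eq_mul, mul_one] at h1
    exact h1
  have hμ0 : 0 < μ := by
    refine lt_of_lt_of_le ?_ hμδ
    positivity
  -- the indicator functions
  let ind : HeightOneSpectrum (𝓞 K) → (Fin R → ℤ) → ℝ := fun v s =>
    if (fun i => Ideal.Quotient.mk v.asIdeal (vc ω e s i)) ∈ A v then 1 else 0
  have hind : ∀ v s, ind v s =
      if (fun i => Ideal.Quotient.mk v.asIdeal (vc ω e s i)) ∈ A v then 1 else 0 :=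
    fun v s => rfl
  have hindsq : ∀ v s, ind v s * ind v s = ind v s := by
    intro v s
    rw [hind]
    split_ifs <;> norm_num
  have hcnt : ∀ v, ∑ s ∈ Cube R X, ind v s =
      (((Cube R X).filter fun s =>
        (fun i => Ideal.Quotient.mk v.asIdeal (vc ω e s i)) ∈ A v).card : ℝ) := by
    intro v
    simp only [hind]
    rw [Finset.sum_ite, Finset.sum_const_zero, add_zero, Finset.sum_const, nsmul_eq_mul, mul_one]
  have hnmn : ∀ v ∈ V, (nm v) ^ ((n : ℝ)⁻¹) ≤ q := fun v hv =>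
    Real.rpow_le_rpow (mer_nm_pos v).le (hQ v hv) (by positivity)
  -- first moments
  have hfirst : ∀ v ∈ V, |∑ s ∈ Cube R X, ind v s - a v * W| ≤ ε * (a v * W) := by
    intro v hv
    have h1 : C0 * (nm v) ^ ((n : ℝ)⁻¹) ≤ C0 * q ^ 2 :=
      mul_le_mul_of_nonneg_left ((hnmn v hv).trans hq2) (by linarith)
    have h2 := hvec v.asIdeal X v.ne_bot (h1.trans hXq) (A v)
    rw [hcnt]
    refine h2.trans (mul_le_mul_of_nonneg_right ?_ (mul_nonneg (ha0 v) hWpos.le))
    rw [hε]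
    exact div_le_div_of_nonneg_right h1 hX0.le
  -- second moments
  have hsecond : ∀ v ∈ V, ∀ w ∈ V, ∑ s ∈ Cube R X, ind v s * ind w s ≤
      (1 + ε) * W * (a v * a w + if v = w then a v else 0) := by
    intro v hv w hw
    by_cases hvw : v = w
    · subst hvw
      rw [if_pos rfl]
      simp only [hindsq]
      have h1 := (abs_le.1 (hfirst v hv)).2
      have h2 : 0 ≤ (1 + ε) * W * (a v * a v) := by
        have := ha0 v
        positivity
      nlinarith
    · rw [if_neg hvw, add_zero]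
      have h1 : ∑ s ∈ Cube R X, ind v s * ind w s =
          (((Cube R X).filter fun s =>
            (fun i => Ideal.Quotient.mk (v.asIdeal * w.asIdeal) (vc ω e s i)) ∈
              turSet v w (A v) (A w)).card : ℝ) := by
        rw [Finset.card_filter]
        push_cast
        refine Finset.sum_congr rfl fun s _ => ?_
        rw [hind, hind]
        have h2 : ((fun i => Ideal.Quotient.mk (v.asIdeal * w.asIdeal) (vc ω e s i)) ∈
            turSet v w (A v) (A w)) ↔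
            ((fun i => Ideal.Quotient.mk v.asIdeal (vc ω e s i)) ∈ A v ∧
              (fun i => Ideal.Quotient.mk w.asIdeal (vc ω e s i)) ∈ A w) := by
          unfold turSet
          simp only [Set.mem_ofPred_eq, Ideal.Quotient.factor_mk]
        by_cases h3 : (fun i => Ideal.Quotient.mk v.asIdeal (vc ω e s i)) ∈ A v
        · by_cases h4 : (fun i => Ideal.Quotient.mk w.asIdeal (vc ω e s i)) ∈ A w
          · rw [if_pos h3, if_pos h4, if_pos (h2.2 ⟨h3, h4⟩), mul_one]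
          · rw [if_neg h4, mul_zero, if_neg (fun h => h4 (h2.1 h).2)]
        · rw [if_neg h3, zero_mul, if_neg (fun h => h3 (h2.1 h).1)]
      have hI : v.asIdeal * w.asIdeal ≠ ⊥ := mul_ne_zero v.ne_bot w.ne_bot
      have hN : (Ideal.absNorm (v.asIdeal * w.asIdeal) : ℝ) = nm v * nm w := by
        rw [map_mul, Nat.cast_mul]
        rfl
      have hNq : (nm v * nm w) ^ ((n : ℝ)⁻¹) ≤ q ^ 2 := by
        rw [Real.mul_rpow (mer_nm_pos v).le (mer_nm_pos w).le, sq]
        exact mul_le_mul (hnmn v hv) (hnmn w hw) (Real.rpow_nonneg (mer_nm_pos w).le _)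
          (by linarith)
      have h5 : C0 * (nm v * nm w) ^ ((n : ℝ)⁻¹) ≤ C0 * q ^ 2 :=
        mul_le_mul_of_nonneg_left hNq (by linarith)
      have h6 := hvec (v.asIdeal * w.asIdeal) X hI (by rw [hN]; exact h5.trans hXq)
        (turSet v w (A v) (A w))
      rw [hN] at h6
      have h7 := (abs_le.1 h6).2
      have h8 : ((turSet v w (A v) (A w)).ncard : ℝ) / (nm v * nm w) ^ r ≤ a v * a w := by
        have h9 : ((turSet v w (A v) (A w)).ncard : ℝ) ≤ (A v).ncard * (A w).ncard := by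
          exact_mod_cast tur_card hvw (A v) (A w)
        have h10 : a v * a w = (A v).ncard * (A w).ncard / (nm v * nm w) ^ r := by
          rw [ha]
          show ((A v).ncard : ℝ) / nm v ^ r * (((A w).ncard : ℝ) / nm w ^ r) = _
          rw [mul_pow, div_mul_div_comm]
        rw [h10]
        exact div_le_div_of_nonneg_right h9
          (pow_nonneg (mul_nonneg (mer_nm_pos v).le (mer_nm_pos w).le) r)
      have h11 : C0 * (nm v * nm w) ^ ((n : ℝ)⁻¹) / X ≤ ε := by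
        rw [hε]
        exact div_le_div_of_nonneg_right h5 hX0.le
      rw [h1]
      set β : ℝ := ((turSet v w (A v) (A w)).ncard : ℝ) / (nm v * nm w) ^ r with hβ
      have hβ0 : 0 ≤ β := div_nonneg (Nat.cast_nonneg _)
        (pow_nonneg (mul_nonneg (mer_nm_pos v).le (mer_nm_pos w).le) r)
      have h12 : C0 * (nm v * nm w) ^ ((n : ℝ)⁻¹) / X * (β * W) ≤ ε * (β * W) :=
        mul_le_mul_of_nonneg_right h11 (mul_nonneg hβ0 hWpos.le)
      have h13 : β * W ≤ a v * a w * W := mul_le_mul_of_nonneg_right h8 hWpos.le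
      have h14 : (1 + ε) * (β * W) ≤ (1 + ε) * (a v * a w * W) :=
        mul_le_mul_of_nonneg_left h13 (by linarith)
      calc (((Cube R X).filter fun s =>
            (fun i => Ideal.Quotient.mk (v.asIdeal * w.asIdeal) (vc ω e s i)) ∈
              turSet v w (A v) (A w)).card : ℝ) ≤ (1 + ε) * (β * W) := by linarith
        _ ≤ (1 + ε) * (a v * a w * W) := h14
        _ = (1 + ε) * W * (a v * a w) := by ring
  -- the variance
  let f : (Fin R → ℤ) → ℝ := fun s => ∑ v ∈ V, ind v s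
  have hf : ∀ s, f s = ∑ v ∈ V, ind v s := fun s => rfl
  have hsum1 : (1 - ε) * W * μ ≤ ∑ s ∈ Cube R X, f s := by
    simp only [hf]
    rw [Finset.sum_comm, hμ, Finset.mul_sum]
    refine Finset.sum_le_sum fun v hv => ?_
    have h1 := (abs_le.1 (hfirst v hv)).1
    nlinarith
  have hsum2 : ∑ s ∈ Cube R X, f s ^ 2 ≤ (1 + ε) * W * (μ ^ 2 + μ) := by
    have h1 : ∑ s ∈ Cube R X, f s ^ 2 =
        ∑ v ∈ V, ∑ w ∈ V, ∑ s ∈ Cube R X, ind v s * ind w s := by
      have h2 : ∀ s, f s ^ 2 = ∑ v ∈ V, ∑ w ∈ V, ind v s * ind w s := by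
        intro s
        rw [hf, sq, Finset.sum_mul_sum]
      simp only [h2]
      rw [Finset.sum_comm]
      refine Finset.sum_congr rfl fun v _ => ?_
      rw [Finset.sum_comm]
    rw [h1]
    have h3 : ∑ v ∈ V, ∑ w ∈ V, ∑ s ∈ Cube R X, ind v s * ind w s ≤
        ∑ v ∈ V, ∑ w ∈ V, (1 + ε) * W * (a v * a w + if v = w then a v else 0) :=
      Finset.sum_le_sum fun v hv => Finset.sum_le_sum fun w hw => hsecond v hv w hw
    refine h3.trans (le_of_eq ?_)
    have h4 : ∀ v ∈ V, ∑ w ∈ V, (1 + ε) * W * (a v * a w + if v = w then a v else 0) =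
        (1 + ε) * W * (a v * μ + a v) := by
      intro v hv
      rw [← Finset.mul_sum, Finset.sum_add_distrib, ← Finset.mul_sum, Finset.sum_ite_eq,
        if_pos hv]
    rw [Finset.sum_congr rfl h4, ← Finset.mul_sum, Finset.sum_add_distrib, ← Finset.sum_mul]
    ring
  have hvar : ∑ s ∈ Cube R X, (f s - μ) ^ 2 ≤ W * (5 * μ) := by
    have h1 : ∑ s ∈ Cube R X, (f s - μ) ^ 2 =
        ∑ s ∈ Cube R X, f s ^ 2 - 2 * μ * ∑ s ∈ Cube R X, f s + W * μ ^ 2 := by
      have h2 : ∀ s, (f s - μ) ^ 2 = f s ^ 2 - 2 * μ * f s + μ ^ 2 := fun s => by ring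
      simp only [h2]
      rw [Finset.sum_add_distrib, Finset.sum_sub_distrib, ← Finset.mul_sum, Finset.sum_const,
        nsmul_eq_mul, FAM.card_Cube]
      push_cast
      rfl
    rw [h1]
    have h3 : 2 * μ * ((1 - ε) * W * μ) ≤ 2 * μ * ∑ s ∈ Cube R X, f s :=
      mul_le_mul_of_nonneg_left hsum1 (by linarith)
    have h4 : ε * μ ≤ 1 := (mul_le_mul_of_nonneg_left hμV hε0).trans hεV
    have h5 : (1 + ε) * (μ ^ 2 + μ) - 2 * (1 - ε) * μ ^ 2 + μ ^ 2 ≤ 5 * μ := by
      have h6 : ε * μ * μ ≤ 1 * μ := mul_le_mul_of_nonneg_right h4 hμ0.le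
      have h7 : ε * μ ≤ 1 * μ := mul_le_mul_of_nonneg_right hε1 hμ0.le
      nlinarith
    have h8 := mul_le_mul_of_nonneg_left h5 hWpos.le
    nlinarith
  -- the exceptional set
  set N0 : ℝ := (((Cube R X).filter fun s =>
        ∀ v ∈ V, (fun i => Ideal.Quotient.mk v.asIdeal (vc ω e s i)) ∉ A v).card : ℝ) with hN0
  have hN0μ : N0 * μ ^ 2 ≤ ∑ s ∈ Cube R X, (f s - μ) ^ 2 := by
    have h1 : ∑ s ∈ (Cube R X).filter (fun s =>
        ∀ v ∈ V, (fun i => Ideal.Quotient.mk v.asIdeal (vc ω e s i)) ∉ A v), (f s - μ) ^ 2 =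
        N0 * μ ^ 2 := by
      rw [hN0, ← nsmul_eq_mul, ← Finset.sum_const]
      refine Finset.sum_congr rfl fun s hs => ?_
      have h2 : f s = 0 := by
        rw [hf]
        refine Finset.sum_eq_zero fun v hv => ?_
        rw [hind, if_neg ((Finset.mem_filter.1 hs).2 v hv)]
      rw [h2]
      ring
    rw [← h1]
    exact Finset.sum_le_sum_of_subset_of_nonneg (Finset.filter_subset _ _)
      (fun s _ _ => sq_nonneg _)
  have h1 : N0 * μ ≤ 5 * W := by
    have h2 : (N0 * μ) * μ ≤ (5 * W) * μ := by nlinarith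
    exact le_of_mul_le_mul_right h2 hμ0
  have hN00 : 0 ≤ N0 := Nat.cast_nonneg _
  have h3 : N0 * (δ * V.card) ≤ 5 * W := (mul_le_mul_of_nonneg_left hμδ hN00).trans h1
  have hVpos : (0 : ℝ) < V.card := by linarith
  have h4 : N0 ≤ 5 / δ / V.card * W := by
    rw [div_div, div_mul_eq_mul_div, le_div_iff₀ (by positivity)]
    exact h3
  refine h4.trans (mul_le_mul_of_nonneg_right ?_ hWpos.le)
  exact div_le_div_of_nonneg_right (by linarith) hVpos.le

end Pool.Agent.NDE
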