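import Mathlib
import Pool.Agent.NDE.Lat
import Pool.Agent.AAP.Defs

set_option autoImplicit false

/-!
# Vectors in residue classes, in a box
-/

namespace Pool.Agent.NDE

open NumberField IsDedekindDomain
open Pool.Agent.FAM (Cube)
open Pool.Agent.AAP (vc)

section Vec

open Classical in
/-- upper bound for the number of the points of a box in a union of cosets -/
theorem vec_upper {R : ℕ} {Q : Type*} [AddCommGroup Q] [Finite Q] (π : (Fin R → ℤ) →+ Q) {E : ℕ}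
    (hE : ∀ q : Q, ∃ ρ : Fin R → ℤ, π ρ = q ∧ ∀ i, |ρ i| ≤ E) (X : ℕ) (A : Set Q) :
    Nat.card Q * ((Cube R X).filter fun s => π s ∈ A).card ≤ A.ncard * (2 * (X + E) + 1) ^ R := by
  have := Fintype.ofFinite Q
  choose r hr1 hr2 using hE
  rw [Nat.card_eq_fintype_card, Set.ncard_eq_toFinset_card', ← FAM.card_Cube R (X + E),
    ← Finset.card_univ, ← Finset.card_product, ← Finset.card_product]
  refine Finset.card_le_card_of_injOn (fun p : Q × (Fin R → ℤ) => (π p.2, p.2 + r p.1)) ?_ ?_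
  · rintro ⟨q, s⟩ hp
    obtain ⟨h2, h5⟩ := Finset.mem_filter.1 (Finset.mem_product.1 (Finset.mem_coe.1 hp)).2
    rw [Finset.mem_coe, Finset.mem_product, Set.mem_toFinset, FAM.mem_Cube]
    refine ⟨h5, fun i => ?_⟩
    have h3 := (FAM.mem_Cube.1 h2) i
    have h4 := hr2 q i
    simp only [Pi.add_apply] at h3 ⊢
    push_cast
    exact (abs_add_le _ _).trans (add_le_add h3 h4)
  · rintro ⟨q, s⟩ _ ⟨q', s'⟩ _ h
    simp only [Prod.mk.injEq] at h
    obtain ⟨h1, h2⟩ := h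
    have h3 := congrArg π h2
    rw [map_add, map_add, hr1, hr1, h1] at h3
    have h4 : q = q' := add_left_cancel h3
    subst h4
    have h5 : s = s' := add_right_cancel h2
    rw [h5]

open Classical in
/-- lower bound for the number of the points of a box in a union of cosets -/
theorem vec_lower {R : ℕ} {Q : Type*} [AddCommGroup Q] [Finite Q] (π : (Fin R → ℤ) →+ Q) {E : ℕ}
    (hE : ∀ q : Q, ∃ ρ : Fin R → ℤ, π ρ = q ∧ ∀ i, |ρ i| ≤ E) {X : ℕ} (hX : E ≤ X) (A : Set Q) :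
    A.ncard * (2 * (X - E) + 1) ^ R ≤ Nat.card Q * ((Cube R X).filter fun s => π s ∈ A).card := by
  have := Fintype.ofFinite Q
  choose r hr1 hr2 using hE
  rw [Nat.card_eq_fintype_card, Set.ncard_eq_toFinset_card', ← FAM.card_Cube R (X - E),
    ← Finset.card_univ, ← Finset.card_product, ← Finset.card_product]
  refine Finset.card_le_card_of_injOn
    (fun p : Q × (Fin R → ℤ) => (π p.2 - p.1, p.2 - r (π p.2 - p.1))) ?_ ?_
  · rintro ⟨a, p⟩ hp
    obtain ⟨h1, h2⟩ := Finset.mem_product.1 (Finset.mem_coe.1 hp)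
    rw [Set.mem_toFinset] at h1
    rw [FAM.mem_Cube] at h2
    rw [Finset.mem_coe, Finset.mem_product, Finset.mem_filter, FAM.mem_Cube]
    refine ⟨Finset.mem_univ _, fun i => ?_, ?_⟩
    · have h3 := h2 i
      have h4 := hr2 (π p - a) i
      simp only [Pi.sub_apply] at h3 ⊢
      rw [Nat.cast_sub hX] at h3
      have h5 := abs_sub (p i) (r (π p - a) i)
      linarith
    · simp only at h1 ⊢
      rw [map_sub, hr1, sub_sub_cancel]
      exact h1
  · rintro ⟨a, p⟩ _ ⟨a', p'⟩ _ h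
    simp only [Prod.mk.injEq] at h
    obtain ⟨h1, h2⟩ := h
    rw [h1] at h2
    have h3 : p = p' := sub_left_injective h2
    rw [h3] at h1
    have h4 : a = a' := sub_right_injective h1
    rw [h3, h4]

theorem vec_pow_up (R : ℕ) {η : ℝ} (h0 : 0 ≤ η) (h1 : η ≤ 1) : (1 + η) ^ R ≤ 1 + 3 ^ R * η := by
  induction R with
  | zero => simp [h0]
  | succ R ih =>
    have h3 : (1 : ℝ) ≤ 3 ^ R := one_le_pow₀ (by norm_num)
    have h4 : (3 : ℝ) ^ R * η * η ≤ 3 ^ R * η := mul_le_of_le_one_right (by positivity) h1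
    have h5 : 1 * η ≤ 3 ^ R * η := mul_le_mul_of_nonneg_right h3 h0
    calc (1 + η) ^ (R + 1) = (1 + η) ^ R * (1 + η) := pow_succ _ _
      _ ≤ (1 + 3 ^ R * η) * (1 + η) := mul_le_mul_of_nonneg_right ih (by linarith)
      _ ≤ 1 + 3 ^ (R + 1) * η := by
        rw [pow_succ]
        nlinarith

theorem vec_pow_low (R : ℕ) {η : ℝ} (h0 : 0 ≤ η) (h1 : η ≤ 1) : 1 - 3 ^ R * η ≤ (1 - η) ^ R := by
  have h2 := one_add_mul_le_pow (a := -η) (by linarith) R
  have h3 : (R : ℝ) ≤ 3 ^ R := by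
    have : R < 3 ^ R := Nat.lt_pow_self (by norm_num)
    exact_mod_cast this.le
  have h4 : (R : ℝ) * η ≤ 3 ^ R * η := mul_le_mul_of_nonneg_right h3 h0
  rw [← sub_eq_add_neg] at h2
  linarith

/-- the reduction of the vectors, as an additive map -/
noncomputable def vecPi {K : Type} [Field K] [NumberField K] {r n R : ℕ} (ω : Fin n → 𝓞 K)
    (e : Fin R ≃ Fin r × Fin n) (I : Ideal (𝓞 K)) : (Fin R → ℤ) →+ (Fin r → 𝓞 K ⧸ I) where
  toFun s := fun i => Ideal.Quotient.mk I (vc ω e s i)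
  map_zero' := by
    funext i
    simp [vc]
  map_add' s t := by
    funext i
    simp [vc, add_smul, Finset.sum_add_distrib]

open Classical in
theorem vec_count {K : Type} [Field K] [NumberField K] {r n R : ℕ}
    (ω : Module.Basis (Fin n) ℤ (𝓞 K)) (e : Fin R ≃ Fin r × Fin n) :
    ∃ C : ℝ, 1 ≤ C ∧ ∀ (I : Ideal (𝓞 K)) (X : ℕ), I ≠ ⊥ →
      C * (Ideal.absNorm I : ℝ) ^ ((n : ℝ)⁻¹) ≤ X → ∀ A : Set (Fin r → 𝓞 K ⧸ I),
      |(((Cube R X).filter fun s => (fun i => Ideal.Quotient.mk I (vc ω e s i)) ∈ A).card : ℝ) -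
        (A.ncard : ℝ) / (Ideal.absNorm I : ℝ) ^ r * (2 * (X : ℝ) + 1) ^ R| ≤
      C * (Ideal.absNorm I : ℝ) ^ ((n : ℝ)⁻¹) / X *
        ((A.ncard : ℝ) / (Ideal.absNorm I : ℝ) ^ r * (2 * (X : ℝ) + 1) ^ R) := by
  have hn := lat_ne ω
  obtain ⟨C, hC, hrep⟩ := lat_rep ω
  have hC1 : (1 : ℝ) ≤ C := by exact_mod_cast hC
  have h3R : (1 : ℝ) ≤ 3 ^ R := one_le_pow₀ (by norm_num)
  refine ⟨C * 3 ^ R, by nlinarith, fun I X hI hX A => ?_⟩
  obtain ⟨t, ht⟩ : ∃ t : ℝ, t = (Ideal.absNorm I : ℝ) ^ ((n : ℝ)⁻¹) := ⟨_, rfl⟩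
  rw [← ht] at hX ⊢
  have hN0 : 0 < Ideal.absNorm I :=
    Nat.pos_of_ne_zero fun h => hI (Ideal.absNorm_eq_zero_iff.1 h)
  have hN0' : (0 : ℝ) < (Ideal.absNorm I : ℝ) := by exact_mod_cast hN0
  have ht0 : 0 < t := by rw [ht]; exact Real.rpow_pos_of_pos hN0' _
  have htn : t ^ n = (Ideal.absNorm I : ℝ) := by
    rw [ht]
    exact Real.rpow_inv_natCast_pow hN0'.le hn
  have hm : Ideal.absNorm I < (⌊t⌋₊ + 1) ^ n := by
    have h1 : (Ideal.absNorm I : ℝ) < ((⌊t⌋₊ + 1 : ℕ) : ℝ) ^ n := by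
      rw [← htn]
      exact pow_lt_pow_left₀ (by push_cast; exact Nat.lt_floor_add_one t) ht0.le hn
    exact_mod_cast h1
  have hE := hrep I hI ⌊t⌋₊ hm
  have hmt : ((⌊t⌋₊ : ℕ) : ℝ) ≤ t := Nat.floor_le ht0.le
  obtain ⟨E, hEd⟩ : ∃ E : ℕ, E = C * ⌊t⌋₊ := ⟨_, rfl⟩
  rw [← hEd] at hE
  have hEt : (E : ℝ) ≤ C * t := by
    rw [hEd]
    push_cast
    exact mul_le_mul_of_nonneg_left hmt (by positivity)
  -- the finite group
  have hfin : Finite (𝓞 K ⧸ I) := Ideal.finiteQuotientOfFreeOfNeBot I hI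
  have hcard : Nat.card (Fin r → 𝓞 K ⧸ I) = Ideal.absNorm I ^ r := by
    rw [Nat.card_fun, Ideal.absNorm_apply, Submodule.cardQuot_apply, Nat.card_eq_fintype_card
      (α := Fin r), Fintype.card_fin]
  have hE' : ∀ q : Fin r → 𝓞 K ⧸ I, ∃ ρ : Fin R → ℤ, vecPi ω e I ρ = q ∧ ∀ i, |ρ i| ≤ E := by
    intro q
    choose b hb using fun i => Ideal.Quotient.mk_surjective (q i)
    choose ρ hρ1 hρ2 using fun i => hE (b i)
    refine ⟨fun l => ρ (e l).1 (e l).2, ?_, fun l => hρ2 _ _⟩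
    funext i
    change Ideal.Quotient.mk I (vc ω e _ i) = q i
    have h1 : vc (⇑ω) e (fun l => ρ (e l).1 (e l).2) i = el ω (ρ i) := by
      simp [vc, el]
    rw [h1, ← hb i]
    exact (Ideal.Quotient.eq.2 (hρ1 i)).symm
  obtain ⟨c, hc⟩ : ∃ c : ℕ, c = ((Cube R X).filter fun s =>
    (fun i => Ideal.Quotient.mk I (vc ω e s i)) ∈ A).card := ⟨_, rfl⟩
  have hX0 : (0 : ℝ) < X := by
    have : 0 < (C : ℝ) * 3 ^ R * t := by positivity
    linarith
  have hEX : E ≤ X := by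
    have h1 : (E : ℝ) ≤ X := by
      refine hEt.trans (le_trans ?_ hX)
      have : (C : ℝ) * t * 1 ≤ C * t * 3 ^ R :=
        mul_le_mul_of_nonneg_left h3R (by positivity)
      linarith
    exact_mod_cast h1
  have hup := vec_upper (vecPi (⇑ω) e I) hE' X A
  have hlo := vec_lower (vecPi (⇑ω) e I) hE' hEX A
  have e1 : ((Cube R X).filter fun s => vecPi (⇑ω) e I s ∈ A).card = c := by
    rw [hc]
    rfl
  rw [hcard, e1] at hup hlo
  rw [← hc]
  -- the estimate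
  obtain ⟨η, hη⟩ : ∃ η : ℝ, η = C * t / X := ⟨_, rfl⟩
  have hη0 : 0 ≤ η := by rw [hη]; positivity
  have hη1 : η ≤ 1 := by
    rw [hη, div_le_one hX0]
    have : (C : ℝ) * t * 1 ≤ C * t * 3 ^ R :=
      mul_le_mul_of_nonneg_left h3R (by positivity)
    linarith
  have hEη : (E : ℝ) ≤ η * X := by
    rw [hη, div_mul_cancel₀ _ hX0.ne']
    exact hEt
  obtain ⟨N, hN⟩ : ∃ N : ℝ, N = (Ideal.absNorm I : ℝ) ^ r := ⟨_, rfl⟩
  have hNpos : 0 < N := by rw [hN]; positivity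
  have hup' : N * c ≤ A.ncard * (2 * (X + (E : ℝ)) + 1) ^ R := by
    rw [hN]
    exact_mod_cast hup
  have hlo' : A.ncard * (2 * (X - (E : ℝ)) + 1) ^ R ≤ N * c := by
    rw [hN, ← Nat.cast_sub hEX]
    exact_mod_cast hlo
  rw [← hN]
  obtain ⟨W, hW⟩ : ∃ W : ℝ, W = (2 * (X : ℝ) + 1) ^ R := ⟨_, rfl⟩
  have hW0 : 0 ≤ W := by rw [hW]; positivity
  have hA0 : (0 : ℝ) ≤ A.ncard := Nat.cast_nonneg _
  have h1 : (2 * (X + (E : ℝ)) + 1) ^ R ≤ (1 + 3 ^ R * η) * W := by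
    calc (2 * (X + (E : ℝ)) + 1) ^ R ≤ ((1 + η) * (2 * (X : ℝ) + 1)) ^ R := by
          refine pow_le_pow_left₀ (by positivity) ?_ R
          nlinarith
      _ = (1 + η) ^ R * W := by rw [mul_pow, hW]
      _ ≤ (1 + 3 ^ R * η) * W := mul_le_mul_of_nonneg_right (vec_pow_up R hη0 hη1) hW0
  have h2 : (1 - 3 ^ R * η) * W ≤ (2 * (X - (E : ℝ)) + 1) ^ R := by
    calc (1 - 3 ^ R * η) * W ≤ (1 - η) ^ R * W :=
          mul_le_mul_of_nonneg_right (vec_pow_low R hη0 hη1) hW0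
      _ = ((1 - η) * (2 * (X : ℝ) + 1)) ^ R := by rw [mul_pow, hW]
      _ ≤ (2 * (X - (E : ℝ)) + 1) ^ R := by
          refine pow_le_pow_left₀ (mul_nonneg (by linarith) (by positivity)) ?_ R
          nlinarith
  have e2 : (C : ℝ) * 3 ^ R * t / X = 3 ^ R * η := by rw [hη]; ring
  rw [← hW, e2, abs_sub_le_iff]
  have h3 : (c : ℝ) ≤ A.ncard / N * ((1 + 3 ^ R * η) * W) := by
    rw [div_mul_eq_mul_div, le_div_iff₀ hNpos, mul_comm]
    exact hup'.trans (mul_le_mul_of_nonneg_left h1 hA0)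
  have h4 : A.ncard / N * ((1 - 3 ^ R * η) * W) ≤ (c : ℝ) := by
    rw [div_mul_eq_mul_div, div_le_iff₀ hNpos, mul_comm (c : ℝ)]
    exact (mul_le_mul_of_nonneg_left h2 hA0).trans hlo'
  constructor
  · calc (c : ℝ) - A.ncard / N * W ≤ A.ncard / N * ((1 + 3 ^ R * η) * W) - A.ncard / N * W := by
          linarith
      _ = _ := by ring
  · calc A.ncard / N * W - (c : ℝ) ≤ A.ncard / N * W - A.ncard / N * ((1 - 3 ^ R * η) * W) := by
          linarith
      _ = _ := by ring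

end Vec

end Pool.Agent.NDE
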