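import Mathlib
import Pool.Agent.NDE.TurA
import Pool.Agent.NDE.Vec

set_option autoImplicit false

/-!
# NDE/Tur: the sieve of Turan for vectors of algebraic integers in a box
-/

namespace Pool.Agent.NDE

open NumberField IsDedekindDomain
open Pool.Agent.FAM (Cube)
open Pool.Agent.AAP (vc)

open Classical in
theorem turan {K : Type} [Field K] [NumberField K] {r n R : ℕ}
    (ω : Module.Basis (Fin n) ℤ (𝓞 K)) (e : Fin R ≃ Fin r × Fin n) (δ : ℝ) (hδ : 0 < δ) :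
    ∃ C : ℝ, 0 < C ∧ ∀ (X : ℕ) (Q : ℝ) (V : Finset (HeightOneSpectrum (𝓞 K)))
      (A : ∀ v : HeightOneSpectrum (𝓞 K), Set (Fin r → 𝓞 K ⧸ v.asIdeal)), V.Nonempty →
      (∀ v ∈ V, nm v ≤ Q) → (∀ v ∈ V, δ * nm v ^ r ≤ ((A v).ncard : ℝ)) →
      C * (Q ^ ((n : ℝ)⁻¹)) ^ 2 * V.card ≤ X →
      (((Cube R X).filter fun s =>
        ∀ v ∈ V, (fun i => Ideal.Quotient.mk v.asIdeal (vc ω e s i)) ∉ A v).card : ℝ) ≤
        C / V.card * (2 * (X : ℝ) + 1) ^ R :=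
  tur_of ω e δ hδ (vec_count ω e)

end Pool.Agent.NDE
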