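import Mathlib
import Pool.Agent.NDE.Mer
import Pool.Agent.TameArb.Cheb

set_option autoImplicit false

/-!
# NDE/Fix: the primes fixed by an automorphism have positive lower natural density
-/

namespace Pool.Agent.NDE

open NumberField IsDedekindDomain

namespace FixA

open Pool.Agent.TameArb.ChebAux Pool.Agent.Arb

section weight

variable {F : Type*} [Field F] [NumberField F]

/-- the weight of a prime -/
noncomputable def W (v : HeightOneSpectrum (𝓞 F)) : ℝ := Real.log (nm v) / nm v

lemma nm_pos (v : HeightOneSpectrum (𝓞 F)) : 0 < nm v := by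
  have := two_le_nm v
  linarith

lemma log_nonneg (v : HeightOneSpectrum (𝓞 F)) : 0 ≤ Real.log (nm v) :=
  Real.log_nonneg (by have := two_le_nm v; linarith)

lemma W_nonneg (v : HeightOneSpectrum (𝓞 F)) : 0 ≤ W v :=
  div_nonneg (log_nonneg v) (nm_pos v).le

lemma W_eq {F' : Type*} [Field F'] [NumberField F'] {v : HeightOneSpectrum (𝓞 F)}
    {v' : HeightOneSpectrum (𝓞 F')} (h : Ideal.absNorm v.asIdeal = Ideal.absNorm v'.asIdeal) :
    W v = W v' := by
  unfold W nm
  rw [h]

lemma W_sq {F' : Type*} [Field F'] [NumberField F'] {v : HeightOneSpectrum (𝓞 F)}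
    {v' : HeightOneSpectrum (𝓞 F')}
    (h : Ideal.absNorm v'.asIdeal ^ 2 ≤ Ideal.absNorm v.asIdeal) :
    W v ≤ 2 * (Real.log (nm v') / (nm v' * (nm v' - 1))) := by
  have h1 : nm v' ^ 2 ≤ nm v := by
    unfold nm
    exact_mod_cast h
  have h2 := two_le_nm v'
  have h4 : 4 ≤ nm v' ^ 2 := by nlinarith
  have he : Real.exp 1 ≤ 4 := by
    have := Real.exp_one_lt_d9
    linarith
  have h5 : Real.log (nm v) / nm v ≤ Real.log (nm v' ^ 2) / nm v' ^ 2 :=
    Real.log_div_self_antitoneOn (show Real.exp 1 ≤ nm v' ^ 2 by linarith)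
      (show Real.exp 1 ≤ nm v by linarith) h1
  have h6 : Real.log (nm v' ^ 2) / nm v' ^ 2 = 2 * (Real.log (nm v') / nm v' ^ 2) := by
    rw [Real.log_pow]
    push_cast
    ring
  unfold W
  rw [h6] at h5
  refine h5.trans (mul_le_mul_of_nonneg_left ?_ (by norm_num))
  apply div_le_div_of_nonneg_left (log_nonneg v')
  · nlinarith
  · nlinarith

end weight

variable {L : Type*} [Field L] [NumberField L]

open Classical in
/-- the comparison of the weighted sums over the primes of `L^(g^d)` and of `L^g` -/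
lemma compareN (g : L ≃+* L) (hgo : 0 < orderOf (g : RingAut L)) (d : ℕ) (hd0 : 0 < d)
    (hd : d ∣ orderOf (g : RingAut L))
    (Qc : HeightOneSpectrum (𝓞 (fixF g)) → HeightOneSpectrum (𝓞 L)) (hQc : ∀ q, dn g (Qc q) = q) :
    ∃ C : ℝ, ∀ x : ℝ,
      |∑ P ∈ up (fixF (g ^ d : L ≃+* L)) x, W P -
        d * ∑ q ∈ up (fixF g) x,
          (if Dv (SS g : RingAut (𝓞 L)) d (Qc q) then W q else 0)| ≤ C := by
  set S : RingAut (𝓞 L) := SS g with hS
  have hg1 : g ^ orderOf (g : RingAut L) = 1 := pow_orderOf_eq_one (g : RingAut L)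
  set Φ : Fin d × HeightOneSpectrum (𝓞 (fixF g)) →
      HeightOneSpectrum (𝓞 (fixF (g ^ d : L ≃+* L))) :=
    fun x => dn (g ^ d : L ≃+* L) (conj (S ^ (((x.1 : ℕ) : ℤ))) (Qc x.2)) with hΦ
  have hbelow : ∀ x, ((Φ x).asIdeal.comap (inclO g d)) = x.2.asIdeal := by
    intro x
    rw [hΦ]
    simp only
    rw [comap_inclO, dn_conj_pow, hQc]
  have hsurj : Function.Surjective Φ := by
    intro P
    obtain ⟨w', rfl⟩ := exists_above _ P
    obtain ⟨i, hi⟩ := surj g hgo hg1 d hd0 (Qc (dn g w')) w' (hQc _)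
    exact ⟨(i, dn g w'), hi.symm⟩
  have hq : ∀ x y, Φ x = Φ y → x.2 = y.2 := by
    intro x y h
    apply HeightOneSpectrum.ext
    rw [← hbelow x, ← hbelow y, h]
  obtain ⟨B, hBfin, hB⟩ := exceptional g d hd
  obtain ⟨D, hDpos, hD⟩ := sq_up (fixF g)
  -- norms
  have hnorm1 : ∀ x : Fin d × HeightOneSpectrum (𝓞 (fixF g)), Dv S d (Qc x.2) →
      Ideal.absNorm (Φ x).asIdeal = Ideal.absNorm x.2.asIdeal := by
    intro x hx
    have h1 := norm_eq g hgo hg1 d hd0 (conj (S ^ (((x.1 : ℕ) : ℤ))) (Qc x.2))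
      ((Dv_conj S d _ _).2 hx)
    rw [dn_conj_pow, hQc] at h1
    exact h1
  have hnorm2 : ∀ x : Fin d × HeightOneSpectrum (𝓞 (fixF g)), ¬ Dv S d (Qc x.2) →
      (Ideal.absNorm (Φ x).asIdeal = Ideal.absNorm x.2.asIdeal ∧ Φ x ∈ B) ∨
        Ideal.absNorm x.2.asIdeal ^ 2 ≤ Ideal.absNorm (Φ x).asIdeal := by
    intro x hx
    set w' := conj (S ^ (((x.1 : ℕ) : ℤ))) (Qc x.2) with hw'
    have hw'D : ¬ Dv S d w' := fun h => hx ((Dv_conj S d _ _).1 h)
    have hdn : dn g w' = x.2 := by
      rw [hw', dn_conj_pow, hQc]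
    by_cases hnorm : Ideal.absNorm (dn (g ^ d : L ≃+* L) w').asIdeal =
        Ideal.absNorm (dn g w').asIdeal
    · left
      have hmem : Φ x ∈ B := hB w' hw'D hnorm
      rw [hdn] at hnorm
      exact ⟨hnorm, hmem⟩
    · right
      have h1 := norm_sq g d w' hnorm
      rw [hdn] at h1
      exact h1
  have hnorm3 : ∀ x, nm x.2 ≤ nm (Φ x) := by
    intro x
    by_cases hx : Dv S d (Qc x.2)
    · unfold nm
      rw [hnorm1 x hx]
    · rcases hnorm2 x hx with h | h
      · unfold nm
        rw [h.1]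
      · have h1 : nm x.2 ^ 2 ≤ nm (Φ x) := by
          unfold nm
          exact_mod_cast h
        have h2 := two_le_nm x.2
        nlinarith
  choose σ hσ using hsurj
  have hσinj : Function.Injective σ := fun P P' h => by
    rw [← hσ P, ← hσ P', h]
  refine ⟨d * (2 * D) + ∑ P ∈ hBfin.toFinset, W P, fun x => ?_⟩
  have hD0 : 0 ≤ D := hDpos.le
  have hB0 : 0 ≤ ∑ P ∈ hBfin.toFinset, W P := Finset.sum_nonneg fun P _ => W_nonneg P
  have hprod : ∀ f : HeightOneSpectrum (𝓞 (fixF g)) → ℝ,
      ∑ y ∈ (Finset.univ : Finset (Fin d)) ×ˢ up (fixF g) x, f y.2 =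
        d * ∑ q ∈ up (fixF g) x, f q := by
    intro f
    rw [Finset.sum_product]
    simp
  -- upper bound
  have hU : ∑ P ∈ up (fixF (g ^ d : L ≃+* L)) x, W P ≤
      d * ∑ q ∈ up (fixF g) x, (if Dv S d (Qc q) then W q else 0) +
        (d * (2 * D) + ∑ P ∈ hBfin.toFinset, W P) := by
    have h1 : ∀ P ∈ up (fixF (g ^ d : L ≃+* L)) x, W P ≤
        ((if Dv S d (Qc (σ P).2) then W (σ P).2 else 0) +
          2 * (Real.log (nm (σ P).2) / (nm (σ P).2 * (nm (σ P).2 - 1)))) +
          (if P ∈ B then W P else 0) := by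
      intro P _
      have h2 := two_le_nm (σ P).2
      have h3 : 0 < nm (σ P).2 * (nm (σ P).2 - 1) := by nlinarith
      have h4 : 0 ≤ Real.log (nm (σ P).2) / (nm (σ P).2 * (nm (σ P).2 - 1)) :=
        div_nonneg (log_nonneg _) h3.le
      have h5 : 0 ≤ (if P ∈ B then W P else 0) := by
        split_ifs
        · exact W_nonneg P
        · exact le_rfl
      by_cases hx : Dv S d (Qc (σ P).2)
      · rw [if_pos hx]
        have h6 := W_eq (hnorm1 (σ P) hx)
        rw [hσ P] at h6
        linarith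
      · rw [if_neg hx]
        rcases hnorm2 (σ P) hx with h | h
        · have h7 : P ∈ B := by
            have := h.2
            rwa [hσ P] at this
          rw [if_pos h7]
          linarith
        · rw [hσ P] at h
          have h8 := W_sq h
          linarith
    have h2 : ∀ f : (Fin d × HeightOneSpectrum (𝓞 (fixF g))) → ℝ, (∀ y, 0 ≤ f y) →
        ∑ P ∈ up (fixF (g ^ d : L ≃+* L)) x, f (σ P) ≤
          ∑ y ∈ (Finset.univ : Finset (Fin d)) ×ˢ up (fixF g) x, f y := by
      intro f hf
      have h3 : ∑ P ∈ up (fixF (g ^ d : L ≃+* L)) x, f (σ P) =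
          ∑ y ∈ (up (fixF (g ^ d : L ≃+* L)) x).map ⟨σ, hσinj⟩, f y := by
        rw [Finset.sum_map]
        rfl
      rw [h3]
      apply Finset.sum_le_sum_of_subset_of_nonneg
      · intro y hy
        obtain ⟨P, hP, rfl⟩ := Finset.mem_map.1 hy
        rw [Finset.mem_product]
        refine ⟨Finset.mem_univ _, ?_⟩
        rw [mem_up] at hP ⊢
        have h4 := hnorm3 (σ P)
        rw [hσ P] at h4
        exact h4.trans hP
      · intro y _ _
        exact hf y
    refine (Finset.sum_le_sum h1).trans ?_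
    rw [Finset.sum_add_distrib]
    have h3 := h2 (fun y => (if Dv S d (Qc y.2) then W y.2 else 0) +
          2 * (Real.log (nm y.2) / (nm y.2 * (nm y.2 - 1)))) (fun y => by
      have h2 := two_le_nm y.2
      have h3 : 0 < nm y.2 * (nm y.2 - 1) := by nlinarith
      have h4 : 0 ≤ Real.log (nm y.2) / (nm y.2 * (nm y.2 - 1)) :=
        div_nonneg (log_nonneg _) h3.le
      have h5 : 0 ≤ (if Dv S d (Qc y.2) then W y.2 else 0) := by
        split_ifs
        · exact W_nonneg _
        · exact le_rfl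
      show 0 ≤ (if Dv S d (Qc y.2) then W y.2 else 0) +
          2 * (Real.log (nm y.2) / (nm y.2 * (nm y.2 - 1)))
      linarith)
    have h3' : ∑ q ∈ up (fixF g) x, ((if Dv S d (Qc q) then W q else 0) +
          2 * (Real.log (nm q) / (nm q * (nm q - 1)))) =
        ∑ q ∈ up (fixF g) x, (if Dv S d (Qc q) then W q else 0) +
          2 * ∑ q ∈ up (fixF g) x, Real.log (nm q) / (nm q * (nm q - 1)) := by
      rw [Finset.sum_add_distrib, Finset.mul_sum]
    rw [hprod (fun q => (if Dv S d (Qc q) then W q else 0) +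
          2 * (Real.log (nm q) / (nm q * (nm q - 1)))), h3', mul_add] at h3
    have h4 : ∑ P ∈ up (fixF (g ^ d : L ≃+* L)) x, (if P ∈ B then W P else 0) ≤
        ∑ P ∈ hBfin.toFinset, W P := by
      rw [← Finset.sum_filter]
      apply Finset.sum_le_sum_of_subset_of_nonneg
      · intro P hP
        rw [Finset.mem_filter] at hP
        rw [Set.Finite.mem_toFinset]
        exact hP.2
      · intro P _ _
        exact W_nonneg P
    have h5 : (d : ℝ) * (2 * ∑ q ∈ up (fixF g) x, Real.log (nm q) / (nm q * (nm q - 1))) ≤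
        d * (2 * D) :=
      mul_le_mul_of_nonneg_left (mul_le_mul_of_nonneg_left (hD x) (by norm_num))
        (Nat.cast_nonneg d)
    linarith
  -- lower bound
  have hL : d * ∑ q ∈ up (fixF g) x, (if Dv S d (Qc q) then W q else 0) ≤
      ∑ P ∈ up (fixF (g ^ d : L ≃+* L)) x, W P := by
    rw [← hprod (fun q => if Dv S d (Qc q) then W q else 0)]
    rw [← Finset.sum_filter (fun y : Fin d × HeightOneSpectrum (𝓞 (fixF g)) => Dv S d (Qc y.2))
      (fun y => W y.2)]
    have hinj : Set.InjOn Φ
        ((((Finset.univ : Finset (Fin d)) ×ˢ up (fixF g) x).filter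
          (fun y : Fin d × HeightOneSpectrum (𝓞 (fixF g)) => Dv S d (Qc y.2)) :
          Finset _) : Set (Fin d × HeightOneSpectrum (𝓞 (fixF g)))) := by
      intro y hy y' hy' h
      rw [Finset.mem_coe, Finset.mem_filter] at hy
      have h2 : y.2 = y'.2 := hq y y' h
      have h3 : y.1 = y'.1 := by
        apply inj g hgo hg1 d (Qc y.2) hy.2
        have h4 : Φ y = Φ y' := h
        rw [hΦ] at h4
        simp only at h4
        rw [← h2] at h4
        exact h4
      exact Prod.ext h3 h2
    have h1 : ∑ y ∈ ((Finset.univ : Finset (Fin d)) ×ˢ up (fixF g) x).filter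
          (fun y : Fin d × HeightOneSpectrum (𝓞 (fixF g)) => Dv S d (Qc y.2)), W y.2 =
        ∑ P ∈ (((Finset.univ : Finset (Fin d)) ×ˢ up (fixF g) x).filter
          (fun y : Fin d × HeightOneSpectrum (𝓞 (fixF g)) => Dv S d (Qc y.2))).image Φ, W P := by
      rw [Finset.sum_image hinj]
      apply Finset.sum_congr rfl
      intro y hy
      rw [Finset.mem_filter] at hy
      exact (W_eq (hnorm1 y hy.2)).symm
    rw [h1]
    apply Finset.sum_le_sum_of_subset_of_nonneg
    · intro P hP
      obtain ⟨y, hy, rfl⟩ := Finset.mem_image.1 hP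
      rw [Finset.mem_filter, Finset.mem_product, mem_up] at hy
      rw [mem_up]
      have h2 : nm (Φ y) = nm y.2 := by
        unfold nm
        rw [hnorm1 y hy.2]
      rw [h2]
      exact hy.1.2
    · intro P _ _
      exact W_nonneg P
  have h6 : 0 ≤ (d : ℝ) * (2 * D) := by positivity
  rw [abs_le]
  constructor
  · linarith
  · linarith

end FixA

open FixA Pool.Agent.TameArb.ChebAux Pool.Agent.Arb in
open Classical in
/-- The primes of `K` below the primes of `L` fixed by `g` have positive lower natural density. -/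
theorem fixed_nat (K L : Type*) [Field K] [NumberField K] [Field L] [NumberField L]
    [Algebra K L] (g : L ≃ₐ[K] L) (N : ℕ) (hN : 0 < N) (hg : g ^ N = 1) :
    NatDens {v : HeightOneSpectrum (𝓞 K) | ∃ w : HeightOneSpectrum (𝓞 L),
      w.under (𝓞 K) = v ∧ ∀ z : L, w.valuation L (g z) = w.valuation L z} := by
  set gr : L ≃+* L := g.toRingEquiv with hgr
  have hgrN : (gr : RingAut L) ^ N = 1 := by
    let fK : (L ≃ₐ[K] L) →* RingAut L :=
      { toFun := fun f => f.toRingEquiv
        map_one' := rfl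
        map_mul' := fun _ _ => rfl }
    have h1 : fK g = (gr : RingAut L) := rfl
    rw [← h1, ← map_pow, hg, map_one]
  set M := orderOf (gr : RingAut L) with hM
  have hMpos : 0 < M := by
    rw [hM, orderOf_pos_iff]
    exact isOfFinOrder_iff_pow_eq_one.2 ⟨N, hN, hgrN⟩
  set S : RingAut (𝓞 L) := SS gr with hS
  have hSM : S ^ M = 1 := SS_pow_N gr (pow_orderOf_eq_one (gr : RingAut L))
  choose Qc hQc using exists_above gr
  choose r hrM hrD hrS using fun q => exists_per S hSM (Qc q)
  -- estimates for the fields L^(g^d)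
  have hest : ∀ d ∈ M.divisors, ∃ D : ℝ, 0 ≤ D ∧ ∀ x : ℝ, 1 ≤ x →
      |Real.log x - d * ∑ q ∈ up (fixF gr) x,
          (if Dv S d (Qc q) then W q else 0)| ≤ D := by
    intro d hd
    have hdM := Nat.dvd_of_mem_divisors hd
    have hd0 := Nat.pos_of_mem_divisors hd
    obtain ⟨C1, hC1⟩ := compareN gr hMpos d hd0 hdM Qc hQc
    obtain ⟨C2, hC2⟩ := mertens (fixF (gr ^ d : L ≃+* L))
    have hC1' := (abs_nonneg _).trans (hC1 1)
    have hC2' := (abs_nonneg _).trans (hC2 1 le_rfl)
    refine ⟨C2 + C1, by linarith, fun x hx => ?_⟩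
    have h1 := hC1 x
    have h2 := hC2 x hx
    rw [abs_sub_comm] at h2
    calc _ = |(Real.log x - ∑ P ∈ up (fixF (gr ^ d : L ≃+* L)) x, Real.log (nm P) / nm P) +
            (∑ P ∈ up (fixF (gr ^ d : L ≃+* L)) x, W P -
            d * ∑ q ∈ up (fixF gr) x, (if Dv S d (Qc q) then W q else 0))| := by
          congr 1
          unfold W
          ring
      _ ≤ _ := (abs_add_le _ _).trans (add_le_add h2 h1)
  choose! D hD0 hD using hest
  -- the sum over the primes with r = 1
  have hmoeb : ∀ x : ℝ, ∑ q ∈ up (fixF gr) x, (if r q = 1 then W q else 0) =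
        ∑ d ∈ M.divisors, ((ArithmeticFunction.moebius d : ℤ) : ℝ) *
          ∑ q ∈ up (fixF gr) x, (if Dv S d (Qc q) then W q else 0) := by
    intro x
    have h1 : ∀ q : HeightOneSpectrum (𝓞 (fixF gr)), (if r q = 1 then W q else 0) =
        ∑ d ∈ M.divisors, ((ArithmeticFunction.moebius d : ℤ) : ℝ) *
          (if Dv S d (Qc q) then W q else 0) := by
      intro q
      have h2 := moebius_sum M (r q) hMpos (hrM q)
      calc (if r q = 1 then W q else 0) = (if r q = 1 then (1:ℝ) else 0) * W q := by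
            split_ifs <;> simp
        _ = _ := by
            rw [← h2, Finset.sum_mul]
            apply Finset.sum_congr rfl
            intro d _
            by_cases hdr : d ∣ r q
            · rw [if_pos hdr, if_pos ((hrD q d).2 hdr), mul_one]
            · rw [if_neg hdr, if_neg (fun h => hdr ((hrD q d).1 h))]
              ring
    rw [Finset.sum_congr rfl fun q _ => h1 q, Finset.sum_comm]
    apply Finset.sum_congr rfl
    intro d _
    rw [Finset.mul_sum]
  set δ : ℝ := (Nat.totient M : ℝ) / M with hδ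
  set E : ℝ := ∑ d ∈ M.divisors, D d with hE
  have hδ0 : 0 < δ := by
    have := Nat.totient_pos.2 hMpos
    positivity
  have hE0 : 0 ≤ E := Finset.sum_nonneg fun d hd => hD0 d hd
  have hasy : ∀ x : ℝ, 1 ≤ x →
      |δ * Real.log x - ∑ q ∈ up (fixF gr) x, (if r q = 1 then W q else 0)| ≤ E := by
    intro x hx
    rw [hmoeb x, hδ, ← moebius_totient M hMpos, Finset.sum_mul, ← Finset.sum_sub_distrib, hE]
    refine (Finset.abs_sum_le_sum_abs _ _).trans ?_
    apply Finset.sum_le_sum
    intro d hd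
    have h1 := hD d hd x hx
    have hd0 : (0:ℝ) < d := by exact_mod_cast Nat.pos_of_mem_divisors hd
    have hd1 : (1:ℝ) ≤ d := by exact_mod_cast Nat.pos_of_mem_divisors hd
    set A := ∑ q ∈ up (fixF gr) x, (if Dv S d (Qc q) then W q else 0) with hA
    set Lg := Real.log x with hLg
    have hmu : |((ArithmeticFunction.moebius d : ℤ) : ℝ)| ≤ 1 := by
      have := ArithmeticFunction.abs_moebius_le_one (n := d)
      exact_mod_cast this
    have h2 : |((ArithmeticFunction.moebius d : ℤ) : ℝ) / d * (Lg - d * A)| ≤ D d := by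
      rw [abs_mul, abs_div, abs_of_pos hd0]
      calc |((ArithmeticFunction.moebius d : ℤ) : ℝ)| / d * |Lg - d * A| ≤ 1 * |Lg - d * A| := by
            apply mul_le_mul_of_nonneg_right _ (abs_nonneg _)
            rw [div_le_one hd0]
            exact hmu.trans hd1
        _ ≤ D d := by rw [one_mul]; exact h1
    have h4 : ((ArithmeticFunction.moebius d : ℤ) : ℝ) / d * (Lg - d * A) =
        ((ArithmeticFunction.moebius d : ℤ) : ℝ) / d * Lg -
          ((ArithmeticFunction.moebius d : ℤ) : ℝ) * A := by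
      field_simp
    rwa [h4] at h2
  -- comparison with K
  let κ : K →+* fixF gr :=
    { toFun := fun x => ⟨algebraMap K L x, g.commutes x⟩
      map_zero' := Subtype.ext (map_zero _)
      map_one' := Subtype.ext (map_one _)
      map_add' := fun x y => Subtype.ext (map_add _ x y)
      map_mul' := fun x y => Subtype.ext (map_mul _ x y) }
  let _ : Algebra K (fixF gr) := κ.toAlgebra
  obtain ⟨n, hn⟩ : ∃ n, n = Module.finrank K (fixF gr) := ⟨_, rfl⟩
  have hmap : ∀ y : 𝓞 K, algebraMap (𝓞 (fixF gr)) (𝓞 L) (algebraMap (𝓞 K) (𝓞 (fixF gr)) y) =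
      algebraMap (𝓞 K) (𝓞 L) y := by
    intro y
    apply RingOfIntegers.ext
    rfl
  have hunder : ∀ q : HeightOneSpectrum (𝓞 (fixF gr)),
      ((Qc q).under (𝓞 K)).asIdeal = q.asIdeal.comap (algebraMap (𝓞 K) (𝓞 (fixF gr))) := by
    intro q
    ext y
    rw [Ideal.mem_comap]
    conv_rhs => rw [← hQc q]
    rw [mem_dn, hmap]
    exact Iff.rfl
  set V : Set (HeightOneSpectrum (𝓞 K)) := {v | ∃ w : HeightOneSpectrum (𝓞 L),
          w.under (𝓞 K) = v ∧ ∀ z : L, w.valuation L (g z) = w.valuation L z} with hV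
  have hval : ∀ q, r q = 1 → (Qc q).under (𝓞 K) ∈ V := by
    intro q hq
    refine ⟨Qc q, rfl, fun z => ?_⟩
    have h1 := hrS q
    rw [hq, pow_one] at h1
    exact valuation_eq gr (Qc q) (mem_stab.1 h1) z
  have hnle : ∀ q : HeightOneSpectrum (𝓞 (fixF gr)), nm ((Qc q).under (𝓞 K)) ≤ nm q := by
    intro q
    have h2 : Ideal.absNorm ((Qc q).under (𝓞 K)).asIdeal ≤ Ideal.absNorm q.asIdeal := by
      rw [Ideal.absNorm_apply, Ideal.absNorm_apply, Submodule.cardQuot_apply,
        Submodule.cardQuot_apply]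
      have hf : Finite (𝓞 (fixF gr) ⧸ q.asIdeal) :=
        Ideal.finiteQuotientOfFreeOfNeBot _ q.ne_bot
      have hle : ((Qc q).under (𝓞 K)).asIdeal ≤
        q.asIdeal.comap (algebraMap (𝓞 K) (𝓞 (fixF gr))) := (hunder q).le
      have hge : q.asIdeal.comap (algebraMap (𝓞 K) (𝓞 (fixF gr))) ≤
        ((Qc q).under (𝓞 K)).asIdeal := (hunder q).ge
      exact Nat.card_le_card_of_injective
        (Ideal.quotientMap q.asIdeal (algebraMap (𝓞 K) (𝓞 (fixF gr))) hle)
        (Ideal.quotientMap_injective' hge)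
    unfold nm
    exact_mod_cast h2
  have hn1 : 1 ≤ n := by
    rw [hn]
    exact Module.finrank_pos
  have hn0 : (0:ℝ) < n := by exact_mod_cast hn1
  -- at most n primes over each prime
  have hfib : ∀ x : ℝ, (((up (fixF gr) x).filter fun q => r q = 1).card : ℝ) ≤
      n * (((up K x).filter fun v => v ∈ V).card : ℝ) := by
    intro x
    have h1 := Finset.card_le_mul_card_image_of_maps_to
      (s := (up (fixF gr) x).filter fun q => r q = 1)
      (t := (up K x).filter fun v => v ∈ V) (f := fun q => (Qc q).under (𝓞 K)) (by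
        intro q hq
        rw [Finset.mem_filter, mem_up] at hq
        rw [Finset.mem_filter, mem_up]
        exact ⟨(hnle q).trans hq.1, hval q hq.2⟩) n (by
        intro v _
        have hnz : NoZeroSMulDivisors (𝓞 K) (𝓞 (fixF gr)) := ⟨fun {a x} h => by
          rw [Algebra.smul_def, mul_eq_zero] at h
          rcases h with h | h
          · left
            exact (FaithfulSMul.algebraMap_injective (𝓞 K) (𝓞 (fixF gr)))
              (h.trans (map_zero _).symm)
          · right
            exact h⟩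
        have hm := v.isMaximal
        have hcard : (IsDedekindDomain.primesOverFinset v.asIdeal (𝓞 (fixF gr))).card ≤ n := by
          rw [hn]
          exact Ideal.card_primesOverFinset_le_finrank (𝓞 (fixF gr)) K (fixF gr) v.ne_bot
        refine le_trans ?_ hcard
        refine Finset.card_le_card_of_injOn (fun q => q.asIdeal) ?_ ?_
        · intro q hq
          rw [Finset.mem_coe, Finset.mem_filter] at hq
          rw [Finset.mem_coe, IsDedekindDomain.mem_primesOverFinset_iff v.ne_bot]
          refine ⟨q.isPrime, ⟨?_⟩⟩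
          rw [← hq.2, hunder]
        · intro q _ q' _ h
          exact HeightOneSpectrum.ext h)
    exact_mod_cast h1
  -- conclusion
  obtain ⟨C, hC0, hC⟩ := pi_up K
  set A : ℝ := Real.exp ((2 * E + 1) / δ) with hA
  have hA0 : 0 < A := Real.exp_pos _
  have hA1 : 1 < A := by
    rw [hA]
    exact Real.one_lt_exp_iff.mpr (by positivity)
  refine ⟨(C * A * n)⁻¹, by positivity, A + 3, fun x hx => ?_⟩
  have hx2 : 2 ≤ x := by linarith
  have hx0 : 0 < x := by linarith
  have hxA : A ≤ x := by linarith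
  have hlog : 0 < Real.log x := Real.log_pos (by linarith)
  have hy1 : 1 ≤ x / A := by
    rw [le_div_iff₀ hA0]
    linarith
  have hyx : x / A ≤ x := div_le_self hx0.le hA1.le
  have hsub : (up (fixF gr) (x / A)) ⊆ (up (fixF gr) x) :=
    fun v hv => mem_up.mpr ((mem_up.mp hv).trans hyx)
  have h1 := abs_le.mp (hasy x (by linarith))
  have h2 := abs_le.mp (hasy (x / A) hy1)
  have h3 : δ * Real.log (x / A) = δ * Real.log x - (2 * E + 1) := by
    rw [Real.log_div hx0.ne' hA0.ne', hA, Real.log_exp]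
    field_simp
  have h4 := Finset.sum_sdiff
    (f := fun q : HeightOneSpectrum (𝓞 (fixF gr)) => if r q = 1 then W q else 0) hsub
  have h5 : 1 ≤ ∑ q ∈ up (fixF gr) x \ up (fixF gr) (x / A), (if r q = 1 then W q else 0) := by
    rw [h3] at h2
    have e1 := h1.2
    have e2 := h2.1
    linarith
  have h6 : ∑ q ∈ up (fixF gr) x \ up (fixF gr) (x / A), (if r q = 1 then W q else 0) ≤
      ∑ q ∈ (up (fixF gr) x).filter (fun q => r q = 1), Real.log x / (x / A) := by
    have hsub2 : up (fixF gr) x \ up (fixF gr) (x / A) ⊆ up (fixF gr) x := Finset.sdiff_subset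
    rw [Finset.sum_filter]
    have h7 : ∑ q ∈ up (fixF gr) x \ up (fixF gr) (x / A), (if r q = 1 then W q else 0) ≤
        ∑ q ∈ up (fixF gr) x \ up (fixF gr) (x / A),
          (if r q = 1 then Real.log x / (x / A) else 0) := by
      refine Finset.sum_le_sum fun v hv => ?_
      rw [Finset.mem_sdiff, mem_up, mem_up, not_le] at hv
      have hv0 : 0 < x / A := by linarith
      split_ifs
      · exact div_le_div₀ hlog.le (Real.log_le_log (by linarith [two_le_nm v]) hv.1) hv0 hv.2.le
      · exact le_rfl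
    refine h7.trans ?_
    apply Finset.sum_le_sum_of_subset_of_nonneg hsub2
    intro v _ _
    split_ifs
    · positivity
    · exact le_rfl
  rw [Finset.sum_const, nsmul_eq_mul] at h6
  have h8 : (1 : ℝ) ≤ (n * (((up K x).filter fun v => v ∈ V).card : ℝ)) *
      (Real.log x / (x / A)) :=
    (h5.trans h6).trans (mul_le_mul_of_nonneg_right (hfib x) (by positivity))
  have h9 : Real.log x / (x / A) = A * Real.log x / x := by
    field_simp
  rw [h9, ← mul_div_assoc, le_div_iff₀ hx0, one_mul] at h8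
  have h10 := hC x hx2
  have h11 : x / Real.log x ≤ n * (((up K x).filter fun v => v ∈ V).card : ℝ) * A := by
    rw [div_le_iff₀ hlog]
    linarith
  rw [inv_mul_le_iff₀ (by positivity)]
  calc ((up K x).card : ℝ) ≤ C * (x / Real.log x) := h10
    _ ≤ C * (n * (((up K x).filter fun v => v ∈ V).card : ℝ) * A) :=
        mul_le_mul_of_nonneg_left h11 hC0.le
    _ = C * A * n * (((up K x).filter fun v => v ∈ V).card : ℝ) := by ring

end Pool.Agent.NDE
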