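import Mathlib
import Pool.Agent.NDE.Mon
import Pool.Agent.NDE.Fix
import Pool.Agent.AAP.Den
import Pool.Agent.AAP.Frb

set_option autoImplicit false

/-!
# One good prime gives a positive natural density of primes
-/

namespace Pool.Agent.AAP

open NumberField IsDedekindDomain Polynomial
open scoped WithZero
open Pool.Agent.PNH (Tup app mp IsMor Cert)
open Pool.Agent.TameArb (PosDens pt Over)

section Nat

variable {K : Type} [Field K] [NumberField K]

theorem nat_of_moves {d : ℕ} (hd : 2 ≤ d) {F : Tup 1 K} (hF : IsMor d K F)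
    (Γ : Finset (Fin 2 → K)) (hΓ : ∀ x ∈ Γ, x ≠ 0) (n : ℕ)
    (h : ∀ (L : Type) [Field L] [NumberField L] [Algebra K L] [IsGalois K L],
      ∃ g : L ≃ₐ[K] L, ∀ x ∈ Γ, ∀ z : Fin 2 → L, z ≠ 0 →
        wd ((app (mp (algebraMap K L) F))^[n] z) (fun i => algebraMap K L (x i)) = 0 →
        wd (fun i => g (z i)) z ≠ 0) : NDE.NatDens (SP F Γ) := by
  classical
  -- the polynomials of the fibres
  have hex : ∀ x : Fin 2 → K, ∃ f : K[X], f ≠ 0 ∧ (x ≠ 0 → ∀ (L : Type) [Field L] [Algebra K L],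
      (f.map (algebraMap K L)).Splits →
      ∃ (c : L) (Z : Fin (d ^ n) → Fin 2 → L), c ≠ 0 ∧ (∀ i, Z i ≠ 0) ∧ ∀ a : Fin 2 → L,
        wd ((app (mp (algebraMap K L) F))^[n] a) (fun i => algebraMap K L (x i)) =
          c * ∏ i, wd a (Z i)) := by
    intro x
    by_cases hx : x = 0
    · exact ⟨1, one_ne_zero, fun h0 => absurd hx h0⟩
    · obtain ⟨f, hf, hf'⟩ := exists_fibre (by omega) hF n x hx
      exact ⟨f, hf, fun _ => hf'⟩
  choose f hf0 hf using hex
  obtain ⟨L, _, _, _, _, hsplit⟩ := TameArb.exists_split K (∏ x ∈ Γ, f x)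
  obtain ⟨g, hg⟩ := h L
  have hprod : (∏ x ∈ Γ, f x) ≠ 0 := Finset.prod_ne_zero_iff.mpr fun x _ => hf0 x
  have hsp : ∀ x ∈ Γ, ((f x).map (algebraMap K L)).Splits := by
    intro x hx
    exact hsplit.of_dvd ((Polynomial.map_ne_zero_iff (algebraMap K L).injective).mpr hprod)
      (Polynomial.map_dvd _ (Finset.dvd_prod_of_mem _ hx))
  have hfac : ∀ x : Fin 2 → K, ∃ (c : L) (Z : Fin (d ^ n) → Fin 2 → L), c ≠ 0 ∧
      (∀ i, Z i ≠ 0) ∧ (x ∈ Γ → ∀ a : Fin 2 → L,
        wd ((app (mp (algebraMap K L) F))^[n] a) (fun i => algebraMap K L (x i)) =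
          c * ∏ i, wd a (Z i)) := by
    intro x
    by_cases hx : x ∈ Γ
    · obtain ⟨c, Z, h1, h2, h3⟩ := hf x (hΓ x hx) L (hsp x hx)
      exact ⟨c, Z, h1, h2, fun _ => h3⟩
    · exact ⟨1, fun _ _ => 1, one_ne_zero, fun _ h0 => one_ne_zero (congrFun h0 0),
        fun h0 => absurd h0 hx⟩
  choose c Z hc hZ hcZ using hfac
  have hmove : ∀ x ∈ Γ, ∀ i, wd (fun j => g (Z x i j)) (Z x i) ≠ 0 := by
    intro x hx i
    refine hg x hx (Z x i) (hZ x i) ?_
    rw [hcZ x hx, Finset.prod_eq_zero (Finset.mem_univ i) (wd_self _), mul_zero]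
  -- the order of `g`
  have hfinG : Finite (L ≃ₐ[K] L) := inferInstance
  obtain ⟨N, hN, hgN⟩ : ∃ N, 0 < N ∧ g ^ N = 1 :=
    ⟨orderOf g, orderOf_pos g, pow_orderOf_eq_one g⟩
  have hdens : NDE.NatDens {v : HeightOneSpectrum (𝓞 K) | ∃ w : HeightOneSpectrum (𝓞 L),
      w.under (𝓞 K) = v ∧ ∀ z : L, w.valuation L (g z) = w.valuation L z} :=
    NDE.fixed_nat K L g N hN hgN
  -- the exceptional primes
  set E : Set (HeightOneSpectrum (𝓞 L)) := ⋃ x ∈ Γ, ({w | w.valuation L (c x) ≠ 1} ∪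
    ⋃ i, ({w | nv (w.valuation L) (Z x i) ≠ 1} ∪
      {w | Cg (w.valuation L) (fun j => g (Z x i j)) (Z x i)})) with hE
  have hEfin : E.Finite := by
    refine Set.Finite.biUnion (Finset.finite_toSet Γ) fun x hx => ?_
    refine (finite_one (hc x)).union (Set.finite_iUnion fun i => ?_)
    exact (finite_nv (hZ x i)).union (finite_cg (hmove x hx i))
  set B : Set (HeightOneSpectrum (𝓞 K)) := {v | ¬ Good (v.valuation K) F} ∪
    ((⋃ x ∈ Γ, {v | nv (v.valuation K) x ≠ 1}) ∪
      (fun w : HeightOneSpectrum (𝓞 L) => w.under (𝓞 K)) '' E) with hB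
  have hBfin : B.Finite := by
    refine (finite_bad hF).union (Set.Finite.union ?_ (hEfin.image _))
    exact Set.Finite.biUnion (Finset.finite_toSet Γ) fun x hx => finite_nv (hΓ x hx)
  refine NDE.NatDens.mono hdens hBfin ?_
  rintro v ⟨w, hwv, hw⟩
  by_cases hvB : v ∈ B
  · exact Or.inr hvB
  left
  rw [hB] at hvB
  simp only [Set.mem_union, not_or] at hvB
  obtain ⟨hgood', hint', hE'⟩ := hvB
  have hgood : Good (v.valuation K) F := by
    by_contra h
    exact hgood' h
  refine ⟨hgood, fun x hx hper => ?_⟩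
  have hx1 : nv (v.valuation K) x = 1 := by
    by_contra h
    apply hint'
    simp only [Set.mem_iUnion]
    exact ⟨x, hx, h⟩
  have hwE : w ∉ E := fun h => hE' ⟨w, h, hwv⟩
  have hc1 : w.valuation L (c x) = 1 := by
    by_contra h
    apply hwE
    simp only [hE, Set.mem_iUnion]
    exact ⟨x, hx, Or.inl h⟩
  have hZ1 : ∀ i, nv (w.valuation L) (Z x i) = 1 := by
    intro i
    by_contra h
    apply hwE
    simp only [hE, Set.mem_iUnion]
    exact ⟨x, hx, Or.inr (Set.mem_iUnion.mpr ⟨i, Or.inl h⟩)⟩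
  have hZ2 : ∀ i, ¬ Cg (w.valuation L) (fun j => g (Z x i j)) (Z x i) := by
    intro i h
    apply hwE
    simp only [hE, Set.mem_iUnion]
    exact ⟨x, hx, Or.inr (Set.mem_iUnion.mpr ⟨i, Or.inr h⟩)⟩
  -- the valuation above
  have hlo : w.asIdeal.LiesOver v.asIdeal := by
    rw [← hwv]
    exact ⟨rfl⟩
  set e := v.asIdeal.ramificationIdx' w.asIdeal with he
  have he0 : e ≠ 0 :=
    Ideal.IsDedekindDomain.ramificationIdx'_ne_zero_of_liesOver w.asIdeal v.ne_bot
  have ho : Over (v.valuation K) (w.valuation L) e :=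
    ⟨he0, fun x => HeightOneSpectrum.valuation_liesOver L v w x⟩
  -- a preimage of `x` modulo `v`
  obtain ⟨m, hm⟩ := PerMod.back hF.1 hgood hper n
  set a : Fin 2 → K := (app F)^[m] x with ha
  have ha0 : a ≠ 0 := good_iter_ne hF.1 hgood m (hΓ x hx)
  set a' : Fin 2 → L := fun i => algebraMap K L (a i) with ha'
  have hm' : Cg (w.valuation L) ((app (mp (algebraMap K L) F))^[n] a')
      (fun i => algebraMap K L (x i)) := by
    rw [ha', iter_map]
    exact (Over.cg ho _ _).mpr hm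
  have hgoodL : Good (w.valuation L) (mp (algebraMap K L) F) := Over.good ho hgood
  have ha'0 : a' ≠ 0 := by
    intro h0
    apply ha0
    funext i
    exact (algebraMap K L).injective (by rw [show algebraMap K L (a i) = a' i from rfl, h0]; simp)
  -- one of the roots is congruent to it
  obtain ⟨i, hi⟩ : ∃ i, Cg (w.valuation L) a' (Z x i) := by
    by_contra hcon
    push Not at hcon
    unfold Cg at hm'
    rw [hcZ x hx, map_mul, hc1, one_mul, map_prod, (Over.nv_one ho x).mpr hx1, mul_one,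
      good_iter_nv (PNH.hom_mp d _ F hF.1) hgoodL n ha'0] at hm'
    have h2 : ∀ i, nv (w.valuation L) a' ≤ w.valuation L (wd a' (Z x i)) := by
      intro i
      have h3 := hcon i
      unfold Cg at h3
      rw [hZ1 i, mul_one] at h3
      exact not_lt.mp h3
    have h4 : nv (w.valuation L) a' ^ d ^ n ≤ ∏ i, w.valuation L (wd a' (Z x i)) := by
      calc nv (w.valuation L) a' ^ d ^ n = ∏ _i : Fin (d ^ n), nv (w.valuation L) a' := by
            rw [Finset.prod_const, Finset.card_univ, Fintype.card_fin]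
        _ ≤ _ := Finset.prod_le_prod' fun i _ => h2 i
    exact absurd hm' (not_lt.mpr h4)
  have h5 := cg_aut g hw hi
  have h6 : (fun j => g (a' j)) = a' := by
    funext j
    exact g.commutes _
  rw [h6] at h5
  exact hZ2 i (h5.symm.trans hi)

end Nat

/-- one good prime gives a positive lower natural density -/
theorem nat_of_mem {K : Type} [Field K] [NumberField K] {d : ℕ} (hd : 2 ≤ d) {F : PNH.Tup 1 K}
    (hF : PNH.IsMor d K F) (Γ : Finset (Fin 2 → K)) (hΓ : ∀ x ∈ Γ, x ≠ 0)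
    (v : HeightOneSpectrum (𝓞 K)) (hv : v ∈ SP F Γ) : NDE.NatDens (SP F Γ) := by
  obtain ⟨n, hn⟩ := frb hF.1 v hv.1
  refine nat_of_moves hd hF Γ hΓ n fun L _ _ _ _ => ?_
  obtain ⟨g, hg⟩ := hn L
  exact ⟨g, fun x hx z hz h => hg x (hΓ x hx) (hv.2 x hx) z hz h⟩

end Pool.Agent.AAP
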