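import Mathlib
import Pool.Agent.NDE.Defs

set_option autoImplicit false

/-!
# Natural density, in terms of cardinalities of sets
-/

namespace Pool.Agent.NDE

open NumberField IsDedekindDomain

theorem NatDens.ncard {K : Type*} [Field K] [NumberField K] {S : Set (HeightOneSpectrum (𝓞 K))}
    (h : NatDens S) : ∃ c : ℝ, 0 < c ∧ ∃ X₀ : ℝ, ∀ x : ℝ, X₀ ≤ x →
      c * ({v : HeightOneSpectrum (𝓞 K) | (Ideal.absNorm v.asIdeal : ℝ) ≤ x}.ncard : ℝ) ≤
        ({v : HeightOneSpectrum (𝓞 K) |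
          (Ideal.absNorm v.asIdeal : ℝ) ≤ x ∧ v ∈ S}.ncard : ℝ) := by
  classical
  obtain ⟨c, hc, X₀, h⟩ := h
  refine ⟨c, hc, X₀, fun x hx => ?_⟩
  have h1 : ({v : HeightOneSpectrum (𝓞 K) | (Ideal.absNorm v.asIdeal : ℝ) ≤ x}) =
      ((up K x : Finset (HeightOneSpectrum (𝓞 K))) : Set _) := by
    ext v
    rw [Finset.mem_coe, mem_up]
    exact Iff.rfl
  have h2 : ({v : HeightOneSpectrum (𝓞 K) | (Ideal.absNorm v.asIdeal : ℝ) ≤ x ∧ v ∈ S}) =
      (((up K x).filter fun v => v ∈ S : Finset (HeightOneSpectrum (𝓞 K))) : Set _) := by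
    ext v
    rw [Finset.mem_coe, Finset.mem_filter, mem_up]
    exact Iff.rfl
  rw [h1, h2, Set.ncard_coe_finset, Set.ncard_coe_finset]
  have h3 : ((up K x).filter fun v => v ∈ S) =
      @Finset.filter _ (fun v => v ∈ S) (fun _ => Classical.propDecidable _) (up K x) :=
    Finset.filter_congr_decidable (up K x) (fun v => v ∈ S) _
  rw [h3]
  exact h x hx

end Pool.Agent.NDE
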