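import Mathlib
import Pool.Agent.NDE.Mon
import Pool.Agent.NDE.Fix
import Pool.Agent.TameArb.Down

set_option autoImplicit false

/-!
# One good prime gives a positive lower natural density of good primes (polynomials)
-/

open Polynomial WithZero NumberField IsDedekindDomain
open scoped WithZero

namespace Pool.Agent.NDE

open Pool.Agent.TameArb

section Pol

variable {K : Type} [Field K] [NumberField K]

theorem nat_main (φ : K[X]) (hd : 2 ≤ φ.natDegree) (Γ : Finset K)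
    (hnp : ∀ γ ∈ Γ, ∀ n, 0 < n → (ph φ)^[n] γ ≠ γ) (T : Finset (HeightOneSpectrum (𝓞 K)))
    (hT : ∀ v ∈ T, Good (v.valuation K) φ ∧
      ∃ p : ℕ, p.Prime ∧ v.valuation K (p : K) < 1 ∧ φ.natDegree < p)
    (v0 : HeightOneSpectrum (𝓞 K)) (hv0 : Good (v0.valuation K) φ)
    (hΓ : ∀ γ ∈ Γ, (∃ v ∈ T, 1 < v.valuation K γ) ∨
      (1 < v0.valuation K γ ∧ v0.valuation K (φ.natDegree : K) = 1) ∨
      (v0.valuation K γ ≤ 1 ∧ ¬ PerMod (v0.valuation K) φ γ)) : NatDens (GP φ Γ) := by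
  classical
  obtain ⟨n, hn⟩ := exists_auto hd Γ hnp T hT v0 hv0 hΓ
  set f : K[X] := ∏ γ ∈ Γ, (itp φ n - C γ) with hf
  obtain ⟨L, _, _, _, _, hsplit⟩ := exists_split K f
  obtain ⟨g, hg⟩ := hn L
  -- each factor splits
  have hf0 : f ≠ 0 := by
    rw [hf]
    apply Finset.prod_ne_zero_iff.mpr
    intro γ _ h0
    have h1 : itp φ n = C γ := sub_eq_zero.mp h0
    have h2 := itp_natDegree φ n
    rw [h1, natDegree_C] at h2
    have : 0 < φ.natDegree ^ n := by positivity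
    omega
  have hsp : ∀ γ ∈ Γ, ((itp φ n).map (algebraMap K L) - C (algebraMap K L γ)).Splits := by
    intro γ hγ
    have h1 : (itp φ n - C γ).map (algebraMap K L) ∣ f.map (algebraMap K L) :=
      Polynomial.map_dvd _ (Finset.dvd_prod_of_mem _ hγ)
    have h2 := hsplit.of_dvd ((Polynomial.map_ne_zero_iff (algebraMap K L).injective).mpr hf0) h1
    rwa [Polynomial.map_sub, map_C] at h2
  have hfib : ∀ γ : K, ∃ S : Finset L, ∀ x, x ∈ S ↔ (ph φ)^[n] x = algebraMap K L γ := by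
    intro γ
    obtain ⟨S, -, hS⟩ := exists_fibre φ hd n (algebraMap K L γ)
    exact ⟨S, hS⟩
  choose F hF using hfib
  -- the order of `g`
  have hfinG : Finite (L ≃ₐ[K] L) := inferInstance
  obtain ⟨N, hN, hgN⟩ : ∃ N, 0 < N ∧ g ^ N = 1 :=
    ⟨orderOf g, orderOf_pos g, pow_orderOf_eq_one g⟩
  have hdens : NatDens {v : HeightOneSpectrum (𝓞 K) | ∃ w : HeightOneSpectrum (𝓞 L),
      w.under (𝓞 K) = v ∧ ∀ z : L, w.valuation L (g z) = w.valuation L z} :=
    fixed_nat K L g N hN hgN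
  -- the bad primes
  set B : Set (HeightOneSpectrum (𝓞 K)) := {v | ¬ Good (v.valuation K) φ} ∪
    ((⋃ γ ∈ Γ, {v | ¬ v.valuation K γ ≤ 1}) ∪
      (fun w : HeightOneSpectrum (𝓞 L) => w.under (𝓞 K)) ''
        (⋃ γ ∈ Γ, ⋃ x ∈ F γ, {w | w.valuation L (g x - x) < 1})) with hB
  have hBfin : B.Finite := by
    refine (finite_bad hd).union (Set.Finite.union ?_ (Set.Finite.image _ ?_))
    · exact Set.Finite.biUnion (Finset.finite_toSet Γ) fun γ _ => finite_gt γ
    · refine Set.Finite.biUnion (Finset.finite_toSet Γ) fun γ hγ => ?_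
      refine Set.Finite.biUnion (Finset.finite_toSet (F γ)) fun x hx => ?_
      apply finite_lt
      have h1 := hg γ (Finset.mem_coe.mp hγ) x ((hF γ x).mp (Finset.mem_coe.mp hx))
      exact sub_ne_zero.mpr h1
  refine hdens.mono hBfin ?_
  rintro v ⟨w, hwv, hw⟩
  by_cases hvB : v ∈ B
  · exact Or.inr hvB
  left
  rw [hB] at hvB
  simp only [Set.mem_union, not_or] at hvB
  obtain ⟨hgood', hint', hclose'⟩ := hvB
  have hgood : Good (v.valuation K) φ := by
    by_contra h; exact hgood' h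
  refine ⟨hgood, ?_⟩
  intro γ hγ
  have hγ1 : v.valuation K γ ≤ 1 := by
    by_contra h
    apply hint'
    simp only [Set.mem_iUnion]
    exact ⟨γ, hγ, h⟩
  refine ⟨hγ1, ?_⟩
  rintro ⟨k, hk, hper⟩
  -- the valuation above
  have hlo : w.asIdeal.LiesOver v.asIdeal := by
    rw [← hwv]; exact ⟨rfl⟩
  set e := v.asIdeal.ramificationIdx' w.asIdeal with he
  have he0 : e ≠ 0 :=
    Ideal.IsDedekindDomain.ramificationIdx'_ne_zero_of_liesOver w.asIdeal v.ne_bot
  have ho : Over (v.valuation K) (w.valuation L) e :=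
    ⟨he0, fun x => HeightOneSpectrum.valuation_liesOver L v w x⟩
  -- a preimage of `γ` modulo `v` in `K`
  obtain ⟨m, hm⟩ : ∃ m, k * n + k = n + m := ⟨k * n + k - n, by
    have : n ≤ k * n := Nat.le_mul_of_pos_left n hk
    omega⟩
  have hcong := per_cong hgood hγ1 hper 0 (n + 1)
  rw [zero_add, show k * (n + 1) = n + m by rw [← hm]; ring, Function.iterate_add_apply] at hcong
  have hcong' : v.valuation K ((ph φ)^[n] ((ph φ)^[m] γ) - γ) < 1 := hcong
  have h1 := ho.lt_one.mpr hcong'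
  rw [map_sub, iter_algebraMap] at h1
  obtain ⟨x, hx, hax⟩ := ho.exists_root_close hgood hd (hsp γ hγ) h1
  apply hclose'
  refine ⟨w, ?_, hwv⟩
  simp only [Set.mem_iUnion]
  refine ⟨γ, hγ, x, (hF γ x).mpr hx, ?_⟩
  have h2 : w.valuation L (g (algebraMap K L ((ph φ)^[m] γ) - x)) < 1 := by rw [hw]; exact hax
  rw [map_sub, g.commutes] at h2
  have e1 : g x - x = (algebraMap K L ((ph φ)^[m] γ) - x) -
      (algebraMap K L ((ph φ)^[m] γ) - g x) := by ring
  show w.valuation L (g x - x) < 1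
  rw [e1]
  exact Valuation.map_sub_lt _ hax h2

theorem nat_poly (φ : K[X]) (hd : 2 ≤ φ.natDegree) (Γ : Finset K)
    (hne : (TameArb.GP φ Γ).Nonempty) : NatDens (TameArb.GP φ Γ) := by
  obtain ⟨v0, hv0, hΓ⟩ := hne
  refine nat_main φ hd Γ (fun γ hγ n hn h => ?_) ∅ (by simp) v0 hv0
    (fun γ hγ => Or.inr (Or.inr (hΓ γ hγ)))
  refine (hΓ γ hγ).2 ⟨n, hn, ?_⟩
  rw [h, sub_self, map_zero]
  exact zero_lt_one

end Pol

/-- The definition of `NatDens` with cardinalities of sets. -/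
theorem natDens_iff {K : Type*} [Field K] [NumberField K] {S : Set (HeightOneSpectrum (𝓞 K))} :
    NatDens S ↔ ∃ c : ℝ, 0 < c ∧ ∃ X₀ : ℝ, ∀ x : ℝ, X₀ ≤ x →
      c * ({v : HeightOneSpectrum (𝓞 K) | (Ideal.absNorm v.asIdeal : ℝ) ≤ x}.ncard : ℝ) ≤
        ({v : HeightOneSpectrum (𝓞 K) | v ∈ S ∧ (Ideal.absNorm v.asIdeal : ℝ) ≤ x}.ncard : ℝ) := by
  classical
  have h1 : ∀ x : ℝ, (up K x).card =
      {v : HeightOneSpectrum (𝓞 K) | (Ideal.absNorm v.asIdeal : ℝ) ≤ x}.ncard := by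
    intro x
    rw [← Set.ncard_coe_finset]
    congr 1
    ext v
    rw [Finset.mem_coe, mem_up]
    rfl
  have h2 : ∀ x : ℝ, ((up K x).filter fun v => v ∈ S).card =
      {v : HeightOneSpectrum (𝓞 K) | v ∈ S ∧ (Ideal.absNorm v.asIdeal : ℝ) ≤ x}.ncard := by
    intro x
    rw [← Set.ncard_coe_finset]
    congr 1
    ext v
    rw [Finset.mem_coe, Finset.mem_filter, mem_up, and_comm]
    rfl
  unfold NatDens
  simp only [h1]
  constructor
  · rintro ⟨c, hc, X₀, h⟩
    refine ⟨c, hc, X₀, fun x hx => ?_⟩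
    rw [← h2 x]
    exact_mod_cast h x hx
  · rintro ⟨c, hc, X₀, h⟩
    refine ⟨c, hc, X₀, fun x hx => ?_⟩
    have h3 := h x hx
    rw [← h2 x] at h3
    exact_mod_cast h3

theorem NatDens.infinite {K : Type*} [Field K] [NumberField K] {S : Set (HeightOneSpectrum (𝓞 K))}
    (h : NatDens S) : S.Infinite := by
  classical
  intro hfin
  obtain ⟨c, hc, X₀, hx⟩ := h
  obtain ⟨m, hm⟩ := exists_nat_gt ((hfin.toFinset.card : ℝ) / c)
  obtain ⟨X₁, h1⟩ := card_large K m
  have h2 := hx (max X₀ X₁) (le_max_left _ _)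
  have h3 := h1 (max X₀ X₁) (le_max_right _ _)
  have h4 : ((up K (max X₀ X₁)).filter fun v => v ∈ S).card ≤ hfin.toFinset.card := by
    refine Finset.card_le_card fun v hv => ?_
    rw [Set.Finite.mem_toFinset]
    exact (Finset.mem_filter.1 hv).2
  have h5 : c * (m : ℝ) ≤ hfin.toFinset.card := by
    have h6 : (m : ℝ) ≤ ((up K (max X₀ X₁)).card : ℝ) := by exact_mod_cast h3
    have h7 : (((up K (max X₀ X₁)).filter fun v => v ∈ S).card : ℝ) ≤ hfin.toFinset.card := by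
      exact_mod_cast h4
    calc c * (m : ℝ) ≤ c * ((up K (max X₀ X₁)).card : ℝ) := mul_le_mul_of_nonneg_left h6 hc.le
      _ ≤ _ := h2
      _ ≤ _ := h7
  rw [div_lt_iff₀ hc] at hm
  linarith

end Pool.Agent.NDE
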